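import Mathlib
import Pool.Agent.Lib.MP_44a246_ntG.G6
import Pool.Agent.Lib.MP_44a246_ntG.G11
import Pool.Agent.Lib.MP_44a246_ntZ.Z10

/-!
The rows of the coordinates of the point and of further elements which are integral at all places.
-/

namespace Pool.Agent.Lib.MP_44a246_ntD

open Pool.Agent.Lib.MP_44a246_nt
open Pool.Agent.Lib.MP_44a246_ntL
open Pool.Agent.Lib.MP_44a246_ntS
open Pool.Agent.Lib.MP_44a246_ntX
open Pool.Agent.Lib.MP_44a246_ntW
open Pool.Agent.Lib.MP_44a246_ntG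
open Pool.Agent.Lib.MP_44a246_ntZ
open Pool.Agent.Lib.MP_e52354_nt
open WithZero Module Polynomial

section

variable {κ L : Type*} [Field κ] [Field L] [Algebra κ L] {n d : ℕ} (X : DatG κ (L := L) n d)

/-- the local bound for the minors of the rows of elements which are at most as large as the
point -/
theorem pl_rowsB (w : Place κ L) {e : ℕ} (z : Fin e → L) (hz : ∀ i, w.1 (z i) ≤ vmax w.1 X.x) :
    pl w.1 (fun i => X.row (z i)) ≤
      vmax w.1 X.x ^ (e + 1) * exp ((e * X.δ w + X.ρ w : ℕ) : ℤ) := by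
  classical
  obtain ⟨l, hl0, hlmax, hle⟩ := exists_vmax w.1 X.x_ne_zero
  have hvl0 : w.1 (X.x l) ≠ 0 := (Valuation.ne_zero_iff _).2 hl0
  have hone : 1 ≤ w.1 (X.x l) := by
    rw [← hlmax]; exact X.one_le_vmax w
  have hz' : ∀ i, w.1 (z i) ≤ w.1 (X.x l) := fun i => by
    rw [← hlmax]; exact hz i
  have hy' : w.1 (X.x l)⁻¹ ≤ 1 := by
    rw [map_inv₀]
    exact inv_le_one_of_one_le₀ hone
  have hyi : ∀ i, w.1 (z i * (X.x l)⁻¹) ≤ 1 := by
    intro i
    rw [map_mul, map_inv₀]
    calc w.1 (z i) * (w.1 (X.x l))⁻¹ ≤ w.1 (X.x l) * (w.1 (X.x l))⁻¹ :=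
          mul_le_mul_left (hz' i) _
      _ = 1 := mul_inv_cancel₀ hvl0
  have hp : (X.x l)⁻¹ ≠ 0 := inv_ne_zero hl0
  -- the relation between the rows
  have hrel : ∀ i K, X.row (z i) K = X.x l * (X.row (z i * (X.x l)⁻¹) K -
      (z i * (X.x l)⁻¹) / (X.x l)⁻¹ * X.row (X.x l)⁻¹ K) := by
    intro i K
    have h1 : z i = (z i * (X.x l)⁻¹) * X.x l := by
      rw [mul_assoc, inv_mul_cancel₀ hl0, mul_one]
    have h2 : X.row (z i) K = (z i * (X.x l)⁻¹) * X.row (X.x l) K +
        X.x l * X.row (z i * (X.x l)⁻¹) K := by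
      conv_lhs => rw [h1]
      rw [X.row_mul]
      simp [Pi.add_apply, Pi.smul_apply, smul_eq_mul]
    have h3 : X.row (X.x l) K = - X.x l ^ 2 * X.row (X.x l)⁻¹ K := congrFun (X.row_inv hl0) K
    rw [h2, h3, div_inv_eq_mul]
    ring
  unfold pl
  refine vmax_le w.1 fun K => ?_
  set q : Fin e → L := fun i => z i * (X.x l)⁻¹ with hq
  set y : Fin (e + 1) → L := Fin.cons (X.x l)⁻¹ q with hy
  have hyle : ∀ i, w.1 (y i) ≤ 1 := by
    intro i
    refine Fin.cases ?_ (fun i => ?_) i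
    · exact hy'
    · exact hyi i
  set M : Matrix (Fin (e + 1)) (Fin (e + 1)) L := Matrix.of (Fin.cons
    (Fin.cons (X.x l)⁻¹ (fun j => X.row (X.x l)⁻¹ (K j)))
    (fun i => (Fin.cons (q i) (fun j => X.row (q i) (K j)) : Fin (e + 1) → L))) with hM
  have hdet := det_border hp q (fun j => X.row (X.x l)⁻¹ (K j)) (fun i j => X.row (q i) (K j))
  have hM0 : ∀ i, M i 0 = y i := by
    intro i
    refine Fin.cases ?_ (fun i => ?_) i
    · simp [hM, hy]
    · simp [hM, hy]
  have hMs : ∀ i j, M i (Fin.succ j) = X.row (y i) (K j) := by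
    intro i j
    refine Fin.cases ?_ (fun i => ?_) i
    · simp [hM, hy]
    · simp [hM, hy]
  have hbound : w.1 M.det ≤ 1 * exp ((e * X.δ w + X.ρ w : ℕ) : ℤ) := by
    refine det_column_le w.1 M (fun i => ?_) (fun i => ?_)
    · rw [hM0]
      exact hyle i
    · have h1 : M.submatrix i.succAbove Fin.succ =
          Matrix.of fun i' j => X.row (y (i.succAbove i')) (K j) := by
        ext i' j
        rw [Matrix.submatrix_apply, hMs, Matrix.of_apply]
      rw [h1]
      exact X.row_minor w K (fun i' => y (i.succAbove i')) fun j => hyle _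
  have hfinal : (Matrix.of fun i j => X.row (z i) (K j)).det = X.x l ^ (e + 1) * M.det := by
    have h1 : (Matrix.of fun i j => X.row (z i) (K j)) = X.x l •
        (Matrix.of fun i j => X.row (q i) (K j) - q i / (X.x l)⁻¹ * X.row (X.x l)⁻¹ (K j)) := by
      ext i j
      rw [Matrix.of_apply, Matrix.smul_apply, Matrix.of_apply, smul_eq_mul]
      exact hrel i (K j)
    rw [h1, Matrix.det_smul, Fintype.card_fin]
    have h2 : M.det = (X.x l)⁻¹ *
        (Matrix.of fun i j => X.row (q i) (K j) - q i / (X.x l)⁻¹ * X.row (X.x l)⁻¹ (K j)).det :=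
      hdet
    rw [h2, pow_succ, mul_assoc, ← mul_assoc (X.x l) (X.x l)⁻¹ _, mul_inv_cancel₀ hl0, one_mul]
  rw [one_mul] at hbound
  rw [hfinal, map_mul, map_pow, hlmax]
  exact mul_le_mul_right hbound _

/-- the space spanned by the rows of the elements `β t` -/
noncomputable def RB {γ : Type*} (β : γ → L) : Submodule L (M3 d → L) :=
  Submodule.span L (Set.range fun t => X.row (β t))

end

section

variable {κ L : Type*} [Field κ] [IsAlgClosed κ] [CharZero κ] [Field L] [Algebra κ L] {n d : ℕ}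
  (X : DatG κ (L := L) n d)

/-- **The height of the space spanned by the rows.** -/
theorem ht_UxB (h : IsFF κ L) {γ : Type*} [Finite γ] {β : γ → L}
    (hβ : ∀ t, ∀ w : Place κ L, w.1 (β t) ≤ 1) {r : ℕ}
    (hr : finrank L (X.Ux ⊔ RB X β : Submodule L (M3 d → L)) ≤ r) :
    ht κ (X.Ux ⊔ RB X β) ≤ (r + 1) * height κ X.x + r * X.Δ + X.R := by
  classical
  have := Fintype.ofFinite γ
  let z : Fin (n + 1) ⊕ γ → L := Sum.elim X.x β
  have hUz : X.Ux ⊔ RB X β = Submodule.span L (Set.range fun t => X.row (z t)) := by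
    unfold DatG.Ux RB
    rw [← Submodule.span_union]
    congr 1
    ext y
    constructor
    · rintro (⟨j, rfl⟩ | ⟨t, rfl⟩)
      · exact ⟨Sum.inl j, rfl⟩
      · exact ⟨Sum.inr t, rfl⟩
    · rintro ⟨j | t, rfl⟩
      · exact Or.inl ⟨j, rfl⟩
      · exact Or.inr ⟨t, rfl⟩
  obtain ⟨τ, σ', hσ', hsp, hli⟩ := exists_linearIndependent' L (fun j => X.row (z j))
  have : Finite τ := Finite.of_injective σ' hσ'
  have : Fintype τ := Fintype.ofFinite τ
  set e := Fintype.card τ with he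
  set σ : Fin e → Fin (n + 1) ⊕ γ := fun i => σ' ((Fintype.equivFin τ).symm i) with hσ
  set a : Fin e → M3 d → L := fun i => X.row (z (σ i)) with ha
  have hai : LinearIndependent L a := hli.comp _ (Fintype.equivFin τ).symm.injective
  have has : Submodule.span L (Set.range a) = X.Ux ⊔ RB X β := by
    have h1 : Set.range a = Set.range ((fun j => X.row (z j)) ∘ σ') := by
      ext y
      constructor
      · rintro ⟨i, rfl⟩
        exact ⟨_, rfl⟩
      · rintro ⟨t, rfl⟩
        refine ⟨Fintype.equivFin τ t, ?_⟩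
        simp [ha, hσ]
    rw [h1, hsp, hUz]
  have hen : e ≤ r := by
    have h1 := finrank_span_eq_card hai
    rw [has, Fintype.card_fin] at h1
    rw [← h1]
    exact hr
  have hzle : ∀ w : Place κ L, ∀ t, w.1 (z t) ≤ vmax w.1 X.x := by
    rintro w (j | t)
    · exact le_vmax w.1 X.x j
    · exact (hβ t w).trans (X.one_le_vmax w)
  have hloc : ∀ w : Place κ L, log (pl w.1 a) ≤
      ((e : ℤ) + 1) * log (vmax w.1 X.x) + (e : ℤ) * (X.δ w : ℤ) + (X.ρ w : ℤ) := by
    intro w
    have h1 := pl_rowsB X w (fun i => z (σ i)) (fun i => hzle w _)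
    have n1 : pl w.1 a ≠ 0 := pl_ne_zero w.1 hai
    have n2 : vmax w.1 X.x ≠ 0 := by
      rw [Ne, vmax_eq_zero_iff]
      exact X.x_ne_zero
    have n3 : vmax w.1 X.x ^ (e + 1) ≠ 0 := pow_ne_zero _ n2
    have n4 : (exp ((e * X.δ w + X.ρ w : ℕ) : ℤ) : ℤᵐ⁰) ≠ 0 := exp_ne_zero
    have h2 := (log_le_log n1 (mul_ne_zero n3 n4)).mpr h1
    rw [log_mul n3 n4, log_pow, log_exp] at h2
    refine h2.trans (le_of_eq ?_)
    rw [nsmul_eq_mul]
    push_cast
    ring
  have s1 := pl_support h hai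
  have s2 : (Function.support fun w : Place κ L =>
      ((e : ℤ) + 1) * log (vmax w.1 X.x)).Finite := by
    refine (h.vmax_support X.x_ne_zero).subset fun w hw h1 => hw ?_
    simp only at h1 ⊢
    rw [h1, mul_zero]
  have s3 : (Function.support fun w : Place κ L => (e : ℤ) * (X.δ w : ℤ)).Finite := by
    refine X.hδ.subset fun w hw h1 => hw ?_
    simp only at h1 ⊢
    rw [h1, Nat.cast_zero, mul_zero]
  have s4 : (Function.support fun w : Place κ L => (X.ρ w : ℤ)).Finite := by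
    refine X.hρ.subset fun w hw h1 => hw ?_
    simp only at h1 ⊢
    rw [h1, Nat.cast_zero]
  have s23 : (Function.support fun w : Place κ L => ((e : ℤ) + 1) * log (vmax w.1 X.x) +
      (e : ℤ) * (X.δ w : ℤ)).Finite := (s2.union s3).subset (Function.support_add _ _)
  have hmain := finsum_mono s1 ((s23.union s4).subset (Function.support_add _ _)) hloc
  rw [finsum_add_distrib s23 s4, finsum_add_distrib s2 s3] at hmain
  have e1 : ∑ᶠ w : Place κ L, log (pl w.1 a) = ht κ (X.Ux ⊔ RB X β) := by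
    rw [← ht_span h hai, has]
  have e2 : ∑ᶠ w : Place κ L, ((e : ℤ) + 1) * log (vmax w.1 X.x) =
      ((e : ℤ) + 1) * height κ X.x := (mul_finsum _ _).symm
  have e3 : ∑ᶠ w : Place κ L, (e : ℤ) * (X.δ w : ℤ) = (e : ℤ) * X.Δ := (mul_finsum _ _).symm
  have e4 : ∑ᶠ w : Place κ L, (X.ρ w : ℤ) = X.R := rfl
  rw [e1, e2, e3, e4] at hmain
  have h1 := h.height_nonneg X.x_ne_zero
  have h2 := X.Δ_nonneg
  have h3 : (e : ℤ) ≤ r := by exact_mod_cast hen
  nlinarith [mul_le_mul_of_nonneg_right h3 h1, mul_le_mul_of_nonneg_right h3 h2]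

variable {b : ℕ} {A : L[X][X]} (hA : CrvG X b A)

include hA in
/-- **The height of the space of the rows in terms of its dimension.** -/
theorem ht_VJB_le (h : IsFF κ L) {J : Finset (Fin (n + 1))} {γ : Type*} [Finite γ] {β : γ → L}
    (hβ : ∀ t, ∀ w : Place κ L, w.1 (β t) ≤ 1) {N : ℕ}
    (hN : finrank L (X.VJ J b A ⊔ RB X β : Submodule L (M3 d → L)) ≤ N) :
    ht κ (X.VJ J b A ⊔ RB X β) ≤ N * (4 * gh κ A + 3 * X.Δ) + 2 * height κ X.x + X.R := by
  have := Fintype.ofFinite γ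
  have hA0 : A ≠ 0 := hA.irr.ne_zero
  have hα : 0 ≤ gh κ A := gh_nonneg h hA0
  have hΔ := X.Δ_nonneg
  have hH : 0 ≤ height κ X.x := h.height_nonneg X.x_ne_zero
  have s0 := gg_support h hA0
  have s1 : (Function.support fun w : Place κ L => 2 * log (gg w.1 A)).Finite := by
    refine s0.subset fun w hw h1 => hw ?_
    simp only at h1 ⊢
    rw [h1, mul_zero]
  have s2 : (Function.support fun w : Place κ L => (X.δ w : ℤ)).Finite := by
    refine X.hδ.subset fun w hw h1 => hw ?_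
    simp only at h1 ⊢
    rw [h1, Nat.cast_zero]
  have hlog : ∀ w : Place κ L, 0 ≤ log (gg w.1 A) := by
    intro w
    rw [le_log_iff_exp_le ((gg_eq_zero w.1).not.2 hA0), exp_zero]
    exact one_le_gg hA.one w
  have hlogx : ∀ w : Place κ L, 0 ≤ log (vmax w.1 X.x) := by
    intro w
    have hv : vmax w.1 X.x ≠ 0 := by
      rw [Ne, vmax_eq_zero_iff]
      exact X.x_ne_zero
    rw [le_log_iff_exp_le hv, exp_zero]
    exact X.one_le_vmax w
  let ex : (Option ↥J × Fin (b + 1) × Fin (b + 1)) ⊕ γ → L := Sum.elim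
    (fun t => ((t.1.elim A (fun k => X.B A k.1)).coeff t.2.1).coeff t.2.2) β
  have hV : X.VJ J b A ⊔ RB X β = Submodule.span L (Set.range
      fun t : Option ((Option ↥J × Fin (b + 1) × Fin (b + 1)) ⊕ γ) =>
        X.row (t.elim X.y₁ ex)) := by
    rw [Submodule.span_range_eq_iSup, iSup_option, iSup_sum]
    unfold DatG.VJ RB
    rw [Finset.sup_univ_eq_iSup, Submodule.span_range_eq_iSup]
    have hsup : ∀ a b c : Submodule L (M3 d → L), (a ⊔ b) ⊔ c = b ⊔ (a ⊔ c) := by
      intro a b c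
      rw [sup_comm a b, sup_assoc]
    exact hsup _ _ _
  have hmain := ht_span_row_le X h (fun t : Option ((Option ↥J ×
      Fin (b + 1) × Fin (b + 1)) ⊕ γ) => t.elim X.y₁ ex)
    (g := fun w => 2 * log (gg w.1 A) + (X.δ w : ℤ)) (g' := fun w => log (vmax w.1 X.x))
    ((s1.union s2).subset (Function.support_add _ _)) (h.vmax_support X.x_ne_zero)
    (fun w => by have := hlog w; positivity) hlogx (fun t w => ?_) (fun w => ?_) hV
  · have e1 : ∑ᶠ w : Place κ L, (2 * log (gg w.1 A) + (X.δ w : ℤ)) = 2 * gh κ A + X.Δ := by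
      rw [finsum_add_distrib s1 s2, ← mul_finsum]
      rfl
    have e2 : ∑ᶠ w : Place κ L, log (vmax w.1 X.x) = height κ X.x := rfl
    rw [e1, e2] at hmain
    have h1 : (finrank L (X.VJ J b A ⊔ RB X β : Submodule L (M3 d → L)) : ℤ) ≤ N := by
      exact_mod_cast hN
    have h2 := mul_le_mul_of_nonneg_right h1 (show 0 ≤ 4 * gh κ A + 3 * X.Δ by linarith)
    have h3 : (finrank L (X.VJ J b A ⊔ RB X β : Submodule L (M3 d → L)) : ℤ) *
        (2 * (2 * gh κ A + X.Δ) + X.Δ) =
        (finrank L (X.VJ J b A ⊔ RB X β : Submodule L (M3 d → L)) : ℤ) *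
          (4 * gh κ A + 3 * X.Δ) := by ring
    rw [h3] at hmain
    linarith
  · have ha0 : gg w.1 A ≠ 0 := (gg_eq_zero w.1).not.2 hA0
    have hexp : (exp (2 * log (gg w.1 A) + (X.δ w : ℤ)) : ℤᵐ⁰) = gg w.1 A ^ 2 * exp (X.δ w : ℤ) := by
      rw [exp_add, show (2 * log (gg w.1 A) : ℤ) = (2 : ℕ) • log (gg w.1 A) by simp, exp_nsmul,
        exp_log ha0]
    simp only [Option.elim_some]
    rw [hexp]
    have ha : 1 ≤ gg w.1 A := one_le_gg hA.one w
    have he : (1 : ℤᵐ⁰) ≤ exp (X.δ w : ℤ) := by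
      rw [← exp_zero, exp_le_exp]
      positivity
    rcases t with ⟨_ | k, i, j⟩ | t
    · refine (le_gg w.1 A i j).trans ?_
      calc gg w.1 A = gg w.1 A * 1 * 1 := by rw [mul_one, mul_one]
        _ ≤ gg w.1 A * gg w.1 A * exp (X.δ w : ℤ) :=
          mul_le_mul' (mul_le_mul' le_rfl ha) he
        _ = gg w.1 A ^ 2 * exp (X.δ w : ℤ) := by rw [sq]
    · exact (le_gg w.1 (X.B A k.1) i j).trans (X.B_le hA k.1 w)
    · refine (hβ t w).trans ?_
      calc (1 : ℤᵐ⁰) = 1 * 1 := (mul_one _).symm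
        _ ≤ gg w.1 A ^ 2 * exp (X.δ w : ℤ) := mul_le_mul' (one_le_pow₀ ha) he
  · have hv : vmax w.1 X.x ≠ 0 := by
      rw [Ne, vmax_eq_zero_iff]
      exact X.x_ne_zero
    simp only [Option.elim_none]
    rw [exp_log hv, X.vmax_x w]
    exact le_max_right _ _

include hA in
/-- the height of the span of the rows of the coefficients and of the further elements -/
theorem ht_RCB_le (h : IsFF κ L) (J : Finset (Fin (n + 1))) {γ : Type*} [Finite γ] {β : γ → L}
    (hβ : ∀ t, ∀ w : Place κ L, w.1 (β t) ≤ 1) :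
    ht κ (RC X J b A ⊔ RB X β) ≤ finrank L (RC X J b A ⊔ RB X β : Submodule L (M3 d → L)) *
      (4 * gh κ A + 3 * X.Δ) + X.R := by
  have := Fintype.ofFinite γ
  have hA0 : A ≠ 0 := hA.irr.ne_zero
  have s0 := gg_support h hA0
  have s1 : (Function.support fun w : Place κ L => 2 * log (gg w.1 A)).Finite := by
    refine s0.subset fun w hw h1 => hw ?_
    simp only at h1 ⊢
    rw [h1, mul_zero]
  have s2 : (Function.support fun w : Place κ L => (X.δ w : ℤ)).Finite := by
    refine X.hδ.subset fun w hw h1 => hw ?_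
    simp only at h1 ⊢
    rw [h1, Nat.cast_zero]
  have s3 : (Function.support fun _ : Place κ L => (0 : ℤ)).Finite := by
    have : (Function.support fun _ : Place κ L => (0 : ℤ)) = ∅ := by
      ext w
      simp
    rw [this]
    exact Set.finite_empty
  have hlog : ∀ w : Place κ L, 0 ≤ log (gg w.1 A) := by
    intro w
    rw [le_log_iff_exp_le ((gg_eq_zero w.1).not.2 hA0), exp_zero]
    exact one_le_gg hA.one w
  have hrow1 : X.row 1 = 0 := by
    have := X.row_natCast 1
    rwa [Nat.cast_one] at this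
  let ex : (Option ↥J × Fin (b + 1) × Fin (b + 1)) ⊕ γ → L := Sum.elim
    (fun t => ((t.1.elim A (fun k => X.B A k.1)).coeff t.2.1).coeff t.2.2) β
  have hV : RC X J b A ⊔ RB X β = Submodule.span L (Set.range
      fun t : Option ((Option ↥J × Fin (b + 1) × Fin (b + 1)) ⊕ γ) => X.row (t.elim 1 ex)) := by
    rw [Submodule.span_range_eq_iSup, iSup_option, iSup_sum]
    unfold RC RB
    rw [Finset.sup_univ_eq_iSup, Submodule.span_range_eq_iSup]
    simp only [Option.elim_none, Option.elim_some, hrow1, Submodule.span_zero_singleton,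
      bot_sup_eq]
    rfl
  have hmain := ht_span_row_le X h (fun t : Option ((Option ↥J ×
      Fin (b + 1) × Fin (b + 1)) ⊕ γ) => t.elim 1 ex)
    (g := fun w => 2 * log (gg w.1 A) + (X.δ w : ℤ)) (g' := fun _ => 0)
    ((s1.union s2).subset (Function.support_add _ _)) s3
    (fun w => by have := hlog w; positivity) (fun _ => le_rfl) (fun t w => ?_) (fun w => ?_) hV
  · have e1 : ∑ᶠ w : Place κ L, (2 * log (gg w.1 A) + (X.δ w : ℤ)) = 2 * gh κ A + X.Δ := by
      rw [finsum_add_distrib s1 s2, ← mul_finsum]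
      rfl
    rw [e1, finsum_zero, mul_zero, add_zero] at hmain
    refine hmain.trans (le_of_eq ?_)
    ring
  · have ha0 : gg w.1 A ≠ 0 := (gg_eq_zero w.1).not.2 hA0
    have hexp : (exp (2 * log (gg w.1 A) + (X.δ w : ℤ)) : ℤᵐ⁰) =
        gg w.1 A ^ 2 * exp (X.δ w : ℤ) := by
      rw [exp_add, show (2 * log (gg w.1 A) : ℤ) = (2 : ℕ) • log (gg w.1 A) by simp, exp_nsmul,
        exp_log ha0]
    simp only [Option.elim_some]
    rw [hexp]
    have ha : 1 ≤ gg w.1 A := one_le_gg hA.one w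
    have he : (1 : ℤᵐ⁰) ≤ exp (X.δ w : ℤ) := by
      rw [← exp_zero, exp_le_exp]
      positivity
    rcases t with ⟨_ | k, i, j⟩ | t
    · refine (le_gg w.1 A i j).trans ?_
      calc gg w.1 A = gg w.1 A * 1 * 1 := by rw [mul_one, mul_one]
        _ ≤ gg w.1 A * gg w.1 A * exp (X.δ w : ℤ) :=
          mul_le_mul' (mul_le_mul' le_rfl ha) he
        _ = gg w.1 A ^ 2 * exp (X.δ w : ℤ) := by rw [sq]
    · exact (le_gg w.1 (X.B A k.1) i j).trans (X.B_le hA k.1 w)
    · refine (hβ t w).trans ?_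
      calc (1 : ℤᵐ⁰) = 1 * 1 := (mul_one _).symm
        _ ≤ gg w.1 A ^ 2 * exp (X.δ w : ℤ) := mul_le_mul' (one_le_pow₀ ha) he
  · simp only [Option.elim_none, map_one, exp_zero, le_refl]

end

end Pool.Agent.Lib.MP_44a246_ntD
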