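import Mathlib
import Pool.Agent.Lib.MP_44a246_ntZ.Z10
import Pool.Agent.Lib.MP_44a246_ntD.D03

/-!
The height of the curve is bounded by the poles of the derivations, with the rows of further
elements.
-/

namespace Pool.Agent.Lib.MP_44a246_ntD

open Pool.Agent.Lib.MP_44a246_nt
open Pool.Agent.Lib.MP_44a246_ntL
open Pool.Agent.Lib.MP_44a246_ntS
open Pool.Agent.Lib.MP_44a246_ntX
open Pool.Agent.Lib.MP_44a246_ntW
open Pool.Agent.Lib.MP_44a246_ntG
open Pool.Agent.Lib.MP_e52354_nt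
open WithZero Module Polynomial
open Pool.Agent.Lib.MP_44a246_ntZ

variable {κ L : Type*} [Field κ] [IsAlgClosed κ] [CharZero κ] [Field L] [Algebra κ L]

/-- **The height of the curve is bounded by the poles of the derivations.** -/
theorem gh_le_B2B [CharZero L] (h : IsFF κ L) {n d T r r₀ s : ℕ} (hT : 1 ≤ T)
    (hT2 : 2000 * T ^ 2 ≤ d) (hN : 2 * r + 8500 * T ^ 2 + T * (r + 2) ≤ T * d) (hs3 : 3 ≤ s)
    (hq : 2500 * (T * s) ≤ d) (X : DatG κ (L := L) n d) {A : L[X][X]} (hCA : CrvG X (2 * T) A)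
    (hmon : A.leadingCoeff.Monic) {γ : Type*} [Fintype γ] {β : γ → L}
    (hβ : ∀ t, ∀ w : Place κ L, w.1 (β t) ≤ 1)
    (hr₀ : finrank L X.Ux ≤ r₀) (hrr : r₀ + Fintype.card γ ≤ r)
    (hv0 : X.row X.v ∈ X.Ux ⊔ RB X β) {E : ℤ}
    (hv : ∀ {J : Finset (Fin (n + 1))} {N : ℕ},
      finrank L (X.VJ J (2 * T) A ⊔ RB X β : Submodule L (M3 d → L)) ≤ N →
      ht κ (X.VJ J (2 * T) A ⊔ RB X β) ≤
        N * (4 * gh κ A + 3 * X.Δ) + (s - 1) * height κ X.x + E)
    (hE : X.Δ ≤ E) (hbig : 27 * (d : ℤ) ^ 2 * E < height κ X.x)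
    (hα : 5 * (gh κ A * ((d / 8 : ℕ) : ℤ) ^ 2) ≤ 16 * ((s : ℤ) * height κ X.x)) :
    (d : ℤ) ^ 2 * gh κ A ≤ (d : ℤ) ^ 2 * X.Δ + 3 * X.R := by
  have hΔ := X.Δ_nonneg
  have hR := X.R_nonneg
  have hE0 : 0 ≤ E := hΔ.trans hE
  have hpos : 0 < height κ X.x :=
    lt_of_le_of_lt (mul_nonneg (by positivity) hE0) hbig
  have hα0 : 0 ≤ gh κ A := gh_nonneg h hCA.irr.ne_zero
  obtain ⟨n1, n2, n3⟩ := numW1 hT hT2 hN
  obtain ⟨m1, m2⟩ := numZ hT hT2 hN hs3 hq hpos hΔ hE hα0 hα hbig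
  obtain ⟨J, hJc, hJ⟩ := exists_J X
  have hJr : J.card + Fintype.card γ ≤ r := by
    rw [hJc]
    omega
  have hT1 : (1 : ℤ) ≤ T := by exact_mod_cast hT
  have hdT : 8500 * (T : ℤ) + 2 ≤ d := by
    have : 8500 * T + 2 ≤ d := by omega
    exact_mod_cast this
  -- the span condition
  have hspan : 9 * ((2 * T : ℕ) : ℤ) * gh κ A + 3 * ((2 * T : ℕ) : ℤ) * X.Δ < height κ X.x := by
    push_cast
    have h1 : 8500 * ((T : ℤ) * gh κ A) ≤ d * gh κ A := by
      have := mul_le_mul_of_nonneg_right (show 8500 * (T : ℤ) ≤ d by linarith) hα0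
      linarith
    have h2 : (T : ℤ) * X.Δ ≤ (d : ℤ) ^ 2 * E := by
      have h3 : (T : ℤ) ≤ (d : ℤ) ^ 2 := by nlinarith
      exact mul_le_mul h3 hE hΔ (by positivity)
    nlinarith
  have hVJ := finrank_VJ_span h X J hCA hmon hspan
  have hfin : finrank L (X.VJ J (2 * T) A ⊔ RB X β : Submodule L (M3 d → L)) ≤ NN r T := by
    have h1 := Submodule.finrank_add_le_finrank_add_finrank (X.VJ J (2 * T) A) (RB X β)
    have h2 : finrank L (RB X β) ≤ Fintype.card γ := finrank_range_le_card _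
    have h4 : 2 * (2 * T) * (J.card + Fintype.card γ) ≤ 2 * (2 * T) * r :=
      Nat.mul_le_mul_left _ hJr
    have h6 : 2 * (2 * T) * (J.card + Fintype.card γ) =
        2 * (2 * T) * J.card + 2 * (2 * T) * Fintype.card γ := by ring
    have h7 : Fintype.card γ ≤ 2 * (2 * T) * Fintype.card γ := Nat.le_mul_of_pos_left _ (by omega)
    have h5 : NN r T = (2 * (2 * T) + 1) * (2 * T + 1) ^ 2 + (2 * (2 * T) * r + 2 * (2 * T)) + 1 := by
      unfold NN
      ring
    omega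
  have hRC : finrank L (RC X J (2 * T) A ⊔ RB X β : Submodule L (M3 d → L)) ≤ NN r T :=
    (Submodule.finrank_mono (by rw [VJ_eq]; exact sup_le_sup_right le_sup_left _)).trans hfin
  -- the small space
  set R' : Submodule L (M3 d → L) := Submodule.span L {X.row X.y₁} with hR'
  have hsup : (RC X J (2 * T) A ⊔ RB X β) ⊔ R' = X.VJ J (2 * T) A ⊔ RB X β := by
    rw [hR', VJ_eq, sup_assoc, sup_comm (RB X β), ← sup_assoc]
  have hq2 : finrank L R' ≤ 2 := by
    have h3 := finrank_span_le_card (R := L) ({X.row X.y₁} : Set (M3 d → L))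
    have h4 : finrank L R' ≤ 1 := by simpa using h3
    omega
  have hht : ht κ ((RC X J (2 * T) A ⊔ RB X β) ⊔ R') ≤ (s + 1 : ℕ) * height κ X.x := by
    rw [hsup]
    have h1 := hv hfin
    push_cast
    linarith
  have hhp : height κ ![1, X.y₁, X.y] = height κ X.x := X.height_p
  have hTs : T ≤ T * s := Nat.le_mul_of_pos_right _ (by omega)
  have hTs3 : 3 * T ≤ T * s := by
    calc 3 * T = T * 3 := mul_comm _ _
      _ ≤ T * s := Nat.mul_le_mul_left _ hs3
  have key := gh_mul_le (b := 2 * T) (c := s + 1) (q := 2) (w := 24 * (T * s)) (d := d) h hCA.irr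
    hCA.box hCA.deg hCA.zero (by rw [hhp]; exact hpos) (by rw [hhp]; exact m1)
    (by rw [hsup]; exact xi_mem_VJB X hCA hJ hv0) hq2 (by rw [hhp]; exact hht)
    (by
      have : 8 * (2 * T) * (s + 1) = 16 * (T * s) + 16 * T := by ring
      omega) (by omega)
  have hle := key.trans (ht_RCB_le X hCA h J hβ)
  -- the number of the monomials
  have hcard' : 25 * ((NN r T : ℕ) : ℤ) + 2 * (d : ℤ) ^ 2 ≤
      5 * (Fintype.card (M3 (d - 24 * (T * s))) : ℤ) := by
    exact_mod_cast numCard hq n1 n2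
  have hRC' : (finrank L (RC X J (2 * T) A ⊔ RB X β : Submodule L (M3 d → L)) : ℤ) ≤
      ((NN r T : ℕ) : ℤ) := by exact_mod_cast hRC
  have hn2 : 10 * ((NN r T : ℕ) : ℤ) ≤ 41 * (T * d) := by exact_mod_cast n2
  exact numFin hT1 hdT hn2 hα0 hΔ hR hRC' hcard' hle

end Pool.Agent.Lib.MP_44a246_ntD
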