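import Mathlib
import Pool.Agent.Lib.MP_44a246_ntZ.Z12
import Pool.Agent.Lib.MP_44a246_ntU.U12
import Pool.Agent.Lib.MP_44a246_ntU.U14
import Pool.Agent.Lib.MP_44a246_ntU.U20
import Pool.Agent.Lib.MP_44a246_ntU.U21
import Pool.Agent.Lib.MP_44a246_ntU.U22
import Pool.Agent.Lib.MP_44a246_ntU.U23
import Pool.Agent.Lib.MP_44a246_ntX.XR3
import Pool.Agent.Lib.MP_44a246_ntV.VSetup
import Pool.Agent.Lib.MP_44a246_ntQ.Q11
import Pool.Agent.Lib.MP_44a246_ntD.D05
import Pool.Agent.Lib.MP_44a246_ntD.D14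

/-!
The height theorem over the base field, for hypersurface sections of arbitrary varieties.
-/

namespace Pool.Agent.Lib.MP_44a246_ntD

open Pool.Agent.Lib.MP_44a246_ntQ
open Pool.Agent.Lib.MP_44a246_nt
open Pool.Agent.Lib.MP_44a246_ntL
open Pool.Agent.Lib.MP_44a246_ntV
open Pool.Agent.Lib.MP_44a246_ntS
open Pool.Agent.Lib.MP_44a246_ntX
open Pool.Agent.Lib.MP_44a246_ntG
open Pool.Agent.Lib.MP_44a246_ntU
open Pool.Agent.Lib.MP_44a246_ntZ
open Pool.Agent.Lib.MP_e52354_nt
open WithZero Module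

universe u v w

/-- **The height theorem over the base field**, for the points of the section `t = H (x)` of a
variety in `P (d, 1, ..., 1)` defined over a subfield `k` of finite transcendence degree. -/
theorem heightC_base {κ : Type u} {K : Type v} [Field κ] [IsAlgClosed κ] [CharZero κ] [Field K]
    [CharZero K] [Algebra κ K] (hK : IsFF κ K) (htr : Cardinal.aleph0 ≤ Algebra.trdeg ℚ κ)
    {k : Type*} [Field k] [CharZero k] [Algebra k K]
    (hk : Algebra.trdeg ℚ k < Cardinal.aleph0) {n d T r₀ r q M : ℕ} (hT : 1 ≤ T)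
    (hT2 : 2000 * T ^ 2 ≤ d) (hq : 2500 * (T * (q + 3)) ≤ d)
    (hN : 2 * r + 8500 * T ^ 2 + T * (r + 2 + q) ≤ T * d)
    {ι : Type*} [Finite ι] {e : ι → ℕ}
    (he : ∀ i, 2000 * ((q + 3) * (T * e i)) ≤ d ^ 2 ∨ e i ≤ M)
    {f : ι → MvPolynomial (Fin (n + 2)) k}
    (hf : ∀ i, (f i).IsWeightedHomogeneous (wt (n + 1) d) (e i))
    (hdim : ringKrullDim (MvPolynomial (Fin (n + 2)) k ⧸ Ideal.span (Set.range f)) ≤
      ((r₀ + 1 : ℕ) : ℕ))
    {a : (Fin (n + 1) →₀ ℕ) → K} {P : Finset (Fin (n + 1) →₀ ℕ)} (hrr : r₀ + P.card ≤ r)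
    (ha : AlgebraicIndependent k (fun I : {I // I ∈ expo (Fin (n + 1)) d ∧ I ∉ P} => a I.1)) :
    ∃ C : ℕ, ∀ (L : Type w) [Field L] [Algebra K L] [FiniteDimensional K L] [Algebra κ L]
      [IsScalarTower κ K L] [Algebra k L] [IsScalarTower k K L] (x : Fin (n + 1) → L), x ≠ 0 →
      (∀ i, Fval (e i) (aW d (fun I => algebraMap K L (a I)) f i) x = 0) → NDeg f x →
      q * height κ x ≤ ramDeg κ L K ∨
        (d : ℤ) ^ 2 * height κ x ≤ C * finrank K L + 18 * T * M * ramDeg κ L K ∨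
        CertV e (aW d (fun I => algebraMap K L (a I)) f) (2 * T) x := by
  classical
  have := Fintype.ofFinite ι
  obtain ⟨b, hb0, hb⟩ := exists_modif (κ := κ) htr hk (expo (Fin (n + 1)) d) P ha
  obtain ⟨X, hXa, hXk⟩ := Pool.Agent.Lib.MP_44a246_ntU.exists_baseV hK htr hk
    (a := fun I => a I + algebraMap κ K (b I)) hb
  -- the poles of the coefficients
  let θ : Type _ := (Σ i : ι, ↥(expo (Fin (n + 1)) (e i)))
  obtain ⟨A, hAs, hA⟩ := Pool.Agent.Lib.MP_44a246_ntV.exists_polesA hK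
    (fun t : θ => aW d a f t.1 t.2.1)
  refine ⟨d ^ 2 * ((27 * d ^ 2 + 8 * T * M) * ((∑ᶠ v, X.B v) + ∑ᶠ v, A v)), ?_⟩
  intro L _ _ _ _ _ _ _ x hx hfx hne
  have hL : IsFF κ L := hK.of_finite
  have hchar : CharZero L := charZero_of_injective_algebraMap (algebraMap K L).injective
  obtain ⟨Y, c, hc, hYa, hYx, hYδ, hYρ, hYD⟩ := exists_datG X hK hx
  obtain ⟨hA1, hA2⟩ := mason_sum_over hL hAs
  obtain ⟨hB1, hB2⟩ := mason_sum_over hL X.hB
  have hτ : (Function.support fun w : Place κ L => ramIdx K w.1 * A (below K w)).Finite := by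
    refine hA1.subset fun w hw h0 => hw ?_
    exact Int.natCast_eq_zero.1 h0
  have hfx' : ∀ i, Fval (e i) (aW d (fun I => algebraMap K L (a I)) f i) Y.x = 0 := by
    intro i
    rw [hYx, Fval_smul, hfx i, mul_zero]
  set η : L := Fval d (fun I => algebraMap K L (a I)) Y.x with hη
  have hzero : ∀ i, MvPolynomial.aeval (Fin.cons η Y.x : Fin (n + 2) → L) (f i) = 0 := by
    intro i
    rw [← hfx' i, Fval_aW' hf]
  have hDk : ∀ I ∈ expo (Fin (n + 1)) d, ∀ u : k, Y.D I (algebraMap k L u) = 0 := by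
    intro I hI u
    rw [IsScalarTower.algebraMap_apply k K L, hYD, hXk I hI u, map_zero]
  have hneY : NDeg f Y.x := by
    rw [hYx]
    exact hne.smul hf hc
  have hv : Y.v = η + Fval d (fun I => algebraMap κ L (b I)) Y.x := by
    show Fval d Y.a Y.x = _
    rw [hη, hYa, hXa]
    unfold Fval
    rw [← Finset.sum_add_distrib]
    refine Finset.sum_congr rfl fun I _ => ?_
    show algebraMap K L (a I + algebraMap κ K (b I)) * mon Y.x I =
      algebraMap K L (a I) * mon Y.x I + algebraMap κ L (b I) * mon Y.x I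
    rw [map_add, add_mul, ← IsScalarTower.algebraMap_apply κ K L]
  have hrow : Y.row Y.v ∈ Y.Ux ⊔ RB Y (fun K : ↥P => algebraMap κ L (b K.1)) := by
    rw [hv, Y.row_add]
    refine Submodule.add_mem _ (Submodule.mem_sup_left (row_mem_UxW Y hDk hf hzero hneY)) ?_
    exact row_Fval_mem Y (b := fun I => algebraMap κ L (b I)) fun I hI => by
      rw [hb0 I hI, map_zero]
  have hmain := height_C hL hT hT2 hq hN Y
    (β := fun K : ↥P => algebraMap κ L (b K.1)) (fun K w => place_const_le w _) hrow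
    (finrank_Ux_leW Y hDk hf hdim hzero) (by rwa [Fintype.card_coe]) hτ (e := e) (M := M)
    (a := aW d (fun I => algebraMap K L (a I)) f) he (by
      intro i I hI w
      have h1 : aW d (fun I => algebraMap K L (a I)) f i I = algebraMap K L (aW d a f i I) :=
        (map_aW d a (algebraMap K L) (fun u =>
          (IsScalarTower.algebraMap_apply k K L u).symm) f i I).symm
      rw [h1]
      exact coef_le A (fun v => hA ⟨i, ⟨I, hI⟩⟩ v) w) hfx'
  have h1 : height κ Y.x = height κ x := by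
    rw [hYx]
    exact hL.height_smul hc
  have h2 : Y.Δ = ((∑ᶠ v, X.B v : ℕ) : ℤ) * Module.finrank K L := by
    unfold DatG.Δ
    rw [hYδ, ← hB2]
  have h3 : Y.R = ramDeg κ L K := by
    unfold DatG.R
    rw [hYρ]
    exact (mason_sum_ram (K := K) hL).2
  rcases hmain with h | h | h
  · left
    rwa [h1, h3] at h
  · right; left
    rw [h1, h2, h3, hA2] at h
    refine h.trans (le_of_eq ?_)
    push_cast
    ring
  · right; right
    rw [hYx] at h
    exact (certV_smul hc).1 h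

end Pool.Agent.Lib.MP_44a246_ntD
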