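import Mathlib
import Pool.Agent.Lib.MP_e52354_ntK.KBasis

/-!
New constants: finitely many elements of a field of infinite transcendence degree which are
algebraically independent over a field of finite transcendence degree.
-/

namespace Pool.Agent.Lib.MP_44a246_ntD

open Pool.Agent.Lib.MP_e52354_ntK Algebra

universe u v w

/-- a field generated by finitely many elements over a field of finite transcendence degree -/
theorem trdeg_adjoin_lt {F : Type u} {K : Type v} [Field F] [CharZero F] [Field K] [CharZero K]
    [Algebra F K] (hF : Algebra.trdeg ℚ F < Cardinal.aleph0) {ι : Type*} [Finite ι] (f : ι → K) :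
    Algebra.trdeg ℚ (IntermediateField.adjoin F (Set.range f)) < Cardinal.aleph0 := by
  obtain ⟨J, -, -, hJ⟩ := exists_basis_family (k₀ := F) f
  have h1 : Algebra.trdeg F (IntermediateField.adjoin F (Set.range f)) < Cardinal.aleph0 := by
    rw [← hJ]
    exact Cardinal.natCast_lt_aleph0
  have h2 := lift_trdeg_add_eq ℚ F (IntermediateField.adjoin F (Set.range f))
  have h3 : Cardinal.lift.{u} (Algebra.trdeg ℚ (IntermediateField.adjoin F (Set.range f))) <
      Cardinal.aleph0 := by
    rw [← h2]
    exact Cardinal.add_lt_aleph0 (by rwa [Cardinal.lift_lt_aleph0])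
      (by rwa [Cardinal.lift_lt_aleph0])
  rwa [Cardinal.lift_lt_aleph0] at h3

/-- a constant which is transcendental over a field of finite transcendence degree -/
theorem exists_const_trans {κ : Type u} {K : Type v} [Field κ] [CharZero κ] [Field K] [CharZero K]
    [Algebra κ K] (htr : Cardinal.aleph0 ≤ Algebra.trdeg ℚ κ) {F : Type w} [Field F] [CharZero F]
    [Algebra F K] (hF : Algebra.trdeg ℚ F < Cardinal.aleph0) :
    ∃ u : κ, Transcendental F (algebraMap κ K u) := by
  by_contra hcon
  have halg : ∀ u : κ, IsAlgebraic F (algebraMap κ K u) := by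
    intro u
    by_contra h
    exact hcon ⟨u, h⟩
  let g : κ →+* algebraicClosure F K := (algebraMap κ K).codRestrict
    (algebraicClosure F K).toSubring fun u => by
      show algebraMap κ K u ∈ algebraicClosure F K
      rw [mem_algebraicClosure_iff]
      exact halg u
  have h1 : Cardinal.lift.{v} (Algebra.trdeg ℚ κ) ≤
      Cardinal.lift.{u} (Algebra.trdeg ℚ (algebraicClosure F K)) :=
    lift_trdeg_le_of_injective g.toRatAlgHom g.injective
  have h2 := lift_trdeg_add_eq ℚ F (algebraicClosure F K)
  have h3 : Algebra.trdeg F (algebraicClosure F K) = 0 := trdeg_eq_zero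
  rw [h3, Cardinal.lift_zero, add_zero] at h2
  have h4 : Algebra.trdeg ℚ (algebraicClosure F K) < Cardinal.aleph0 := by
    have h5 : Cardinal.lift.{w} (Algebra.trdeg ℚ (algebraicClosure F K)) < Cardinal.aleph0 := by
      rw [← h2, Cardinal.lift_lt_aleph0]
      exact hF
    rwa [Cardinal.lift_lt_aleph0] at h5
  have h5 : Cardinal.aleph0 ≤ Cardinal.lift.{v} (Algebra.trdeg ℚ κ) := by
    rwa [Cardinal.aleph0_le_lift]
  have h6 : Cardinal.lift.{u} (Algebra.trdeg ℚ (algebraicClosure F K)) < Cardinal.aleph0 := by
    rwa [Cardinal.lift_lt_aleph0]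
  exact absurd (h5.trans h1) (not_le.2 h6)

/-- **New constants** -/
theorem exists_const_indep {κ : Type u} {K : Type v} [Field κ] [CharZero κ] [Field K] [CharZero K]
    [Algebra κ K] (htr : Cardinal.aleph0 ≤ Algebra.trdeg ℚ κ) {F : Type w} [Field F] [CharZero F]
    [Algebra F K] (hF : Algebra.trdeg ℚ F < Cardinal.aleph0) (θ : Type*) [Finite θ] :
    ∃ b : θ → κ, AlgebraicIndependent F (fun t => algebraMap κ K (b t)) := by
  induction θ using Finite.induction_empty_option with
  | of_equiv e ih =>
    obtain ⟨b, hb⟩ := ih
    exact ⟨b ∘ e.symm, hb.comp e.symm e.symm.injective⟩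
  | h_empty =>
    refine ⟨fun t => t.elim, ?_⟩
    rw [algebraicIndependent_empty_type_iff]
    exact (algebraMap F K).injective
  | h_option ih =>
    obtain ⟨b, hb⟩ := ih
    obtain ⟨u, hu⟩ := exists_const_trans (κ := κ) (K := K) htr
      (trdeg_adjoin_lt (K := K) hF fun t => algebraMap κ K (b t))
    set F₁ := IntermediateField.adjoin F (Set.range fun t => algebraMap κ K (b t)) with hF₁
    have h1 : AlgebraicIndependent F₁ (fun _ : Unit => algebraMap κ K u) := by
      rw [algebraicIndependent_unique_type_iff]
      exact hu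
    have h2 : AlgebraicIndependent F (fun t => (⟨algebraMap κ K (b t),
        IntermediateField.subset_adjoin F _ ⟨t, rfl⟩⟩ : F₁)) :=
      AlgebraicIndependent.of_comp F₁.val hb
    have h3 : AlgebraicIndependent F (Sum.elim (fun _ : Unit => algebraMap κ K u)
        (algebraMap F₁ K ∘ fun t => (⟨algebraMap κ K (b t),
        IntermediateField.subset_adjoin F _ ⟨t, rfl⟩⟩ : F₁))) := h2.sumElim_comp h1
    refine ⟨fun o => o.elim u b, ?_⟩
    have h4 := h3.comp (fun o : Option _ => o.elim (Sum.inl ()) Sum.inr) (by
      rintro (_ | t) (_ | t') h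
      · rfl
      · simp at h
      · simp at h
      · simp only [Option.elim_some, Sum.inr.injEq] at h
        rw [h])
    convert h4 using 1
    funext o
    rcases o with _ | t
    · rfl
    · rfl

/-- translation by elements of the base field -/
theorem algIndep_add {F K : Type*} [Field F] [Field K] [Algebra F K] {θ : Type*} {b : θ → K}
    (hb : AlgebraicIndependent F b) (c : θ → F) :
    AlgebraicIndependent F (fun t => algebraMap F K (c t) + b t) := by
  rw [algebraicIndependent_iff_injective_aeval] at hb ⊢
  let g : MvPolynomial θ F →ₐ[F] MvPolynomial θ F :=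
    MvPolynomial.aeval fun t => MvPolynomial.C (c t) + MvPolynomial.X t
  let g' : MvPolynomial θ F →ₐ[F] MvPolynomial θ F :=
    MvPolynomial.aeval fun t => MvPolynomial.X t - MvPolynomial.C (c t)
  have hg : g'.comp g = AlgHom.id F _ := by
    ext t
    simp only [g, g', AlgHom.comp_apply, MvPolynomial.aeval_X, map_add, MvPolynomial.algHom_C,
      AlgHom.id_apply, MvPolynomial.algebraMap_eq]
    rw [add_sub_cancel]
  have hg1 : Function.Injective g := by
    intro p q hpq
    have h1 := DFunLike.congr_fun hg p
    have h2 := DFunLike.congr_fun hg q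
    rw [AlgHom.comp_apply, AlgHom.id_apply] at h1 h2
    rw [← h1, ← h2, hpq]
  have h1 : MvPolynomial.aeval (fun t => algebraMap F K (c t) + b t) =
      (MvPolynomial.aeval b).comp g := by
    ext t
    simp only [g, AlgHom.comp_apply, MvPolynomial.aeval_X, map_add, MvPolynomial.aeval_C]
  rw [h1]
  exact hb.comp hg1

end Pool.Agent.Lib.MP_44a246_ntD
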