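import Mathlib
import Pool.Agent.Lib.MP_44a246_ntG.G12
import Pool.Agent.Lib.MP_44a246_ntG.G22
import Pool.Agent.Lib.MP_44a246_ntD.D01
import Pool.Agent.Lib.MP_44a246_ntD.D11

/-!
Modification of the coefficients of the form by new constants.
-/

namespace Pool.Agent.Lib.MP_44a246_ntD

open Pool.Agent.Lib.MP_44a246_nt
open Pool.Agent.Lib.MP_44a246_ntL
open Pool.Agent.Lib.MP_44a246_ntS
open Pool.Agent.Lib.MP_44a246_ntG
open Pool.Agent.Lib.MP_e52354_nt
open Module

universe u v w

/-- **Modification by new constants**: if the coefficients outside a finite set `P` are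
algebraically independent, then constants can be added to the coefficients in `P` such that all
are algebraically independent. -/
theorem exists_modif {κ : Type u} {K : Type v} [Field κ] [CharZero κ] [Field K] [CharZero K]
    [Algebra κ K] (htr : Cardinal.aleph0 ≤ Algebra.trdeg ℚ κ) {k : Type w} [Field k] [CharZero k]
    [Algebra k K] (hk : Algebra.trdeg ℚ k < Cardinal.aleph0) {σ : Type*} (E P : Finset σ)
    {a : σ → K} (ha : AlgebraicIndependent k (fun I : {I // I ∈ E ∧ I ∉ P} => a I.1)) :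
    ∃ b : σ → κ, (∀ I ∉ P, b I = 0) ∧
      AlgebraicIndependent k (fun I : ↥E => a I.1 + algebraMap κ K (b I.1)) := by
  classical
  set F : IntermediateField k K := IntermediateField.adjoin k (Set.range fun I : ↥E => a I.1) with hF
  have hFt : Algebra.trdeg ℚ F < Cardinal.aleph0 := trdeg_adjoin_lt hk _
  have hfinP : Finite {I // I ∈ E ∧ I ∈ P} :=
    Finite.of_injective (fun I => (⟨I.1, I.2.1⟩ : ↥E)) fun I J h => by
      simp only [Subtype.mk.injEq] at h
      exact Subtype.ext h
  obtain ⟨b₀, hb₀⟩ := exists_const_indep (K := K) htr hFt {I // I ∈ E ∧ I ∈ P}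
  have haF : ∀ I, I ∈ E → a I ∈ F := fun I hI =>
    IntermediateField.subset_adjoin k _ ⟨⟨I, hI⟩, rfl⟩
  have h1 : AlgebraicIndependent F (fun I : {I // I ∈ E ∧ I ∈ P} =>
      algebraMap F K ⟨a I.1, haF I.1 I.2.1⟩ + algebraMap κ K (b₀ I)) := algIndep_add hb₀ _
  have h2 : AlgebraicIndependent k (fun I : {I // I ∈ E ∧ I ∉ P} =>
      (⟨a I.1, haF I.1 I.2.1⟩ : F)) := AlgebraicIndependent.of_comp F.val ha
  have h3 : AlgebraicIndependent k (Sum.elim (fun I : {I // I ∈ E ∧ I ∈ P} =>
      algebraMap F K ⟨a I.1, haF I.1 I.2.1⟩ + algebraMap κ K (b₀ I))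
      (algebraMap F K ∘ fun I : {I // I ∈ E ∧ I ∉ P} => (⟨a I.1, haF I.1 I.2.1⟩ : F))) :=
    h2.sumElim_comp h1
  let g : ↥E → {I // I ∈ E ∧ I ∈ P} ⊕ {I // I ∈ E ∧ I ∉ P} := fun I =>
    if h : I.1 ∈ P then Sum.inl ⟨I.1, I.2, h⟩ else Sum.inr ⟨I.1, I.2, h⟩
  have hg : Function.Injective g := by
    intro I J h
    simp only [g] at h
    by_cases hI : I.1 ∈ P
    · by_cases hJ : J.1 ∈ P
      · rw [dif_pos hI, dif_pos hJ] at h
        simp only [Sum.inl.injEq, Subtype.mk.injEq] at h
        exact Subtype.ext h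
      · rw [dif_pos hI, dif_neg hJ] at h
        simp at h
    · by_cases hJ : J.1 ∈ P
      · rw [dif_neg hI, dif_pos hJ] at h
        simp at h
      · rw [dif_neg hI, dif_neg hJ] at h
        simp only [Sum.inr.injEq, Subtype.mk.injEq] at h
        exact Subtype.ext h
  refine ⟨fun I => if h : I ∈ E ∧ I ∈ P then b₀ ⟨I, h⟩ else 0, fun I hI => ?_, ?_⟩
  · exact dif_neg fun h => hI h.2
  · have h4 := h3.comp g hg
    convert h4 using 1
    funext I
    simp only [g, Function.comp_apply]
    by_cases hI : I.1 ∈ P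
    · rw [dif_pos ⟨I.2, hI⟩, dif_pos hI, Sum.elim_inl]
      rfl
    · rw [dif_neg (fun h => hI h.2), dif_neg hI, Sum.elim_inr, map_zero, add_zero]
      rfl

section

variable {κ L : Type*} [Field κ] [Field L] [Algebra κ L] {n d : ℕ} (X : DatG κ (L := L) n d)

/-- the elements with row in a given space -/
noncomputable def rowRing (V : Submodule L (M3 d → L)) : Subring L where
  carrier := {c | X.row c ∈ V}
  mul_mem' := fun {c c'} h h' => by
    show X.row (c * c') ∈ V
    rw [X.row_mul]
    exact V.add_mem (V.smul_mem _ h') (V.smul_mem _ h)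
  one_mem' := by
    show X.row 1 ∈ V
    rw [X.row_one]
    exact V.zero_mem
  add_mem' := fun {c c'} h h' => by
    show X.row (c + c') ∈ V
    rw [X.row_add]
    exact V.add_mem h h'
  zero_mem' := by
    show X.row 0 ∈ V
    rw [X.row_zero]
    exact V.zero_mem
  neg_mem' := fun {c} h => by
    show X.row (-c) ∈ V
    have h1 : X.row (-c) = - X.row c := by
      funext K
      exact map_neg (X.DK K) c
    rw [h1]
    exact V.neg_mem h

theorem mem_rowRing {V : Submodule L (M3 d → L)} {c : L} : c ∈ rowRing X V ↔ X.row c ∈ V :=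
  Iff.rfl

/-- the row of the value of a form with few coefficients -/
theorem row_Fval_mem {P : Finset (Fin (n + 1) →₀ ℕ)} {b : (Fin (n + 1) →₀ ℕ) → L}
    (hb : ∀ I ∉ P, b I = 0) :
    X.row (Fval d b X.x) ∈ X.Ux ⊔ RB X (fun K : ↥P => b K.1) := by
  classical
  rw [← mem_rowRing]
  unfold Fval mon
  refine Subring.sum_mem _ fun I _ => ?_
  by_cases hI : I ∈ P
  · refine Subring.mul_mem _ ?_ (Subring.prod_mem _ fun j _ => Subring.pow_mem _ ?_ _)
    · rw [mem_rowRing]
      exact Submodule.mem_sup_right (Submodule.subset_span ⟨⟨I, hI⟩, rfl⟩)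
    · rw [mem_rowRing]
      exact Submodule.mem_sup_left (Submodule.subset_span ⟨j, rfl⟩)
  · rw [hb I hI, zero_mul]
    exact Subring.zero_mem _

end

end Pool.Agent.Lib.MP_44a246_ntD
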