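import Mathlib
import Pool.Agent.Lib.MP_44a246_ntU.U07
import Pool.Agent.Lib.MP_44a246_ntU.U08
import Pool.Agent.Lib.MP_44a246_ntS.SP5c

/-!
A covering family of curves in a hypersurface section of a variety: the global inequality, for a
linear functional `g` which vanishes on the derivatives along the family and whose values at the
derivatives `W j` are the values of forms.
-/

namespace Pool.Agent.Lib.MP_44a246_ntD

open Pool.Agent.Lib.MP_44a246_ntU

open Pool.Agent.Lib.MP_e52354_nt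
open Pool.Agent.Lib.MP_44a246_nt
open Pool.Agent.Lib.MP_44a246_ntL
open Pool.Agent.Lib.MP_44a246_ntS
open WithZero Polynomial Module

section

variable {κ M : Type*} [Field κ] [IsAlgClosed κ] [CharZero κ] [Field M] [Algebra κ M]
  [Algebra κ[X] M] [IsScalarTower κ κ[X] M]
  [Algebra (RatFunc κ) M] [IsScalarTower κ[X] (RatFunc κ) M]
  [Algebra (Rinf κ) M] [IsScalarTower (Rinf κ) (RatFunc κ) M]
  [FiniteDimensional (RatFunc κ) M]

/-- **The global inequality.** -/
theorem wedge_globalC {m n : ℕ} (D : Derivation ℤ M M)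
    (hκ : ∀ u : κ, D (algebraMap κ M u) = 0) (hX : D (algebraMap κ[X] M X) = 1)
    (E : Fin m → Derivation ℤ M M)
    (hEκ : ∀ i, ∀ u : κ, ∃ u' : κ, E i (algebraMap κ M u) = algebraMap κ M u')
    (hEX : ∀ i, ∃ u : κ, E i (algebraMap κ[X] M X) = algebraMap κ M u)
    {θ : Type*} [Fintype θ] (W : θ → Derivation ℤ M M)
    (hWκ : ∀ I, ∀ u : κ, ∃ u' : κ, W I (algebraMap κ M u) = algebraMap κ M u')
    (hWX : ∀ I, ∃ u : κ, W I (algebraMap κ[X] M X) = algebraMap κ M u)
    {γ : Fin n → M} {g : Fin n → M} (hgγ : ∑ k, g k * γ k = 0) (hgD : ∑ k, g k * D (γ k) = 0)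
    (hgE : ∀ i, ∑ k, g k * E i (γ k) = 0) {Q : θ → M} (hQ : Q ≠ 0)
    (hWg : ∀ I, ∑ k, g k * W I (γ k) = -Q I)
    (hind : LinearIndependent M (Fin.cons γ (Fin.cons (fun k => D (γ k)) fun i k => E i (γ k)) :
      Fin (m + 2) → Fin n → M))
    {T : Submodule M (Fin n → M)} (hT : finrank M T ≤ m + 3) (hγT : γ ∈ T)
    (hDT : (fun k => D (γ k)) ∈ T) (hET : ∀ i, (fun k => E i (γ k)) ∈ T)
    (hWT : ∀ I, (fun k => W I (γ k)) ∈ T) :
    height κ Q ≤ (m + 3) * height κ γ + ramDeg κ M (RatFunc κ) := by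
  classical
  set A : Fin (m + 2) → Fin n → M :=
    Fin.cons γ (Fin.cons (fun k => D (γ k)) fun i k => E i (γ k)) with hA
  have hγ : γ ≠ 0 := hind.ne_zero 0
  have hvγ : ∀ w : Place κ M, vmax w.1 γ ≠ 0 := fun w h => hγ ((vmax_eq_zero_iff w.1).mp h)
  -- orthogonality
  have horth : ∀ i, ∑ k, g k * A i k = 0 := by
    intro i
    refine Fin.cases hgγ (fun i => Fin.cases hgD (fun i => hgE i) i) i
  have hAT : ∀ i, A i ∈ T := by
    intro i
    refine Fin.cases ?_ (fun i => ?_) i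
    · exact hγT
    · refine Fin.cases ?_ (fun i => ?_) i
      · exact hDT
      · exact hET i
  have hvQ : ∀ w : Place κ M, vmax w.1 Q ≠ 0 := fun w h => hQ ((vmax_eq_zero_iff w.1).mp h)
  obtain ⟨l₀, hl₀⟩ : ∃ l, Q l ≠ 0 := by
    by_contra hcon
    push Not at hcon
    exact hQ (funext hcon)
  obtain ⟨J, lam, hlam0, hlam⟩ := exists_minor hT hind hAT horth (hWT l₀) (by
      rw [hWg]
      exact neg_ne_zero.2 hl₀)
  have hAJ : (fun i k => A i (J k)) = (Fin.cons (fun k => γ (J k)) (Fin.cons (fun k => D (γ (J k)))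
      fun i k => E i (γ (J k))) : Fin (m + 2) → Fin (m + 3) → M) := by
    funext i
    refine Fin.cases ?_ (fun i => ?_) i
    · rfl
    · refine Fin.cases ?_ (fun i => ?_) i
      · rfl
      · rfl
  -- the local estimate
  have hloc : ∀ w : Place κ M, log (w.1 lam) + log (vmax w.1 Q) ≤
      ((m : ℤ) + 3) * log (vmax w.1 γ) + ((ramIdx (RatFunc κ) w.1 - 1 : ℕ) : ℤ) := by
    intro w
    obtain ⟨l, -, hlv, -⟩ := exists_vmax w.1 hQ
    have h1 := wedge_placeV w D hκ hX (W l) (hWκ _) (hWX _) E hEκ hEX hγ J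
    have h2 := hlam _ (hWT l)
    rw [hWg, hAJ] at h2
    rw [h2, map_mul, Valuation.map_neg, ← hlv] at h1
    have hl : w.1 lam ≠ 0 := (Valuation.ne_zero_iff w.1).mpr hlam0
    have h3 := (log_le_log (mul_ne_zero hl (hvQ w))
      (mul_ne_zero (pow_ne_zero _ (hvγ w)) exp_ne_zero)).mpr h1
    rw [log_mul hl (hvQ w), log_mul (pow_ne_zero _ (hvγ w)) exp_ne_zero,
      log_pow, log_exp, nsmul_eq_mul] at h3
    push_cast at h3 ⊢
    linarith
  -- summation
  have htow : IsScalarTower κ (RatFunc κ) M := by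
    refine IsScalarTower.of_algebraMap_eq fun c => ?_
    rw [IsScalarTower.algebraMap_apply κ κ[X] M, IsScalarTower.algebraMap_apply κ[X] (RatFunc κ) M,
      ← IsScalarTower.algebraMap_apply κ κ[X] (RatFunc κ)]
  let P : Finset (Place κ M) := (vmax_finite hγ).toFinset ∪ (place_finite hlam0).toFinset ∪
    (ramIdx_finite (κ := κ) (K := RatFunc κ) (L := M)).toFinset ∪ (vmax_finite hQ).toFinset
  have hP : ∀ v ∉ P, vmax v.1 γ = 1 ∧ v.1 lam = 1 ∧ ramIdx (RatFunc κ) v.1 = 1 ∧
      vmax v.1 Q = 1 := by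
    intro v hv
    simp only [P, Finset.mem_union, Set.Finite.mem_toFinset, not_or, Set.mem_ofPred_eq,
      not_not] at hv
    exact ⟨hv.1.1.1, hv.1.1.2, hv.1.2, hv.2⟩
  have hsum := Finset.sum_le_sum fun v (_ : v ∈ P) => hloc v
  simp only [Finset.sum_add_distrib, ← Finset.mul_sum] at hsum
  have e1 : ∑ v ∈ P, log (v.1 lam) = 0 := by
    rw [← product_formula (κ := κ) hlam0]
    symm
    refine finsum_eq_sum_of_support_subset _ fun v hv => ?_
    by_contra hvP
    apply hv
    simp only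
    rw [(hP v hvP).2.1, log_one]
  have e2 : ∑ v ∈ P, log (vmax v.1 γ) = height κ γ := by
    symm
    refine finsum_eq_sum_of_support_subset _ fun v hv => ?_
    by_contra hvP
    apply hv
    simp only
    rw [(hP v hvP).1, log_one]
  have e4 : ∑ v ∈ P, ((ramIdx (RatFunc κ) v.1 - 1 : ℕ) : ℤ) = (ramDeg κ M (RatFunc κ) : ℤ) := by
    rw [← Nat.cast_sum]
    congr 1
    symm
    refine finsum_eq_sum_of_support_subset _ fun v hv => ?_
    by_contra hvP
    apply hv
    simp only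
    rw [(hP v hvP).2.2.1, Nat.sub_self]
  have e5 : ∑ v ∈ P, log (vmax v.1 Q) = height κ Q := by
    symm
    refine finsum_eq_sum_of_support_subset _ fun v hv => ?_
    by_contra hvP
    apply hv
    simp only
    rw [(hP v hvP).2.2.2, log_one]
  rw [e1, e2, e4, e5, zero_add] at hsum
  exact hsum

end

end Pool.Agent.Lib.MP_44a246_ntD
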