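import Mathlib
import Pool.Agent.Lib.MP_44a246_ntL.LFF

/-!
The height of the values of a space of polynomials of small codimension.
-/

namespace Pool.Agent.Lib.MP_44a246_ntD

open Pool.Agent.Lib.MP_44a246_nt
open Pool.Agent.Lib.MP_44a246_ntL
open Pool.Agent.Lib.MP_e52354_nt
open WithZero Module Polynomial

/-- independent polynomials: the greatest common divisor -/
theorem exists_gcd_family {κ : Type*} [Field κ] {m : ℕ} (p : Fin (m + 1) → κ[X])
    (hli : LinearIndependent κ p) :
    ∃ (B : κ[X]) (q r : Fin (m + 1) → κ[X]) (j : Fin (m + 1)), B ≠ 0 ∧ (∀ i, p i = B * q i) ∧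
      ∑ i, r i * q i = 1 ∧ m ≤ (q j).natDegree := by
  classical
  obtain ⟨B, hB⟩ := (IsPrincipalIdealRing.principal (Ideal.span (Set.range p))).principal
  have hB' : Ideal.span (Set.range p) = Ideal.span {B} := hB
  have hdvd : ∀ i, ∃ q, p i = B * q := by
    intro i
    have h1 : p i ∈ Ideal.span {B} := by
      rw [← hB']
      exact Ideal.subset_span ⟨i, rfl⟩
    obtain ⟨q, hq⟩ := Ideal.mem_span_singleton.1 h1
    exact ⟨q, hq⟩
  choose q hq using hdvd
  have hB0 : B ≠ 0 := by
    rintro rfl
    apply hli.ne_zero 0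
    rw [hq, zero_mul]
  have hBmem : B ∈ Ideal.span (Set.range p) := by
    rw [hB']
    exact Ideal.subset_span rfl
  obtain ⟨r, hr⟩ := Ideal.mem_span_range_iff_exists_fun.1 hBmem
  have h1 : ∑ i, r i * q i = 1 := by
    have h2 : B * ∑ i, r i * q i = B * 1 := by
      rw [mul_one, Finset.mul_sum]
      conv_rhs => rw [← hr]
      refine Finset.sum_congr rfl fun i _ => ?_
      rw [hq i]
      ring
    exact mul_left_cancel₀ hB0 h2
  have hqli : LinearIndependent κ q := by
    refine LinearIndependent.of_comp (LinearMap.mulLeft κ B) ?_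
    have h3 : (LinearMap.mulLeft κ B : κ[X] → κ[X]) ∘ q = p := by
      funext i
      exact (hq i).symm
    rw [h3]
    exact hli
  obtain ⟨j, hj⟩ : ∃ j, m ≤ (q j).natDegree := by
    by_contra hcon
    push Not at hcon
    have hm : 0 < m := lt_of_le_of_lt (Nat.zero_le _) (hcon 0)
    have hmem : ∀ i, q i ∈ degreeLT κ m := by
      intro i
      rw [mem_degreeLT]
      exact lt_of_le_of_lt degree_le_natDegree (by exact_mod_cast hcon i)
    have h4 : LinearIndependent κ (fun i => (⟨q i, hmem i⟩ : degreeLT κ m)) :=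
      LinearIndependent.of_comp (degreeLT κ m).subtype (by exact hqli)
    have : Module.Finite κ (degreeLT κ m) := Module.Finite.equiv (degreeLTEquiv κ m).symm
    have h5 := h4.fintype_card_le_finrank
    rw [(degreeLTEquiv κ m).finrank_eq, Module.finrank_fintype_fun_eq_card, Fintype.card_fin,
      Fintype.card_fin] at h5
    omega
  exact ⟨B, q, r, j, hB0, hq, h1, hj⟩

/-- **The height of the values of independent polynomials.** -/
theorem height_family_ge {κ N : Type*} [Field κ] [IsAlgClosed κ] [CharZero κ] [Field N]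
    [Algebra κ N] (h : IsFF κ N) {t : N} (ht : Transcendental κ t) {m : ℕ}
    {p : Fin (m + 1) → κ[X]} (hli : LinearIndependent κ p) :
    (m : ℤ) * height κ ![1, t] ≤ height κ (fun i => aeval t (p i)) := by
  classical
  obtain ⟨B, q, r, j, hB0, hq, hr, hj⟩ := exists_gcd_family p hli
  have hC1 : ∀ (w : Place κ N) (a : κ), a ≠ 0 → w.1 (algebraMap κ N a) = 1 := fun w a ha =>
    w.2.2 _ ha
  have hsmall : ∀ (w : Place κ N), w.1 t ≤ 1 → ∀ ρ : Polynomial κ,
      w.1 (Polynomial.aeval t ρ) ≤ 1 := by
    intro w hw ρ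
    induction ρ using Polynomial.induction_on' with
    | add p q hp hq =>
      rw [map_add]
      exact (w.1.map_add _ _).trans (max_le hp hq)
    | monomial n a =>
      rw [Polynomial.aeval_monomial, map_mul, map_pow]
      exact _root_.mul_le_one' (place_const_le w a) (pow_le_one' hw n)
  have hbig : ∀ (w : Place κ N), 1 < w.1 t → ∀ p : Polynomial κ, p ≠ 0 →
      w.1 (Polynomial.aeval t p) = w.1 t ^ p.natDegree := by
    intro w hw p hp
    have h1 := p.as_sum_range_C_mul_X_pow
    rw [Finset.sum_range_succ] at h1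
    have hlead : w.1 (Polynomial.aeval t
        (Polynomial.C (p.coeff p.natDegree) * Polynomial.X ^ p.natDegree)) =
        w.1 t ^ p.natDegree := by
      rw [map_mul, map_pow, Polynomial.aeval_X, Polynomial.aeval_C, map_mul, map_pow,
        hC1 w _ (by rw [Polynomial.coeff_natDegree]; exact Polynomial.leadingCoeff_ne_zero.2 hp),
        one_mul]
    have hX0 : w.1 t ≠ 0 := (zero_lt_one.trans hw).ne'
    conv_lhs => rw [h1, map_add]
    rw [Valuation.map_add_eq_of_lt_right, hlead]
    rw [hlead, map_sum]
    refine w.1.map_sum_lt (pow_ne_zero _ hX0) fun i hi => ?_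
    rw [map_mul, map_pow, Polynomial.aeval_X, Polynomial.aeval_C, map_mul, map_pow]
    rw [Finset.mem_range] at hi
    calc w.1 (algebraMap κ N (p.coeff i)) * w.1 t ^ i
        ≤ 1 * w.1 t ^ i := mul_le_mul' (place_const_le w _) le_rfl
      _ = w.1 t ^ i := one_mul _
      _ < _ := pow_lt_pow_right₀ hw hi
  have hB1 : aeval t B ≠ 0 := fun h0 => ht ⟨B, hB0, h0⟩
  set Q : Fin (m + 1) → N := fun i => aeval t (q i) with hQ
  have hpQ : (fun i => aeval t (p i)) = fun i => aeval t B * Q i := by
    funext i
    rw [hq i, map_mul]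
  have hsum : ∑ i, aeval t (r i) * Q i = 1 := by
    have h1 := congrArg (aeval t) hr
    rw [map_sum, map_one] at h1
    rw [← h1]
    exact Finset.sum_congr rfl fun i _ => by rw [map_mul]
  have hQ0 : Q ≠ 0 := by
    intro h0
    rw [h0] at hsum
    simp at hsum
  have hloc : ∀ w : Place κ N, vmax w.1 ![1, t] ^ m ≤ vmax w.1 Q := by
    intro w
    rw [vmax_pair]
    rcases le_or_gt (w.1 t) 1 with hw | hw
    · rw [max_eq_left hw, one_pow]
      have h1 : w.1 (1 : N) ≤ vmax w.1 Q := by
        rw [← hsum]
        refine w.1.map_sum_le fun i _ => ?_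
        rw [map_mul]
        calc w.1 (aeval t (r i)) * w.1 (Q i) ≤ 1 * vmax w.1 Q :=
              mul_le_mul' (hsmall w hw _) (le_vmax w.1 Q i)
          _ = vmax w.1 Q := one_mul _
      rwa [map_one] at h1
    · rw [max_eq_right hw.le]
      rcases eq_or_ne (q j) 0 with h0 | h0
      · rw [h0, natDegree_zero] at hj
        have hm : m = 0 := by omega
        subst hm
        rw [pow_zero]
        obtain ⟨i, hi⟩ : ∃ i, q i ≠ 0 := by
          by_contra hcon
          push Not at hcon
          apply hQ0
          funext i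
          rw [hQ]
          simp only
          rw [hcon i, map_zero]
          rfl
        refine le_trans ?_ (le_vmax w.1 Q i)
        rw [hQ]
        simp only
        rw [hbig w hw _ hi]
        exact one_le_pow₀ hw.le
      · refine le_trans ?_ (le_vmax w.1 Q j)
        rw [hQ]
        simp only
        rw [hbig w hw _ h0]
        exact pow_le_pow_right₀ hw.le hj
  have hpair : (![1, t] : Fin 2 → N) ≠ 0 := by
    intro h0
    exact one_ne_zero (congrFun h0 0)
  rw [hpQ, h.height_smul hB1]
  unfold height
  rw [mul_finsum]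
  have s1 : (Function.support fun w : Place κ N => (m : ℤ) * log (vmax w.1 ![1, t])).Finite := by
    refine (h.vmax_support hpair).subset fun w hw h1 => hw ?_
    simp only at h1 ⊢
    rw [h1, mul_zero]
  refine finsum_mono s1 (h.vmax_support hQ0) fun w => ?_
  have n1 : vmax w.1 ![1, t] ≠ 0 := by
    rw [Ne, vmax_eq_zero_iff]
    exact hpair
  have n2 : vmax w.1 Q ≠ 0 := by
    rw [Ne, vmax_eq_zero_iff]
    exact hQ0
  have h2 := (log_le_log (pow_ne_zero _ n1) n2).mpr (hloc w)
  rw [log_pow, nsmul_eq_mul] at h2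
  exact h2

end Pool.Agent.Lib.MP_44a246_ntD
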