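import Mathlib
import Pool.Agent.Lib.MP_44a246_ntG.G0
import Pool.Agent.Lib.MP_44a246_ntS.SP9
import Pool.Agent.Lib.MP_44a246_ntU.U06
import Pool.Agent.Lib.MP_44a246_ntU.U10
import Pool.Agent.Lib.MP_44a246_ntU.U11
import Pool.Agent.Lib.MP_44a246_ntQ.Q02
import Pool.Agent.Lib.MP_44a246_ntQ.Q03
import Pool.Agent.Lib.MP_44a246_ntD.D06
import Pool.Agent.Lib.MP_44a246_ntD.D07
import Pool.Agent.Lib.MP_44a246_ntS.SR1b
import Pool.Agent.Lib.MP_44a246_ntS.SP5b
import Pool.Agent.Lib.MP_44a246_ntU.U12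

/-!
Step E: a generic point of a section `t = H (x)` of a weighted projective variety does not lie
on a plane curve of small degree.
-/

namespace Pool.Agent.Lib.MP_44a246_ntD

open Pool.Agent.Lib.MP_44a246_ntQ

open Pool.Agent.Lib.MP_e52354_nt
open Pool.Agent.Lib.MP_44a246_nt
open Pool.Agent.Lib.MP_44a246_ntL
open Pool.Agent.Lib.MP_44a246_ntS
open Pool.Agent.Lib.MP_44a246_ntG
open Pool.Agent.Lib.MP_44a246_ntU
open WithZero Polynomial Module

universe u

/-- the forms in two linear forms -/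
noncomputable def bin {κ : Type*} [Field κ] {n : ℕ} (L₀ L₁ : MvPolynomial (Fin n) κ) (d : ℕ) :
    (Fin (d + 1) → κ) →ₗ[κ] ((Fin n →₀ ℕ) → κ) where
  toFun := fun c I => ∑ i, c i * (L₀ ^ (d - i) * L₁ ^ (i : ℕ)).coeff I
  map_add' := fun c c' => by
    funext I
    simp only [Pi.add_apply, add_mul, Finset.sum_add_distrib]
  map_smul' := fun c c' => by
    funext I
    simp only [Pi.smul_apply, smul_eq_mul, RingHom.id_apply, mul_assoc, Finset.mul_sum]

theorem bin_apply {κ : Type*} [Field κ] {n : ℕ} (L₀ L₁ : MvPolynomial (Fin n) κ) (d : ℕ)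
    (c : Fin (d + 1) → κ) (I : Fin n →₀ ℕ) :
    bin L₀ L₁ d c I = ∑ i, c i * (L₀ ^ (d - i) * L₁ ^ (i : ℕ)).coeff I := rfl

/-- the value of a form in two linear forms -/
theorem bin_eval {κ M : Type*} [Field κ] [Field M] [Algebra κ M] {n d : ℕ}
    {L₀ L₁ : MvPolynomial (Fin n) κ} (h0 : L₀.IsHomogeneous 1) (h1 : L₁.IsHomogeneous 1)
    (c : Fin (d + 1) → κ) (γ : Fin n → M) :
    ∑ I ∈ expo (Fin n) d, algebraMap κ M (bin L₀ L₁ d c I) * mon γ I =
      ∑ i : Fin (d + 1), algebraMap κ M (c i) *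
        (MvPolynomial.aeval γ L₀ ^ (d - i) * MvPolynomial.aeval γ L₁ ^ (i : ℕ)) := by
  classical
  have key : ∀ i : Fin (d + 1), ∑ I ∈ expo (Fin n) d,
      algebraMap κ M ((L₀ ^ (d - i) * L₁ ^ (i : ℕ)).coeff I) * mon γ I =
        MvPolynomial.aeval γ L₀ ^ (d - i) * MvPolynomial.aeval γ L₁ ^ (i : ℕ) := by
    intro i
    have hh : (L₀ ^ (d - i) * L₁ ^ (i : ℕ)).IsHomogeneous d := by
      have h2 := (h0.pow (d - i)).mul (h1.pow (i : ℕ))
      have h3 : 1 * (d - i) + 1 * (i : ℕ) = d := by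
        have := i.2
        omega
      rwa [h3] at h2
    rw [← map_pow, ← map_pow, ← map_mul, aeval_eq_Fval hh]
    rfl
  simp only [bin_apply, map_sum, map_mul, Finset.sum_mul]
  rw [Finset.sum_comm]
  refine Finset.sum_congr rfl fun i _ => ?_
  rw [← key i, Finset.mul_sum]
  refine Finset.sum_congr rfl fun I _ => ?_
  ring

/-- **Step E.** -/
theorem no_certC_der {κ : Type u} [Field κ] [IsAlgClosed κ] [CharZero κ] {k : Type*} [Field k]
    [CharZero k] [Algebra k κ] {n m d b s : ℕ} (hd : m + 2 + 2 * b + s ≤ d) {ι : Type*} {e : ι → ℕ}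
    {f : ι → MvPolynomial (Fin (n + 2)) k}
    (hf : ∀ i, (f i).IsWeightedHomogeneous (wt (n + 1) d) (e i))
    (hdim : ringKrullDim (MvPolynomial (Fin (n + 2)) k ⧸ Ideal.span (Set.range f)) ≤
      ((m + 3 : ℕ) : ℕ))
    {a : (Fin (n + 1) →₀ ℕ) → κ} (δ : Fin (m + 1) → Derivation ℤ κ κ)
    (hδk : ∀ i, ∀ u : k, δ i (algebraMap k κ u) = 0)
    (hδa : ∀ i, ∀ I ∈ expo (Fin (n + 1)) d, δ i (a I) = 0)
    {θ : Type*} [Fintype θ] (hθ : Fintype.card θ ≤ s)
    (ψ : θ → ((Fin (n + 1) →₀ ℕ) → κ) →ₗ[κ] κ)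
    (hW : ∀ g : (Fin (n + 1) →₀ ℕ) → κ, (∀ t, ψ t g = 0) → ∃ W : Derivation ℤ κ κ,
      (∀ u : k, W (algebraMap k κ u) = 0) ∧ ∀ I ∈ expo (Fin (n + 1)) d, W (a I) = g I)
    {x : Fin (n + 1) → κ}
    (hx : LinearIndependent κ
      (Fin.cons x (fun i k => δ i (x k)) : Fin (m + 2) → Fin (n + 1) → κ))
    (hne : ∃ i, ∃ τ : κ, MvPolynomial.aeval (Fin.cons τ x : Fin (n + 2) → κ) (f i) ≠ 0) :
    ¬ CertV e (aW d a f) b x := by
  classical
  rintro ⟨A, Bv, ξ₀, ξ₁, ξ₂, c, y₁, y, hboxA, -, hc, hξ₀, hξ₁, hξ₂, hA, hAY, hB, hF, h0, h1, h2⟩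
  set α := (derivative A).evalEval y₁ y with hα
  obtain ⟨i₀, hind⟩ := indep_atV (β := α * c) hA hAY (mul_ne_zero hAY hc)
    (fun j => by rw [mul_assoc]; exact hB j) h0 h1 δ hx
  obtain ⟨g, hirr, hf0, hfdeg, hfA, hfz⟩ := exists_factor hA hAY
  refine with_curve hirr hf0 ?_
  intro M _ _ _ _ _ _ _ _ _ Y hY hgen hfin ht halg
  set φ := algebraMap κ M with hφ
  set X' : M := algebraMap κ[X] M X with hX'
  -- specialisation
  have hspec : ∀ G : κ[X][X], evalEvalRingHom y₁ y G ≠ 0 → ev φ X' Y G ≠ 0 := by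
    intro G hG h3
    rw [hX', ev_aeval, hY] at h3
    obtain ⟨q, rfl⟩ := h3
    apply hG
    rw [map_mul]
    have h4 : evalEvalRingHom y₁ y g = 0 := hfz
    rw [h4, zero_mul]
  have hevA : ∀ G : κ[X][X], A ∣ G → ev φ X' Y G = 0 := by
    intro G hG
    rw [hX', ev_aeval, hY]
    exact hfA.trans hG
  have hAP : ev φ X' Y A = 0 := hevA A dvd_rfl
  have hAYP : ev φ X' Y (derivative A) ≠ 0 := hspec _ hAY
  set ω := ev φ X' Y (derivative A) with hω
  set γ : Fin (n + 1) → M := fun j => ev φ X' Y (Bv j) with hγdef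
  -- the derivations
  obtain ⟨D, hDκ, hDX⟩ := exists_der_ext ht halg (0 : Derivation ℤ κ κ) 1
  choose E hEκ hEX using fun i : Fin (m + 1) => exists_der_ext ht halg (δ i) 0
  have hDκ' : ∀ u : κ, D (algebraMap κ M u) = 0 := fun u => by
    rw [hDκ]
    simp
  have hD : ∀ G, ω * D (ev φ X' Y G) = ev φ X' Y (vf A (cX κ) G) := by
    intro G
    rw [ev_vf φ 0 D hDκ hAP G, hX', hDX, one_mul, vf_apply, cE_zero, cE_zero]
    simp
  have hE : ∀ i G, ω * E i (ev φ X' Y G) = ev φ X' Y (vf A (cE (δ i)) G) := by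
    intro i G
    rw [ev_vf φ (δ i) (E i) (hEκ i) hAP G, hX', hEX, zero_mul, add_zero]
  -- the relations between `γ` and the projection
  have hsum : ∀ ξ : Fin (n + 1) → κ, ev φ X' Y (∑ j, C (C (ξ j)) * Bv j) = ∑ j, φ (ξ j) * γ j := by
    intro ξ
    rw [map_sum]
    refine Finset.sum_congr rfl fun j _ => ?_
    rw [map_mul, ev_C_C]
  have r0 : ∑ j, φ (ξ₀ j) * γ j = ω := by
    rw [← hsum, ← sub_eq_zero, hω, ← map_sub]
    exact hevA _ h0
  have r1 : ∑ j, φ (ξ₁ j) * γ j = X' * ω := by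
    rw [← hsum, ← sub_eq_zero, hω]
    have h4 : X' * ev φ X' Y (derivative A) = ev φ X' Y (C X * derivative A) := by
      rw [map_mul, ev_C_X]
    rw [h4, ← map_sub]
    exact hevA _ h1
  have r2 : ∑ j, φ (ξ₂ j) * γ j = Y * ω := by
    rw [← hsum, ← sub_eq_zero, hω]
    have h4 : Y * ev φ X' Y (derivative A) = ev φ X' Y (X * derivative A) := by
      rw [map_mul, ev_X]
    rw [h4, ← map_sub]
    exact hevA _ h2
  have hγ : γ ≠ 0 := by
    intro h3
    apply hAYP
    rw [← r0, h3]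
    simp
  -- the structure of an algebra over `k`
  let _ : Algebra k M := ((algebraMap κ M).comp (algebraMap k κ)).toAlgebra
  have hkM : ∀ u : k, algebraMap k M u = algebraMap κ M (algebraMap k κ u) := fun u => rfl
  have tkM : IsScalarTower k κ M := IsScalarTower.of_algebraMap_eq hkM
  -- `γ` is a zero of all the forms
  have hFo : ∀ o : ι, Fval (e o) (fun I => algebraMap κ M (aW d a f o I)) γ = 0 := by
    intro o
    have h3 := hevA _ (hF o)
    rw [← h3]
    unfold FB Fval mon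
    rw [map_sum]
    refine Finset.sum_congr rfl fun I _ => ?_
    rw [map_mul, ev_C_C, map_prod]
    congr 1
    refine Finset.prod_congr rfl fun j _ => ?_
    rw [map_pow]
  set η : M := Fval d (fun I => algebraMap κ M (a I)) γ with hη
  have hfγ : ∀ i, MvPolynomial.aeval (Fin.cons η γ : Fin (n + 2) → M) (f i) = 0 := by
    intro i
    rw [hη, ← Fval_aW hf a γ i]
    exact hFo i
  -- the relation between the derivatives of the value of the form
  have hne' : ∃ i, ∃ τ : M, MvPolynomial.aeval (Fin.cons τ γ : Fin (n + 2) → M) (f i) ≠ 0 := by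
    obtain ⟨i, τ, hτ⟩ := hne
    set β := α * c with hβ
    have hβ0 : β ≠ 0 := mul_ne_zero hAY hc
    set G : κ[X][X] := MvPolynomial.aeval (Fin.cons (C (C (β ^ d * τ))) Bv :
      Fin (n + 2) → κ[X][X]) (f i) with hG
    have h3 : ∀ (S : Type u) [Field S] [Algebra k S] (ψ : κ[X][X] →+* S)
        (_ : ∀ u : k, ψ (algebraMap k κ[X][X] u) = algebraMap k S u),
        ψ G = MvPolynomial.aeval (Fin.cons (ψ (C (C (β ^ d * τ)))) (fun j => ψ (Bv j)) :
          Fin (n + 2) → S) (f i) := by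
      intro S _ _ ψ hψ
      rw [hG, MvPolynomial.aeval_def, MvPolynomial.hom_eval₂, MvPolynomial.aeval_def]
      congr 1
      · exact RingHom.ext hψ
      · funext t
        refine Fin.cases rfl (fun t => rfl) t
    have h4 : evalEvalRingHom y₁ y G ≠ 0 := by
      rw [h3 κ (evalEvalRingHom y₁ y) (fun u => by
        rw [IsScalarTower.algebraMap_apply k κ κ[X][X]]
        show evalEval y₁ y (C (C (algebraMap k κ u))) = _
        rw [evalEval_C, eval_C])]
      have h5 : (Fin.cons (evalEvalRingHom y₁ y (C (C (β ^ d * τ))))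
          (fun j => evalEvalRingHom y₁ y (Bv j)) : Fin (n + 2) → κ) =
          Fin.cons (β ^ d * τ) fun j => β * x j := by
        funext t
        refine Fin.cases ?_ (fun t => ?_) t
        · show evalEval y₁ y (C (C (β ^ d * τ))) = β ^ d * τ
          rw [evalEval_C, eval_C]
        · show evalEval y₁ y (Bv t) = β * x t
          rw [← hB t, hβ, mul_assoc]
      rw [h5, aeval_scaleW (hf i)]
      exact mul_ne_zero (pow_ne_zero _ hβ0) hτ
    have h6 := hspec G h4
    rw [h3 M (ev φ X' Y) (fun u => by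
      rw [IsScalarTower.algebraMap_apply k κ κ[X][X], hkM]
      show ev φ X' Y (C (C (algebraMap k κ u))) = _
      rw [ev_C_C])] at h6
    exact ⟨i, _, h6⟩
  obtain ⟨i₁, hi₁⟩ := hne'
  obtain ⟨cr, hcr, hcrγ⟩ := exists_rel (hf i₁) (hfγ i₁) hi₁
  -- independence
  have hindM : LinearIndependent M (Fin.cons γ (Fin.cons (fun k => D (γ k))
      fun i k => E (i₀.succAbove i) (γ k)) : Fin (m + 2) → Fin (n + 1) → M) := by
    have h3 := indep_of_spec (evalEvalRingHom y₁ y) (ev φ X' Y) hspec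
      (N := Fin.cons Bv (Fin.cons (fun j => vf A (cX κ) (Bv j))
        fun i j => vf A (cE (δ (i₀.succAbove i))) (Bv j))) (by
        convert hind using 1
        funext i
        refine Fin.cases rfl (fun i => ?_) i
        exact Fin.cases rfl (fun i => rfl) i)
    have hω0 : ω ≠ 0 := hAYP
    have h4 := h3.units_smul (Fin.cons 1 fun _ => (Units.mk0 ω hω0)⁻¹)
    convert h4 using 1
    funext i
    refine Fin.cases ?_ (fun i => ?_) i
    · funext j
      simp only [Fin.cons_zero, Pi.smul_apply', one_smul]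
      rfl
    · refine Fin.cases ?_ (fun i => ?_) i
      · funext j
        show D (γ j) = (ω⁻¹ : M) * ev φ X' Y (vf A (cX κ) (Bv j))
        rw [← hD, inv_mul_cancel_left₀ hω0]
      · funext j
        show E (i₀.succAbove i) (γ j) =
          (ω⁻¹ : M) * ev φ X' Y (vf A (cE (δ (i₀.succAbove i))) (Bv j))
        rw [← hE, inv_mul_cancel_left₀ hω0]
  -- the tangent space
  obtain ⟨l, hl⟩ : ∃ l, γ l ≠ 0 := by
    by_contra hcon
    push Not at hcon
    exact hγ (funext hcon)
  obtain ⟨T, hT, hγT, hDT⟩ := exists_tangent (k := k) (r := m + 2) hl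
    (fun p j hj => card_le_of_dimW hf hdim hfγ hl hj)
  -- the functional
  set aM : (Fin (n + 1) →₀ ℕ) → M := fun I => algebraMap κ M (a I) with haM
  have hsplit : ∀ v : Fin (n + 1) → M, ∑ k, (grad d aM γ k - cr k) * v k =
      ∑ k, grad d aM γ k * v k - ∑ k, cr k * v k := by
    intro v
    rw [← Finset.sum_sub_distrib]
    exact Finset.sum_congr rfl fun k _ => sub_mul _ _ _
  have hg0 : ∑ k, (grad d aM γ k - cr k) * γ k = 0 := by
    rw [hsplit, grad_euler, hcrγ, hη, sub_self]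
  have hgder : ∀ F : Derivation ℤ M M, (∀ u : k, F (algebraMap k M u) = 0) →
      ∑ k, (grad d aM γ k - cr k) * F (γ k) = - ∑ I ∈ expo (Fin (n + 1)) d, F (aM I) * mon γ I := by
    intro F hFk
    rw [hsplit, ← hcr F hFk, hη, D_Fval d aM F γ]
    ring
  have hgD : ∑ k, (grad d aM γ k - cr k) * D (γ k) = 0 := by
    rw [hgder D fun u => by rw [hkM, hDκ'], Finset.sum_eq_zero, neg_zero]
    intro I _
    rw [haM]
    simp only
    rw [hDκ', zero_mul]
  have hgE : ∀ i, ∑ k, (grad d aM γ k - cr k) * E i (γ k) = 0 := by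
    intro i
    rw [hgder (E i) fun u => by rw [hkM, hEκ, hδk, map_zero], Finset.sum_eq_zero, neg_zero]
    intro I hI
    rw [haM]
    simp only
    rw [hEκ, hδa _ I hI, map_zero, zero_mul]
  -- the pencil of linear forms
  have hMff : IsFF κ M := by
    have t : IsScalarTower κ (RatFunc κ) M := by
      refine IsScalarTower.of_algebraMap_eq fun u => ?_
      rw [IsScalarTower.algebraMap_apply κ κ[X] M,
        IsScalarTower.algebraMap_apply κ κ[X] (RatFunc κ),
        ← IsScalarTower.algebraMap_apply κ[X] (RatFunc κ) M]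
    exact (sp5b_isFF κ).of_finite
  obtain ⟨ζ₀, ζ₁, hu0, hmax⟩ := exists_forms hMff hγ
  set L₀ : MvPolynomial (Fin (n + 1)) κ := ∑ j, MvPolynomial.C (ζ₀ j : κ) * MvPolynomial.X j with hL₀
  set L₁ : MvPolynomial (Fin (n + 1)) κ := ∑ j, MvPolynomial.C (ζ₁ j : κ) * MvPolynomial.X j with hL₁
  have hLh : ∀ ζ : Fin (n + 1) → ℕ, (∑ j, MvPolynomial.C (ζ j : κ) * MvPolynomial.X j :
      MvPolynomial (Fin (n + 1)) κ).IsHomogeneous 1 := by
    intro ζ
    refine MvPolynomial.IsHomogeneous.sum _ _ _ fun j _ => ?_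
    have h1 := (MvPolynomial.isHomogeneous_C (Fin (n + 1)) (ζ j : κ)).mul
      (MvPolynomial.isHomogeneous_X κ j)
    simpa using h1
  have hLe : ∀ ζ : Fin (n + 1) → ℕ, MvPolynomial.aeval γ
      (∑ j, MvPolynomial.C (ζ j : κ) * MvPolynomial.X j : MvPolynomial (Fin (n + 1)) κ) =
      ∑ j, (ζ j : M) * γ j := by
    intro ζ
    rw [map_sum]
    refine Finset.sum_congr rfl fun j _ => ?_
    rw [map_mul, MvPolynomial.aeval_C, MvPolynomial.aeval_X, map_natCast]
  set u : M := ∑ j, (ζ₀ j : M) * γ j with hu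
  set v : M := ∑ j, (ζ₁ j : M) * γ j with hv
  have hpair : (![u, v] : Fin 2 → M) ≠ 0 := fun h0 => hu0 (congrFun h0 0)
  have hγz : height κ γ ≤ height κ ![1, v / u] := by
    have h1 : height κ ![u, v] = height κ ![1, v / u] := by
      rw [← hMff.height_smul (x := ![1, v / u]) hu0]
      congr 1
      funext j
      fin_cases j
      · exact (mul_one _).symm
      · show v = u * (v / u)
        rw [mul_div_cancel₀ _ hu0]
    rw [← h1]
    unfold height
    refine finsum_mono (hMff.vmax_support hγ) (hMff.vmax_support hpair) fun w => ?_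
    have n1 : vmax w.1 γ ≠ 0 := by
      rw [Ne, vmax_eq_zero_iff]
      exact hγ
    have n2 : vmax w.1 ![u, v] ≠ 0 := by
      rw [Ne, vmax_eq_zero_iff]
      exact hpair
    refine (log_le_log n1 n2).mpr ((hmax w).trans (max_le ?_ ?_))
    · exact le_vmax w.1 ![u, v] 0
    · exact le_vmax w.1 ![u, v] 1
  have hpos : 0 < height κ γ := height_pos hγ (ξ₀ := ξ₀) (ξ₁ := ξ₁) (by rw [← hφ, r0]; exact hAYP)
    (by rw [← hφ, r0, r1])
  have hz : Transcendental κ (v / u) := by
    intro halg'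
    obtain ⟨z₀, hz₀⟩ := minpoly.mem_range_of_degree_eq_one κ (v / u)
      (IsAlgClosed.degree_eq_one_of_irreducible κ (minpoly.irreducible halg'.isIntegral))
    have h1 : height κ ![1, v / u] = 0 := by
      unfold height
      refine (finsum_congr fun w => ?_).trans finsum_zero
      rw [vmax_pair, ← hz₀, max_eq_left (place_const_le w z₀), log_one]
    linarith
  -- the space of binary forms killed by the functionals
  obtain ⟨cc, hccli, hcc⟩ : ∃ cc : Fin (d - s + 1) → Fin (d + 1) → κ, LinearIndependent κ cc ∧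
      ∀ j t, ψ t (bin L₀ L₁ d (cc j)) = 0 := by
    let Ψ : (Fin (d + 1) → κ) →ₗ[κ] (θ → κ) := LinearMap.pi fun t => (ψ t).comp (bin L₀ L₁ d)
    have h1 := LinearMap.finrank_range_add_finrank_ker Ψ
    have h2 : finrank κ (LinearMap.range Ψ) ≤ Fintype.card θ := by
      have h3 := Submodule.finrank_le (LinearMap.range Ψ)
      rwa [Module.finrank_fintype_fun_eq_card] at h3
    rw [Module.finrank_fintype_fun_eq_card, Fintype.card_fin] at h1
    have h4 : d - s + 1 ≤ finrank κ (LinearMap.ker Ψ) := by omega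
    obtain ⟨w, hw⟩ := exists_linearIndependent_of_le_finrank h4
    refine ⟨fun j => (w j : Fin (d + 1) → κ), ?_, fun j t => ?_⟩
    · exact hw.map' (LinearMap.ker Ψ).subtype (Submodule.ker_subtype _)
    · have h5 := (w j).2
      rw [LinearMap.mem_ker] at h5
      exact congrFun h5 t
  choose W hWk hWa using fun j => hW _ (hcc j)
  choose W' hWκ' hWX' using fun j => exists_der_ext ht halg (W j) 0
  let pp : Fin (d - s + 1) → κ[X] := fun j => ∑ i : Fin (d + 1), C (cc j i) * X ^ (i : ℕ)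
  have hppcoeff : ∀ j (i : Fin (d + 1)), (pp j).coeff i = cc j i := by
    intro j i
    simp only [pp, finset_sum_coeff, coeff_C_mul, coeff_X_pow]
    rw [Finset.sum_eq_single i]
    · simp
    · intro i' _ hi'
      rw [if_neg, mul_zero]
      intro h3
      exact hi' (Fin.ext h3.symm)
    · intro h3
      exact absurd (Finset.mem_univ i) h3
  have hppli : LinearIndependent κ pp := by
    let co : κ[X] →ₗ[κ] (Fin (d + 1) → κ) := LinearMap.pi fun i => lcoeff κ (i : ℕ)
    refine LinearIndependent.of_comp co ?_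
    have h3 : (co : κ[X] → (Fin (d + 1) → κ)) ∘ pp = cc := by
      funext j i
      exact hppcoeff j i
    rw [h3]
    exact hccli
  set Q : Fin (d - s + 1) → M := fun j => u ^ d * aeval (v / u) (pp j) with hQ
  have hQeq : ∀ j, ∑ I ∈ expo (Fin (n + 1)) d,
      algebraMap κ M (bin L₀ L₁ d (cc j) I) * mon γ I = Q j := by
    intro j
    rw [bin_eval (hLh ζ₀) (hLh ζ₁), hLe, hLe, hQ, ← hu, ← hv]
    simp only [pp, map_sum, map_mul, aeval_C, map_pow, aeval_X]
    rw [Finset.mul_sum]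
    refine Finset.sum_congr rfl fun i _ => ?_
    have h3 : u ^ d = u ^ (d - (i : ℕ)) * u ^ (i : ℕ) := by
      rw [← pow_add]
      congr 1
      have := i.2
      omega
    rw [h3, div_pow]
    field_simp
  have hgW : ∀ j, ∑ k, (grad d aM γ k - cr k) * W' j (γ k) = - Q j := by
    intro j
    rw [hgder (W' j) fun u => by rw [hkM, hWκ', hWk, map_zero], ← hQeq j]
    congr 1
    refine Finset.sum_congr rfl fun I hI => ?_
    rw [haM]
    simp only
    rw [hWκ', hWa j I hI]
  have hQ0 : Q ≠ 0 := by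
    intro h3
    have h4 := congrFun h3 0
    rw [hQ] at h4
    simp only [Pi.zero_apply, mul_eq_zero] at h4
    rcases h4 with h4 | h4
    · exact pow_ne_zero _ hu0 h4
    · exact hz ⟨pp 0, hppli.ne_zero 0, h4⟩
  -- the inequalities
  have hglob := wedge_globalC D hDκ' hDX (fun i => E (i₀.succAbove i))
    (fun i u => ⟨_, hEκ _ u⟩) (fun i => ⟨0, by rw [hEX, map_zero]⟩) W' (fun I u => ⟨_, hWκ' _ u⟩)
    (fun I => ⟨0, by rw [hWX', map_zero]⟩) hg0 hgD (fun i => hgE _) hQ0 hgW hindM hT hγT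
    (hDT D fun u => by rw [hkM, hDκ'])
    (fun i => hDT _ fun u => by rw [hkM, hEκ, hδk, map_zero])
    (fun I => hDT _ fun u => by rw [hkM, hWκ', hWk, map_zero])
  have hQh : ((d - s : ℕ) : ℤ) * height κ γ ≤ height κ Q := by
    have h3 := height_family_ge hMff hz hppli
    have h4 : height κ Q = height κ (fun i => aeval (v / u) (pp i)) := by
      rw [hQ]
      exact hMff.height_smul (pow_ne_zero _ hu0)
    rw [h4]
    exact (mul_le_mul_of_nonneg_left hγz (Int.natCast_nonneg _)).trans h3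
  have hgen' : pointField (RatFunc κ) γ = ⊤ := by
    rw [eq_top_iff, ← hgen, IntermediateField.adjoin_le_iff, Set.singleton_subset_iff]
    have hmem : ∀ ξ : Fin (n + 1) → κ, (∑ j, φ (ξ j) * γ j) / γ l ∈ pointField (RatFunc κ) γ := by
      intro ξ
      rw [Finset.sum_div]
      refine sum_mem fun j _ => ?_
      rw [mul_div_assoc]
      refine mul_mem ?_ (IntermediateField.subset_adjoin _ _ ⟨j, l, rfl⟩)
      have h5 : φ (ξ j) = algebraMap (RatFunc κ) M (algebraMap κ[X] (RatFunc κ) (C (ξ j))) := by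
        rw [← IsScalarTower.algebraMap_apply κ[X] (RatFunc κ) M, hφ,
          IsScalarTower.algebraMap_apply κ κ[X] M]
        rfl
      rw [h5]
      exact (pointField (RatFunc κ) γ).algebraMap_mem _
    have h6 : Y = ((∑ j, φ (ξ₂ j) * γ j) / γ l) / ((∑ j, φ (ξ₀ j) * γ j) / γ l) := by
      rw [r0, r2]
      field_simp
    rw [h6]
    exact div_mem (hmem ξ₂) (hmem ξ₀)
  have hram := ram_le hγ hgen'
  have hfin' : (Module.finrank (RatFunc κ) M : ℤ) ≤ b := by
    rw [hfin]
    exact_mod_cast hfdeg.trans hboxA.1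
  have h7 : ((d - s : ℕ) : ℤ) * height κ γ ≤ (m + 3 + 2 * (b - 1)) * height κ γ := by
    have h8 : 2 * ((Module.finrank (RatFunc κ) M : ℤ) - 1) * height κ γ ≤
        2 * ((b : ℤ) - 1) * height κ γ := by
      apply mul_le_mul_of_nonneg_right _ hpos.le
      linarith
    linarith
  have h9 := le_of_mul_le_mul_right h7 hpos
  have h10 : ((m + 2 + 2 * b + s : ℕ) : ℤ) ≤ d := by exact_mod_cast hd
  have h11 : ((d - s : ℕ) : ℤ) = (d : ℤ) - s := by
    rw [Nat.cast_sub (by omega)]
  push_cast at h10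
  rw [h11] at h9
  linarith

end Pool.Agent.Lib.MP_44a246_ntD
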