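import Mathlib
import Pool.Agent.Lib.MP_44a246_ntU.U13
import Pool.Agent.Lib.MP_44a246_ntD.D08

/-!
Step E for a generic point of a section `t = H (x)` over an algebraically closed field, if all but
`s` of the coefficients of `H` are algebraically independent.
-/

namespace Pool.Agent.Lib.MP_44a246_ntD

open Pool.Agent.Lib.MP_44a246_ntQ
open Pool.Agent.Lib.MP_e52354_nt
open Pool.Agent.Lib.MP_44a246_nt
open Pool.Agent.Lib.MP_44a246_ntL
open Pool.Agent.Lib.MP_44a246_ntS
open Pool.Agent.Lib.MP_44a246_ntG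
open Pool.Agent.Lib.MP_44a246_ntU
open Module

universe u

/-- **Step E** over an algebraically closed field -/
theorem no_certC_closed {κ : Type u} [Field κ] [IsAlgClosed κ] [CharZero κ] {k : Type*} [Field k]
    [CharZero k] [Algebra k κ] {n m d b s : ℕ} (hd : m + 2 + 2 * b + s ≤ d) {ι : Type*} {e : ι → ℕ}
    {f : ι → MvPolynomial (Fin (n + 2)) k}
    (hf : ∀ i, (f i).IsWeightedHomogeneous (wt (n + 1) d) (e i))
    (hdim : ringKrullDim (MvPolynomial (Fin (n + 2)) k ⧸ Ideal.span (Set.range f)) ≤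
      ((m + 3 : ℕ) : ℕ))
    {a : (Fin (n + 1) →₀ ℕ) → κ} {P : Finset (Fin (n + 1) →₀ ℕ)} (hP : P.card ≤ s)
    (ha : AlgebraicIndependent k (fun I : {I // I ∈ expo (Fin (n + 1)) d ∧ I ∉ P} => a I.1))
    {k₂ : Type*} [Field k₂] [CharZero k₂] [Algebra k k₂] [Algebra k₂ κ] [IsScalarTower k k₂ κ]
    {a₂ : (Fin (n + 1) →₀ ℕ) → k₂} (ha₂ : ∀ I ∈ expo (Fin (n + 1)) d, algebraMap k₂ κ (a₂ I) = a I)
    {x : Fin (n + 1) → κ} {l : Fin (n + 1)} (hl : x l ≠ 0) {j : Fin (m + 1) → Fin (n + 1)}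
    (hind : AlgebraicIndependent k₂ (fun i : Fin (m + 1) => x (j i) / x l))
    (hne : ∃ i, ∃ τ : κ, MvPolynomial.aeval (Fin.cons τ x : Fin (n + 2) → κ) (f i) ≠ 0) :
    ¬ CertV e (aW d a f) b x := by
  classical
  choose δ hδ using fun i : Fin (m + 1) => exists_der_indepV hind (fun i' => if i = i' then 1 else 0)
  choose W hW using fun I : Fin (n + 1) →₀ ℕ => exists_der_indepV ha
    (fun J => if I = J.1 then (1 : κ) else 0)
  set E := (expo (Fin (n + 1)) d).filter (fun I => I ∉ P) with hE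
  refine no_certC_der hd hf hdim δ (fun i u => ?_) (fun i I hI => ?_)
    (θ := ↥P) (by rwa [Fintype.card_coe])
    (fun K => (∑ I ∈ E, (W I (a K.1)) • LinearMap.proj I) - LinearMap.proj K.1)
    (fun g hg => ?_) (indep_pointV (j := j) hl δ fun i i' => ?_) hne
  · rw [IsScalarTower.algebraMap_apply k k₂ κ]
    exact (hδ i).1 _
  · rw [← ha₂ I hI]
    exact (hδ i).1 _
  · have hsum : ∀ y : κ, (∑ I ∈ E, g I • W I : Derivation ℤ κ κ) y = ∑ I ∈ E, (g I • W I) y := by
      intro y
      show (Derivation.coeFnAddMonoidHom (∑ I ∈ E, g I • W I)) y = _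
      rw [map_sum, Finset.sum_apply]
      rfl
    refine ⟨∑ I ∈ E, g I • W I, fun u => ?_, fun J hJ => ?_⟩
    · rw [hsum]
      refine Finset.sum_eq_zero fun I _ => ?_
      rw [Derivation.smul_apply, (hW I).1, smul_zero]
    · rw [hsum]
      by_cases hJP : J ∈ P
      · have h1 := hg ⟨J, hJP⟩
        rw [LinearMap.sub_apply, LinearMap.proj_apply, sub_eq_zero] at h1
        rw [← h1, LinearMap.sum_apply]
        refine Finset.sum_congr rfl fun I _ => ?_
        rw [Derivation.smul_apply, LinearMap.smul_apply, LinearMap.proj_apply, smul_eq_mul,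
          smul_eq_mul, mul_comm]
      · have h2 : ∀ I ∈ E, (g I • W I) (a J) = if I = J then g I else 0 := by
          intro I _
          rw [Derivation.smul_apply, (hW I).2 ⟨J, hJ, hJP⟩]
          split_ifs <;> simp
        rw [Finset.sum_congr rfl h2, Finset.sum_ite_eq' E J, if_pos]
        rw [hE, Finset.mem_filter]
        exact ⟨hJ, hJP⟩
  · exact (hδ i).2 i'

end Pool.Agent.Lib.MP_44a246_ntD
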