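import Mathlib
import Pool.Agent.Lib.MP_44a246_ntU.U17
import Pool.Agent.Lib.MP_44a246_ntQ.Q10
import Pool.Agent.Lib.MP_44a246_ntQ.Q11
import Pool.Agent.Lib.MP_44a246_ntD.D10

/-!
The exceptional set.
-/

namespace Pool.Agent.Lib.MP_44a246_ntD

open Pool.Agent.Lib.MP_44a246_ntQ
open Pool.Agent.Lib.MP_e52354_nt
open Pool.Agent.Lib.MP_44a246_nt
open Pool.Agent.Lib.MP_44a246_ntL
open Pool.Agent.Lib.MP_44a246_ntS
open Pool.Agent.Lib.MP_44a246_ntG
open Pool.Agent.Lib.MP_44a246_ntU
open MvPolynomial

universe v w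

/-- **The exceptional set**, for the points over algebraic extensions: it is given by finitely many
forms and its (affine) dimension is at most `m + 1`, that is at most `r - 1` if `r = m + 2` is the
dimension of the variety. -/
theorem exists_excFormsC {k : Type*} {K : Type v} [Field k] [CharZero k] [Countable k] [Field K]
    [CharZero K] [Algebra k K] {n m d b s : ℕ} (hd : m + 2 + 2 * b + s ≤ d) {ι : Type*} [Finite ι]
    {e : ι → ℕ} {f : ι → MvPolynomial (Fin (n + 2)) k}
    (hf : ∀ i, (f i).IsWeightedHomogeneous (wt (n + 1) d) (e i))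
    (hdim : ringKrullDim (MvPolynomial (Fin (n + 2)) k ⧸ Ideal.span (Set.range f)) ≤
      ((m + 3 : ℕ) : ℕ))
    {a : (Fin (n + 1) →₀ ℕ) → K} {P : Finset (Fin (n + 1) →₀ ℕ)} (hP : P.card ≤ s)
    (ha : AlgebraicIndependent k (fun I : {I // I ∈ expo (Fin (n + 1)) d ∧ I ∉ P} => a I.1)) :
    ∃ (s' : ℕ) (G : Fin s' → MvPolynomial (Fin (n + 1)) K), (∀ i, ∃ E, (G i).IsHomogeneous E) ∧
      ringKrullDim (MvPolynomial (Fin (n + 1)) K ⧸ Ideal.span (Set.range G)) ≤ ((m + 1 : ℕ) : ℕ) ∧
      ∀ (L : Type w) [Field L] [Algebra K L] [Algebra.IsAlgebraic K L] [Algebra k L]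
        [IsScalarTower k K L] (x : Fin (n + 1) → L),
        CertV e (aW d (fun I => algebraMap K L (a I)) f) b x → NDeg f x → ∀ i, aeval x (G i) = 0 := by
  have hex : ∀ (l : Fin (n + 1)) (j : Fin (m + 1) → Fin (n + 1)),
      ∃ g : MvPolynomial (Fin (m + 1)) K, g ≠ 0 ∧ ∀ x : Fin (n + 1) → AlgebraicClosure K,
        CertV e (aW d (fun I => algebraMap K (AlgebraicClosure K) (a I)) f) b x → NDeg f x → x l ≠ 0 →
          MvPolynomial.aeval (fun i => x (j i) / x l) g = 0 :=
    fun l j => exists_excC hd hf hdim hP ha l j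
  choose g hg0 hg using hex
  have hex2 : ∀ (l : Fin (n + 1)) (j : Fin (m + 1) → Fin (n + 1)),
      ∃ (E : ℕ) (G : MvPolynomial (Fin (n + 1)) K), G.IsHomogeneous E ∧
        ∀ {L : Type v} [Field L] [Algebra K L] (x : Fin (n + 1) → L),
          (x l = 0 → aeval x G = 0) ∧
            (x l ≠ 0 → aeval x G = x l ^ E * aeval (fun i => x (j i) / x l) (g l j)) :=
    fun l j => exists_homogV (g l j) l j
  choose E G hGh hG using hex2
  let eq := Fintype.equivFin (Fin (n + 1) × (Fin (m + 1) → Fin (n + 1)))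
  refine ⟨_, fun i => G (eq.symm i).1 (eq.symm i).2, fun i => ⟨_, hGh _ _⟩, ?_, ?_⟩
  · refine dim_excV hg0 (E := E) (G := G) (fun l j L _ _ x hx => (hG l j x).2 hx) ?_
    intro l j
    refine Ideal.subset_span ⟨eq (l, j), ?_⟩
    simp only [Equiv.symm_apply_apply]
  · intro L _ _ _ _ _ x hx hxn i
    let φ : L →ₐ[K] AlgebraicClosure K := IsAlgClosed.lift
    have hφk : ∀ u : k, φ.toRingHom (algebraMap k L u) = algebraMap k (AlgebraicClosure K) u := by
      intro u
      show φ (algebraMap k L u) = _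
      rw [IsScalarTower.algebraMap_apply k K L, φ.commutes,
        ← IsScalarTower.algebraMap_apply k K (AlgebraicClosure K)]
    have h1 := certV_map φ.toRingHom hx
    have h2 : (fun i I => φ.toRingHom (aW d (fun I => algebraMap K L (a I)) f i I)) =
        aW d (fun I => algebraMap K (AlgebraicClosure K) (a I)) f := by
      funext o I
      rw [map_aW d _ φ.toRingHom hφk f o I]
      exact congrFun (congrFun (aW_congr (fun I _ => φ.commutes _) f) o) I
    rw [h2] at h1
    have : Infinite L := Infinite.of_injective (algebraMap K L) (algebraMap K L).injective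
    have h1n := (nDeg_map φ.toRingHom hφk (x := x)).2 hxn
    have h3 : ∀ l j, aeval x (G l j) = 0 := by
      intro l j
      have h4 : aeval (fun j => φ.toRingHom (x j)) (G l j) = φ (aeval x (G l j)) := by
        have h5 := congrArg (fun g => g (G l j)) (MvPolynomial.comp_aeval (R := K) (f := x) φ)
        exact h5.symm
      have h6 : aeval (fun j => φ.toRingHom (x j)) (G l j) = 0 := by
        by_cases hl : φ.toRingHom (x l) = 0
        · exact (hG l j (fun j => φ.toRingHom (x j))).1 hl
        · rw [(hG l j (fun j => φ.toRingHom (x j))).2 hl, hg l j _ h1 h1n hl, mul_zero]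
      rw [h4] at h6
      exact (map_eq_zero φ).1 h6
    exact h3 _ _

end Pool.Agent.Lib.MP_44a246_ntD
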