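import Mathlib
import Pool.Agent.Lib.MP_44a246_nt.Core
import Pool.Agent.Lib.MP_44a246_nt.Polar
import Pool.Agent.Lib.MP_44a246_ntL.LFF
import Pool.Agent.Lib.MP_44a246_ntS.SP2b
import Pool.Agent.Lib.MP_44a246_ntS.SP3

/-!
The local estimate of a determinant whose rows are the values of derivations at a point, with
further coordinates which are integral, and with factors of the size of the point.
-/

namespace Pool.Agent.Lib.MP_44a246_ntD

open Pool.Agent.Lib.MP_e52354_nt
open Pool.Agent.Lib.MP_44a246_nt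
open Pool.Agent.Lib.MP_44a246_ntL
open Pool.Agent.Lib.MP_44a246_ntS
open WithZero Polynomial

section

variable {κ M : Type*} [Field κ] [IsAlgClosed κ] [CharZero κ] [Field M] [Algebra κ M]
  [Algebra κ[X] M] [IsScalarTower κ κ[X] M]
  [Algebra (RatFunc κ) M] [IsScalarTower κ[X] (RatFunc κ) M]
  [Algebra (Rinf κ) M] [IsScalarTower (Rinf κ) (RatFunc κ) M]
  [FiniteDimensional (RatFunc κ) M]

/-- the corrected derivation is integral at the place -/
theorem der_corr (w : Place κ M) (D : Derivation ℤ M M)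
    (hκ : ∀ u : κ, D (algebraMap κ M u) = 0) (hX : D (algebraMap κ[X] M X) = 1)
    {π : M} (hπ : w.1 π = exp (-1 : ℤ)) (F : Derivation ℤ M M)
    (hFκ : ∀ u : κ, ∃ u' : κ, F (algebraMap κ M u) = algebraMap κ M u')
    (hFX : ∃ u : κ, F (algebraMap κ[X] M X) = algebraMap κ M u) {y : M} (hy : w.1 y ≤ 1) :
    w.1 (F y - F π / D π * D y) ≤ 1 := by
  set e : ℕ := ramIdx (RatFunc κ) w.1 - 1 with he
  have hDκ : ∀ u : κ, ∃ u' : κ, D (algebraMap κ M u) = algebraMap κ M u' := fun u =>
    ⟨0, by rw [hκ u, map_zero]⟩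
  have hDX : ∃ u : κ, D (algebraMap κ[X] M X) = algebraMap κ M u := ⟨1, by rw [hX, map_one]⟩
  have hDπ : D π ≠ 0 := der_unif_ne w D hκ hX hπ
  have hDp : ∀ y, w.1 y ≤ 1 → w.1 (D y) ≤ exp (e : ℤ) := fun y hy => der_place w D hDκ hDX hy
  have hFp : ∀ y, w.1 y ≤ 1 → w.1 (F y) ≤ exp (e : ℤ) := fun y hy => der_place w F hFκ hFX hy
  set c : M := F π / D π with hc
  set F' : Derivation ℤ M M := F - c • D with hF'
  have hF'a : ∀ y, F' y = F y - c * D y := fun y => rfl
  have hF'κ : ∀ u : κ, ∃ u' : κ, F' (algebraMap κ M u) = algebraMap κ M u' := by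
    intro u
    obtain ⟨u', hu'⟩ := hFκ u
    exact ⟨u', by rw [hF'a, hκ, mul_zero, sub_zero, hu']⟩
  have hF'π : F' π = 0 := by
    rw [hF'a, hc, div_mul_cancel₀ _ hDπ, sub_self]
  rw [← hF'a]
  have hcle : w.1 c ≤ exp (((log (w.1 c)).toNat : ℕ) : ℤ) := by
    by_cases h0 : w.1 c = 0
    · rw [h0]; exact zero_le
    · conv_lhs => rw [← exp_log h0]
      rw [exp_le_exp]
      exact Int.self_le_toNat _
  refine der_int w F' hF'κ (N := (log (w.1 c)).toNat + e) ?_ hπ hF'π hy
  intro z hz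
  rw [hF'a]
  refine (w.1.map_sub _ _).trans (max_le ?_ ?_)
  · refine (hFp z hz).trans ?_
    rw [exp_le_exp]
    push_cast
    have : (0 : ℤ) ≤ ((log (w.1 c)).toNat : ℤ) := Int.natCast_nonneg _
    linarith
  · rw [map_mul]
    refine (mul_le_mul' hcle (hDp z hz)).trans (le_of_eq ?_)
    rw [← exp_add]
    push_cast
    rfl

/-- **The local estimate of the determinant.** -/
theorem wedge_placeX (w : Place κ M) {n : ℕ} {θ ρ : Type*} [Fintype ρ] [DecidableEq ρ]
    (D : Derivation ℤ M M)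
    (hκ : ∀ u : κ, D (algebraMap κ M u) = 0) (hX : D (algebraMap κ[X] M X) = 1)
    {π : M} (hπ : w.1 π = exp (-1 : ℤ))
    {γ : Fin n → M} {l : Fin n} (hl0 : γ l ≠ 0) (hlmax : ∀ k, w.1 (γ k) ≤ w.1 (γ l))
    {R : ρ → Fin n ⊕ θ → M} {iγ iD : ρ} (hne : iγ ≠ iD) (hRγ : R iγ = Sum.elim γ 0)
    (hRD : R iD = Sum.elim (fun k => D (γ k)) 0) {c : ρ → ℕ}
    (hR : ∀ i, i ≠ iγ → i ≠ iD → ∃ (F : Derivation ℤ M M) (η : θ → M),
      (R i = fun k => γ l ^ c i * (Sum.elim (fun k => F (γ k)) η : Fin n ⊕ θ → M) k) ∧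
        (∀ y, w.1 y ≤ 1 → w.1 (F y - F π / D π * D y) ≤ 1) ∧ ∀ t, w.1 (η t) ≤ 1)
    (hcγ : c iγ = 0) (hcD : c iD = 0) (J : ρ → Fin n ⊕ θ) :
    w.1 (Matrix.of fun i k => R i (J k)).det ≤
      w.1 (γ l) ^ ((∑ i, c i) + (Finset.univ.filter fun k => (J k).isLeft = true).card) *
        exp ((ramIdx (RatFunc κ) w.1 - 1 : ℕ) : ℤ) := by
  classical
  set e : ℕ := ramIdx (RatFunc κ) w.1 - 1 with he
  have hDκ : ∀ u : κ, ∃ u' : κ, D (algebraMap κ M u) = algebraMap κ M u' := fun u =>
    ⟨0, by rw [hκ u, map_zero]⟩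
  have hDX : ∃ u : κ, D (algebraMap κ[X] M X) = algebraMap κ M u := ⟨1, by rw [hX, map_one]⟩
  have hDπ : D π ≠ 0 := der_unif_ne w D hκ hX hπ
  have hDp : ∀ y, w.1 y ≤ 1 → w.1 (D y) ≤ exp (e : ℤ) := fun y hy => der_place w D hDκ hDX hy
  have hR' : ∀ i, ∃ (F : Derivation ℤ M M) (η : θ → M), i ≠ iγ → i ≠ iD →
      (R i = fun k => γ l ^ c i * (Sum.elim (fun k => F (γ k)) η : Fin n ⊕ θ → M) k) ∧
        (∀ y, w.1 y ≤ 1 → w.1 (F y - F π / D π * D y) ≤ 1) ∧ ∀ t, w.1 (η t) ≤ 1 := by
    intro i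
    by_cases h1 : i ≠ iγ ∧ i ≠ iD
    · obtain ⟨F, η, h2⟩ := hR i h1.1 h1.2
      exact ⟨F, η, fun _ _ => h2⟩
    · exact ⟨0, 0, fun h2 h3 => absurd ⟨h2, h3⟩ h1⟩
  choose F η hF using hR'
  -- the normalised vector
  set q : Fin n → M := fun k => γ k / γ l with hq
  have hγq : ∀ k, γ k = γ l * q k := fun k => by
    rw [hq]
    simp only
    rw [mul_div_cancel₀ _ hl0]
  have hqv : ∀ k, w.1 (q k) ≤ 1 := by
    intro k
    rw [hq]
    simp only
    rw [map_div₀]
    exact div_le_one_of_le₀ (hlmax k) zero_le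
  have hder : ∀ (F : Derivation ℤ M M) (k : Fin n),
      F (γ k) = γ l * F (q k) + F (γ l) / γ l * γ k := by
    intro F k
    have h1 : F (γ k) = F (γ l * q k) := by rw [← hγq k]
    rw [h1, Derivation.leibniz, smul_eq_mul, smul_eq_mul, hγq k]
    field_simp
  set N : Matrix ρ ρ M := Matrix.of fun i k => R i (J k) with hN
  set R₂ : ρ → Fin n ⊕ θ → M := fun i => if i = iγ then Sum.elim γ 0 else
    if i = iD then Sum.elim (fun k => γ l * D (q k)) 0 else
      fun k => γ l ^ c i * (Sum.elim (fun k => γ l * F i (q k)) (η i) : Fin n ⊕ θ → M) k with hR₂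
  set R₃ : ρ → Fin n ⊕ θ → M := fun i => if i = iγ then Sum.elim γ 0 else
    if i = iD then Sum.elim (fun k => γ l * D (q k)) 0 else
      fun k => γ l ^ c i * (Sum.elim (fun k => γ l * (F i (q k) - F i π / D π * D (q k))) (η i) :
        Fin n ⊕ θ → M) k with hR₃
  set N₂ : Matrix ρ ρ M := Matrix.of fun i k => R₂ i (J k) with hN₂
  set N₃ : Matrix ρ ρ M := Matrix.of fun i k => R₃ i (J k) with hN₃
  have hne' : iD ≠ iγ := hne.symm
  have e2γ : R₂ iγ = Sum.elim γ 0 := by simp only [hR₂, if_true]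
  have e3D : R₃ iD = Sum.elim (fun k => γ l * D (q k)) 0 := by
    simp only [hR₃, if_neg hne', if_true]
  have d2 : N.det = N₂.det := by
    refine Matrix.det_eq_of_forall_row_eq_smul_add_const
      (fun i => if i = iγ then 0 else if i = iD then D (γ l) / γ l else
        γ l ^ c i * (F i (γ l) / γ l)) iγ (by simp only [if_true]) ?_
    intro i k
    show R i (J k) = R₂ i (J k) + _ * R₂ iγ (J k)
    rw [e2γ]
    by_cases h1 : i = iγ
    · subst h1
      rw [hRγ, e2γ]
      simp only [if_true, zero_mul, add_zero]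
    by_cases h2 : i = iD
    · subst h2
      rw [hRD]
      simp only [hR₂, if_neg h1, if_true]
      rcases J k with k' | k'
      · simp only [Sum.elim_inl]
        exact hder D k'
      · simp only [Sum.elim_inr, Pi.zero_apply, mul_zero, add_zero]
    · obtain ⟨h3, -, -⟩ := hF i h1 h2
      rw [h3]
      simp only [hR₂, if_neg h1, if_neg h2]
      rcases J k with k' | k'
      · simp only [Sum.elim_inl]
        rw [hder (F i) k']
        ring
      · simp only [Sum.elim_inr, Pi.zero_apply, mul_zero, add_zero]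
  have d3 : N₂.det = N₃.det := by
    refine Matrix.det_eq_of_forall_row_eq_smul_add_const
      (fun i => if i = iγ then 0 else if i = iD then 0 else
        γ l ^ c i * (F i π / D π)) iD (by simp only [if_neg hne', if_true]) ?_
    intro i k
    show R₂ i (J k) = R₃ i (J k) + _ * R₃ iD (J k)
    rw [e3D]
    by_cases h1 : i = iγ
    · subst h1
      simp only [hR₂, hR₃, if_true, zero_mul, add_zero]
    by_cases h2 : i = iD
    · subst h2
      simp only [hR₂, hR₃, if_neg h1, if_true, zero_mul, add_zero]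
    · simp only [hR₂, hR₃, if_neg h1, if_neg h2]
      rcases J k with k' | k'
      · simp only [Sum.elim_inl]
        ring
      · simp only [Sum.elim_inr, Pi.zero_apply, mul_zero, add_zero]
  have d4 : w.1 N₃.det ≤ (∏ i, (w.1 (γ l) ^ c i * if i = iD then exp (e : ℤ) else 1)) *
      ∏ k, (if (J k).isLeft = true then w.1 (γ l) else 1) := by
    refine det_weights w.1 N₃ _ _ ?_
    intro i k
    show w.1 (R₃ i (J k)) ≤ _
    by_cases h1 : i = iγ
    · subst h1
      simp only [hR₃, if_true, if_neg hne, mul_one, hcγ, pow_zero, one_mul]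
      rcases hJ : J k with k' | k'
      · simp only [Sum.elim_inl, Sum.isLeft_inl, if_true]
        exact hlmax k'
      · simp only [Sum.elim_inr, Pi.zero_apply, map_zero]
        exact zero_le
    by_cases h2 : i = iD
    · subst h2
      simp only [hR₃, if_neg h1, if_true, hcD, pow_zero, one_mul]
      rcases hJ : J k with k' | k'
      · simp only [Sum.elim_inl, Sum.isLeft_inl, if_true]
        rw [map_mul, mul_comm]
        exact mul_le_mul' (hDp _ (hqv k')) le_rfl
      · simp only [Sum.elim_inr, Pi.zero_apply, map_zero]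
        exact zero_le
    · obtain ⟨-, h4, h5⟩ := hF i h1 h2
      simp only [hR₃, if_neg h1, if_neg h2, mul_one]
      rw [map_mul, map_pow]
      refine mul_le_mul' le_rfl ?_
      rcases hJ : J k with k' | k'
      · simp only [Sum.elim_inl, Sum.isLeft_inl, if_true]
        rw [map_mul]
        exact mul_le_of_le_one_right' (h4 _ (hqv k'))
      · simp only [Sum.elim_inr]
        have : (Sum.inr k' : Fin n ⊕ θ).isLeft = false := rfl
        rw [this, if_neg (by simp)]
        exact h5 k'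
  rw [d2, d3]
  refine d4.trans (le_of_eq ?_)
  rw [Finset.prod_mul_distrib, Finset.prod_pow_eq_pow_sum, Finset.prod_ite_eq' Finset.univ iD,
    if_pos (Finset.mem_univ _), Finset.prod_ite, Finset.prod_const, Finset.prod_const_one, mul_one,
    pow_add]
  exact mul_right_comm _ _ _

end

end Pool.Agent.Lib.MP_44a246_ntD
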