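import Mathlib
import Pool.Agent.Lib.MP_e52354_nt.Span
import Pool.Agent.Lib.MP_44a246_ntU.U07

/-!
Linear algebra: minors and a linear functional on a space of vectors, with arbitrary index types;
the kernel of the evaluation of the forms of a given degree at a point.
-/

namespace Pool.Agent.Lib.MP_44a246_ntD

open Pool.Agent.Lib.MP_44a246_ntU
open Pool.Agent.Lib.MP_e52354_nt
open Module

/-- rows which are linearly independent have a nonzero maximal minor -/
theorem exists_minor_neG {M ι ρ : Type*} [Field M] [Fintype ι] [Fintype ρ] [DecidableEq ρ]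
    {u : ρ → ι → M} (hu : LinearIndependent M u) :
    ∃ J : ρ → ι, (Matrix.of fun i k => u i (J k)).det ≠ 0 := by
  classical
  let e := Fintype.equivFin ι
  let e' := Fintype.equivFin ρ
  have h1 : LinearIndependent M (fun (i : Fin (Fintype.card ρ)) (k : Fin (Fintype.card ι)) =>
      u (e'.symm i) (e.symm k)) := by
    have h2 : LinearIndependent M (u ∘ e'.symm) := hu.comp _ e'.symm.injective
    have h3 := h2.map' (LinearMap.funLeft M M e.symm) (by
      rw [LinearMap.ker_eq_bot]
      exact LinearMap.funLeft_injective_of_surjective M M _ e.symm.surjective)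
    exact h3
  obtain ⟨J, hJ⟩ := exists_minor_ne h1
  refine ⟨fun k => e.symm (J (e' k)), ?_⟩
  have h2 : (Matrix.of fun i k => u i (e.symm (J (e' k)))) =
      (Matrix.of fun i k => u (e'.symm i) (e.symm (J k))).submatrix e' e' := by
    ext i k
    simp only [Matrix.of_apply, Matrix.submatrix_apply, Equiv.symm_apply_apply]
  rw [h2, Matrix.det_submatrix_equiv_self]
  exact hJ

/-- **The minors of the vectors `w, u` are proportional to the functional `g`**, which vanishes on
the independent vectors `u`. -/
theorem exists_minorG {M ι ρ : Type*} [Field M] [Fintype ι] [Fintype ρ] [DecidableEq ρ]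
    {T : Submodule M (ι → M)} {u : ρ → ι → M} (hu : LinearIndependent M u)
    {g : (ι → M) →ₗ[M] M} (hg : ∀ i, g (u i) = 0) {w₀ : ι → M} (hw₀ : g w₀ ≠ 0)
    (hT : T ≤ Submodule.span M (insert w₀ (Set.range u))) :
    ∃ (J : Option ρ → ι) (lam : M), lam ≠ 0 ∧ ∀ w ∈ T,
      (Matrix.of fun (i : Option ρ) (k : Option ρ) => (i.elim w u : ι → M) (J k)).det =
        lam * g w := by
  classical
  have hgs : ∀ x ∈ Submodule.span M (Set.range u), g x = 0 := by
    intro x hx
    have h1 : Submodule.span M (Set.range u) ≤ LinearMap.ker g := by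
      rw [Submodule.span_le]
      rintro _ ⟨i, rfl⟩
      exact hg i
    exact h1 hx
  have hv : LinearIndependent M (fun i : Option ρ => (i.elim w₀ u : ι → M)) := by
    have h1 := (linearIndependent_option' (K := M) (v := u) (x := w₀)).2
      ⟨hu, fun h => hw₀ (hgs _ h)⟩
    have h2 : (fun i : Option ρ => (i.elim w₀ u : ι → M)) =
        (fun o : Option ρ => Option.casesOn' o w₀ u : Option ρ → ι → M) := by
      funext o
      cases o <;> rfl
    rw [h2]
    exact h1
  obtain ⟨J, hJ⟩ := exists_minor_neG hv
  set N₀ : Matrix (Option ρ) (Option ρ) M :=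
    Matrix.of fun i k => (i.elim 0 u : ι → M) (J k) with hN₀
  have hup : ∀ w : ι → M, (Matrix.of fun (i : Option ρ) (k : Option ρ) =>
      (i.elim w u : ι → M) (J k)) = N₀.updateRow none (fun k => w (J k)) := by
    intro w
    ext i k
    rcases i with _ | i
    · rw [Matrix.updateRow_self]; rfl
    · rw [Matrix.updateRow_ne (Option.some_ne_none i)]; rfl
  refine ⟨J, (Matrix.of fun (i : Option ρ) (k : Option ρ) =>
    (i.elim w₀ u : ι → M) (J k)).det / g w₀, div_ne_zero hJ hw₀, ?_⟩
  intro w hw
  refine Submodule.span_induction (p := fun w _ =>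
    (Matrix.of fun (i : Option ρ) (k : Option ρ) => (i.elim w u : ι → M) (J k)).det =
      (Matrix.of fun (i : Option ρ) (k : Option ρ) => (i.elim w₀ u : ι → M) (J k)).det / g w₀ *
        g w) ?_ ?_ ?_ ?_ (hT hw)
  · intro x hx
    rcases hx with rfl | ⟨i, rfl⟩
    · rw [div_mul_cancel₀ _ hw₀]
    · rw [hg i, mul_zero]
      refine Matrix.det_zero_of_row_eq (i := none) (j := some i) (Option.some_ne_none i).symm ?_
      rfl
  · rw [hup]
    rw [map_zero, mul_zero]
    exact Matrix.det_eq_zero_of_row_eq_zero none (fun k => by rw [Matrix.updateRow_self]; rfl)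
  · intro a b _ _ ha hb
    have h1 : (fun k => (a + b) (J k)) = (fun k => a (J k)) + (fun k => b (J k)) := rfl
    rw [hup] at ha hb
    rw [hup, h1, Matrix.det_updateRow_add, ha, hb, map_add, mul_add]
  · intro c a _ ha
    have h1 : (fun k => (c • a) (J k)) = c • (fun k => a (J k)) := rfl
    rw [hup] at ha
    rw [hup, h1, Matrix.det_updateRow_smul, ha, map_smul, smul_eq_mul]
    ring

/-- the number of the columns of a nonzero minor which come from the first coordinates is at most
the dimension of a space which contains the first parts of the rows -/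
theorem card_left_le {M ρ θ : Type*} [Field M] {n : ℕ} [Fintype ρ] [DecidableEq ρ]
    {R : ρ → Fin n ⊕ θ → M} {J : ρ → Fin n ⊕ θ}
    (hdet : (Matrix.of fun i k => R i (J k)).det ≠ 0) {T : Submodule M (Fin n → M)}
    (hT : ∀ i, (fun k => R i (Sum.inl k)) ∈ T) :
    (Finset.univ.filter fun k => (J k).isLeft = true).card ≤ finrank M T := by
  classical
  set S : Finset ρ := Finset.univ.filter fun k => (J k).isLeft = true with hS
  have hli : LinearIndependent M (Matrix.of fun i k => R i (J k)).col := by
    rw [Matrix.linearIndependent_cols_iff_isUnit, Matrix.isUnit_iff_isUnit_det]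
    exact isUnit_iff_ne_zero.2 hdet
  have hli' : LinearIndependent M (fun (k : ↥S) (i : ρ) => R i (J k)) :=
    hli.comp (fun k : ↥S => (k : ρ)) Subtype.val_injective
  -- the matrix of the first parts
  set B : Matrix ρ (Fin n) M := Matrix.of fun i k => R i (Sum.inl k) with hB
  have h1 : B.rank ≤ finrank M T := by
    rw [Matrix.rank_eq_finrank_span_row]
    refine Submodule.finrank_mono ?_
    rw [Submodule.span_le]
    rintro _ ⟨i, rfl⟩
    exact hT i
  refine le_trans ?_ h1
  rw [Matrix.rank_eq_finrank_span_cols]
  have h2 : Submodule.span M (Set.range fun (k : ↥S) (i : ρ) => R i (J k)) ≤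
      Submodule.span M (Set.range B.col) := by
    rw [Submodule.span_le]
    rintro _ ⟨k, rfl⟩
    have h3 : (J k).isLeft = true := (Finset.mem_filter.1 k.2).2
    obtain ⟨j, hj⟩ := Sum.isLeft_iff.1 h3
    refine Submodule.subset_span ⟨j, ?_⟩
    funext i
    show R i (Sum.inl j) = R i (J k)
    rw [hj]
  have h4 := Submodule.finrank_mono h2
  rw [finrank_span_eq_card hli', Fintype.card_coe] at h4
  exact h4

/-- extension of independent vectors to a basis by vectors of a given set -/
theorem exists_ext_basis {M V : Type*} [Field M] [AddCommGroup V] [Module M V]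
    [FiniteDimensional M V] {q : ℕ} {u : Fin q → V} (hu : LinearIndependent M u) {S : Set V}
    {T : Submodule M V} (huT : ∀ i, u i ∈ T) (hST : ∀ s ∈ S, s ∈ T)
    {g : V →ₗ[M] M} (hg : ∀ i, g (u i) = 0) (hgS : ∀ s ∈ S, g s = 0)
    (hker : ∀ x ∈ T, g x = 0 → x ∈ Submodule.span M (Set.range u ∪ S))
    {w₀ : V} (hw₀T : w₀ ∈ T) (hw₀ : g w₀ ≠ 0) :
    ∃ (j : ℕ) (s : Fin j → V), (∀ i, s i ∈ S) ∧ LinearIndependent M (Sum.elim u s) ∧
      T ≤ Submodule.span M (insert w₀ (Set.range (Sum.elim u s))) ∧ q + j + 1 ≤ finrank M T := by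
  classical
  obtain ⟨b, hb1, hb2, hb3, hb4⟩ := exists_linearIndepOn_id_extension
    (s := Set.range u) (t := Set.range u ∪ S) hu.linearIndepOn_id Set.subset_union_left
  have hbfin : b.Finite := hb4.linearIndependent.setFinite
  have hcfin : (b \ Set.range u).Finite := hbfin.subset Set.sdiff_subset
  have hft : Fintype ↥(b \ Set.range u) := hcfin.fintype
  let eq := Fintype.equivFin ↥(b \ Set.range u)
  set j := Fintype.card ↥(b \ Set.range u) with hj
  let s : Fin j → V := fun i => (eq.symm i).1
  have hsb : ∀ i, s i ∈ b := fun i => (eq.symm i).2.1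
  have hsu : ∀ i, s i ∉ Set.range u := fun i => (eq.symm i).2.2
  have hsS : ∀ i, s i ∈ S := fun i => (hb1 (hsb i)).resolve_left (hsu i)
  have hli : LinearIndependent M (Sum.elim u s) := by
    let f : Fin q ⊕ Fin j → b := Sum.elim (fun i => ⟨u i, hb2 ⟨i, rfl⟩⟩) fun i => ⟨s i, hsb i⟩
    have hf : Function.Injective f := by
      intro x y hxy
      rcases x with x | x <;> rcases y with y | y
      · have h1 : u x = u y := congrArg (fun z : b => (z : V)) hxy
        rw [hu.injective h1]
      · have h1 : u x = s y := congrArg (fun z : b => (z : V)) hxy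
        exact absurd ⟨x, h1⟩ (hsu y)
      · have h1 : s x = u y := congrArg (fun z : b => (z : V)) hxy
        exact absurd ⟨y, h1.symm⟩ (hsu x)
      · have h1 : s x = s y := congrArg (fun z : b => (z : V)) hxy
        have h2 : eq.symm x = eq.symm y := Subtype.ext h1
        rw [eq.symm.injective h2]
    have h1 : LinearIndependent M (fun x : b => (x : V)) := hb4
    have h2 := h1.comp f hf
    convert h2 using 1
    funext x
    rcases x with x | x <;> rfl
  have hbr : b ⊆ Set.range (Sum.elim u s) := by
    intro x hx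
    by_cases hxu : x ∈ Set.range u
    · obtain ⟨i, rfl⟩ := hxu
      exact ⟨Sum.inl i, rfl⟩
    · refine ⟨Sum.inr (eq ⟨x, hx, hxu⟩), ?_⟩
      show (eq.symm (eq ⟨x, hx, hxu⟩)).1 = x
      rw [Equiv.symm_apply_apply]
  have hgs : ∀ x ∈ Submodule.span M (Set.range (Sum.elim u s)), g x = 0 := by
    intro x hx
    have h1 : Submodule.span M (Set.range (Sum.elim u s)) ≤ LinearMap.ker g := by
      rw [Submodule.span_le]
      rintro _ ⟨i | i, rfl⟩
      · exact hg i
      · exact hgS _ (hsS i)
    exact h1 hx
  refine ⟨j, s, hsS, hli, ?_, ?_⟩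
  · intro x hx
    have h1 : x - (g x / g w₀) • w₀ ∈ Submodule.span M (Set.range u ∪ S) := by
      refine hker _ (T.sub_mem hx (T.smul_mem _ hw₀T)) ?_
      rw [map_sub, map_smul, smul_eq_mul, div_mul_cancel₀ _ hw₀, sub_self]
    have h2 : Submodule.span M (Set.range u ∪ S) ≤
        Submodule.span M (insert w₀ (Set.range (Sum.elim u s))) := by
      rw [Submodule.span_le]
      refine hb3.trans ?_
      exact Submodule.span_mono (hbr.trans (Set.subset_insert _ _))
    have h3 : x = (x - (g x / g w₀) • w₀) + (g x / g w₀) • w₀ := by abel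
    rw [h3]
    exact Submodule.add_mem _ (h2 h1)
      (Submodule.smul_mem _ _ (Submodule.subset_span (Set.mem_insert _ _)))
  · have hall : LinearIndependent M (fun o : Option (Fin q ⊕ Fin j) =>
        (Option.casesOn' o w₀ (Sum.elim u s) : V)) :=
      linearIndependent_option'.2 ⟨hli, fun h => hw₀ (hgs _ h)⟩
    have h1 : finrank M (Submodule.span M (Set.range fun o : Option (Fin q ⊕ Fin j) =>
        (Option.casesOn' o w₀ (Sum.elim u s) : V))) ≤ finrank M T := by
      refine Submodule.finrank_mono ?_
      rw [Submodule.span_le]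
      rintro _ ⟨o, rfl⟩
      rcases o with _ | (i | i)
      · exact hw₀T
      · exact huT i
      · exact hST _ (hsS i)
    rw [finrank_span_eq_card hall, Fintype.card_option, Fintype.card_sum, Fintype.card_fin,
      Fintype.card_fin] at h1
    exact h1

/-- **The combinations of the vectors attached to the monomials, with coefficients of a form which
vanishes at the point.** -/
theorem mem_span_of_eval_zero {M V : Type*} [Field M] [AddCommGroup V] [Module M V] {n d : ℕ}
    {γ : Fin n → M} {l : Fin n} (hl : γ l ≠ 0) (v : (Fin n →₀ ℕ) → V)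
    (c : (Fin n →₀ ℕ) → M) (hc : ∑ I ∈ expo (Fin n) d, c I * mon γ I = 0) :
    ∑ I ∈ expo (Fin n) d, c I • v I ∈ Submodule.span M {x | ∃ (P : Fin n →₀ ℕ) (p : Fin n),
      P.degree + 1 = d ∧ x = γ l • v (P + Finsupp.single p 1) -
        γ p • v (P + Finsupp.single l 1)} := by
  classical
  set Y := Submodule.span M {x | ∃ (P : Fin n →₀ ℕ) (p : Fin n),
      P.degree + 1 = d ∧ x = γ l • v (P + Finsupp.single p 1) -
        γ p • v (P + Finsupp.single l 1)} with hY
  set I₀ : Fin n →₀ ℕ := Finsupp.single l d with hI₀
  have hmonI₀ : mon γ I₀ = γ l ^ d := by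
    unfold mon
    rw [Finset.prod_eq_single l]
    · rw [hI₀, Finsupp.single_eq_same]
    · intro b _ hb
      rw [hI₀, Finsupp.single_eq_of_ne hb, pow_zero]
    · intro h
      exact absurd (Finset.mem_univ _) h
  have hadd : ∀ (P : Fin n →₀ ℕ) (p : Fin n), mon γ (P + Finsupp.single p 1) = mon γ P * γ p := by
    intro P p
    unfold mon
    simp only [Finsupp.add_apply, pow_add, Finset.prod_mul_distrib]
    congr 1
    rw [Finset.prod_eq_single p]
    · rw [Finsupp.single_eq_same, pow_one]
    · intro b _ hb
      rw [Finsupp.single_eq_of_ne hb, pow_zero]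
    · intro h
      exact absurd (Finset.mem_univ _) h
  have key : ∀ (N : ℕ) (I : Fin n →₀ ℕ), I.degree = d → d - I l = N →
      v I - (mon γ I / γ l ^ d) • v I₀ ∈ Y := by
    intro N
    induction N with
    | zero =>
      intro I hI hN
      have h1 : I = I₀ := by
        have h2 : d ≤ I l := by omega
        have h3 : I.degree = ∑ i, I i := Finsupp.degree_eq_sum I
        have h4 : ∀ i, i ≠ l → I i = 0 := by
          intro i hi
          have h5 : I i + I l ≤ ∑ i, I i := by
            have h6 : ∑ j ∈ ({i, l} : Finset (Fin n)), I j ≤ ∑ j, I j :=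
              Finset.sum_le_sum_of_subset (Finset.subset_univ _)
            rwa [Finset.sum_pair hi] at h6
          omega
        ext i
        rw [hI₀]
        by_cases hi : i = l
        · subst hi
          rw [Finsupp.single_eq_same]
          have h5 : I i ≤ ∑ j, I j := Finset.single_le_sum (f := fun j => I j)
            (fun _ _ => Nat.zero_le _) (Finset.mem_univ i)
          omega
        · rw [h4 i hi, Finsupp.single_eq_of_ne hi]
      rw [h1, hmonI₀, div_self (pow_ne_zero _ hl), one_smul, sub_self]
      exact Y.zero_mem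
    | succ N ih =>
      intro I hI hN
      obtain ⟨p, hpl, hp⟩ : ∃ p, p ≠ l ∧ I p ≠ 0 := by
        by_contra hcon
        push Not at hcon
        have h3 : I.degree = ∑ i, I i := Finsupp.degree_eq_sum I
        rw [Finset.sum_eq_single l (fun b _ hb => hcon b hb)
          (fun h => absurd (Finset.mem_univ _) h)] at h3
        omega
      set P : Fin n →₀ ℕ := I - Finsupp.single p 1 with hP
      have hPI : P + Finsupp.single p 1 = I := by
        rw [hP]
        refine tsub_add_cancel_of_le ?_
        rw [Finsupp.single_le_iff]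
        omega
      have hPd : P.degree + 1 = d := by
        have h1 : (P + Finsupp.single p 1).degree = P.degree + 1 := by
          rw [map_add, Finsupp.degree_single]
        rw [hPI, hI] at h1
        exact h1.symm
      have h1 : d - (P + Finsupp.single l 1 : Fin n →₀ ℕ) l = N := by
        have h2 : P l = I l := by
          have h3 : (P + Finsupp.single p 1 : Fin n →₀ ℕ) l = I l := by rw [hPI]
          rw [Finsupp.add_apply, Finsupp.single_eq_of_ne (Ne.symm hpl), add_zero] at h3
          exact h3
        rw [Finsupp.add_apply, Finsupp.single_eq_same, h2]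
        omega
      have h2 := ih (P + Finsupp.single l 1) (by
        rw [map_add, Finsupp.degree_single]
        exact hPd) h1
      have h3 : γ l • v (P + Finsupp.single p 1) - γ p • v (P + Finsupp.single l 1) ∈ Y :=
        Submodule.subset_span ⟨P, p, hPd, rfl⟩
      have h4 : v I - (mon γ I / γ l ^ d) • v I₀ =
          (γ l)⁻¹ • (γ l • v (P + Finsupp.single p 1) - γ p • v (P + Finsupp.single l 1)) +
            (γ p / γ l) • (v (P + Finsupp.single l 1) -
              (mon γ (P + Finsupp.single l 1) / γ l ^ d) • v I₀) := by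
        have e1 : mon γ I = mon γ P * γ p := by rw [← hadd, hPI]
        rw [hadd, e1, hPI, smul_sub, smul_sub, smul_smul, smul_smul, smul_smul,
          inv_mul_cancel₀ hl, one_smul]
        have e2 : γ p / γ l * (mon γ P * γ l / γ l ^ d) = mon γ P * γ p / γ l ^ d := by
          field_simp
        have e3 : (γ l)⁻¹ * γ p = γ p / γ l := by
          field_simp
        rw [e2, e3]
        abel
      rw [h4]
      exact Y.add_mem (Y.smul_mem _ h3) (Y.smul_mem _ h2)
  have h1 : ∑ I ∈ expo (Fin n) d, c I • v I =
      ∑ I ∈ expo (Fin n) d, c I • (v I - (mon γ I / γ l ^ d) • v I₀) := by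
    have h2 : ∑ I ∈ expo (Fin n) d, c I • ((mon γ I / γ l ^ d) • v I₀) = 0 := by
      have h3 : ∀ I ∈ expo (Fin n) d, c I • ((mon γ I / γ l ^ d) • v I₀) =
          (c I * mon γ I) • ((γ l ^ d)⁻¹ • v I₀) := by
        intro I _
        rw [smul_smul, smul_smul]
        congr 1
        field_simp
      rw [Finset.sum_congr rfl h3, ← Finset.sum_smul, hc, zero_smul]
    simp only [smul_sub, Finset.sum_sub_distrib]
    rw [h2, sub_zero]
  rw [h1]
  refine Submodule.sum_mem _ fun I hI => Submodule.smul_mem _ _ ?_
  exact key _ I (mem_expo.1 hI) rfl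

end Pool.Agent.Lib.MP_44a246_ntD
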