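import Mathlib
import Pool.Agent.Lib.MP_44a246_ntS.SP5b
import Pool.Agent.Lib.MP_44a246_ntS.SP5c
import Pool.Agent.Lib.MP_44a246_ntD.D16
import Pool.Agent.Lib.MP_44a246_ntD.D17

/-!
A family of curves in a hypersurface section of a variety: the global inequality, for a family
which need not cover the variety. The directions which are not tangent to the family are filled up
by derivations which move the coefficients of the form.
-/

namespace Pool.Agent.Lib.MP_44a246_ntD

open Pool.Agent.Lib.MP_44a246_ntU

open Pool.Agent.Lib.MP_e52354_nt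
open Pool.Agent.Lib.MP_44a246_nt
open Pool.Agent.Lib.MP_44a246_ntL
open Pool.Agent.Lib.MP_44a246_ntS
open WithZero Polynomial Module

/-- the dimension of a space of vectors whose first parts lie in a given space -/
theorem finrank_le_of_left {M : Type*} [Field M] {n : ℕ} {θ : Type*} [Fintype θ]
    {T : Submodule M (Fin n → M)} {Y : Submodule M (Fin n ⊕ θ → M)}
    (h : ∀ x ∈ Y, (fun k => x (Sum.inl k)) ∈ T) :
    finrank M Y ≤ finrank M T + Fintype.card θ := by
  let φ : Y →ₗ[M] (Fin n → M) := (LinearMap.funLeft M M Sum.inl).comp Y.subtype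
  have h1 := LinearMap.finrank_range_add_finrank_ker φ
  have h2 : finrank M (LinearMap.range φ) ≤ finrank M T := by
    refine Submodule.finrank_mono ?_
    rintro _ ⟨x, rfl⟩
    exact h x.1 x.2
  have h3 : finrank M (LinearMap.ker φ) ≤ Fintype.card θ := by
    let ψ : LinearMap.ker φ →ₗ[M] (θ → M) :=
      ((LinearMap.funLeft M M Sum.inr).comp Y.subtype).comp (LinearMap.ker φ).subtype
    have hψ : Function.Injective ψ := by
      intro x y hxy
      apply Subtype.ext
      apply Subtype.ext
      funext k
      rcases k with k | k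
      · have h4 : φ x.1 = 0 := x.2
        have h5 : φ y.1 = 0 := y.2
        have h6 := congrFun (h4.trans h5.symm) k
        exact h6
      · exact congrFun hxy k
    have h4 := LinearMap.finrank_le_finrank_of_injective hψ
    rwa [Module.finrank_fintype_fun_eq_card] at h4
  omega

section

variable {κ M : Type*} [Field κ] [IsAlgClosed κ] [CharZero κ] [Field M] [Algebra κ M]
  [Algebra κ[X] M] [IsScalarTower κ κ[X] M]
  [Algebra (RatFunc κ) M] [IsScalarTower κ[X] (RatFunc κ) M]
  [Algebra (Rinf κ) M] [IsScalarTower (Rinf κ) (RatFunc κ) M]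
  [FiniteDimensional (RatFunc κ) M]

/-- **The global inequality.** -/
theorem wedge_globalE {m n d r : ℕ} {θ : Type*} [Fintype θ] (D : Derivation ℤ M M)
    (hκ : ∀ u : κ, D (algebraMap κ M u) = 0) (hX : D (algebraMap κ[X] M X) = 1)
    (E : Fin m → Derivation ℤ M M)
    (hEκ : ∀ i, ∀ u : κ, ∃ u' : κ, E i (algebraMap κ M u) = algebraMap κ M u')
    (hEX : ∀ i, ∃ u : κ, E i (algebraMap κ[X] M X) = algebraMap κ M u)
    (W : (Fin n →₀ ℕ) → Derivation ℤ M M)
    (hWκ : ∀ I, ∀ u : κ, ∃ u' : κ, W I (algebraMap κ M u) = algebraMap κ M u')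
    (hWX : ∀ I, ∃ u : κ, W I (algebraMap κ[X] M X) = algebraMap κ M u)
    (η : (Fin n →₀ ℕ) → θ → κ)
    {γ : Fin n → M} (g : (Fin n ⊕ θ → M) →ₗ[M] M) (hgγ : g (Sum.elim γ 0) = 0)
    (hgD : g (Sum.elim (fun k => D (γ k)) 0) = 0)
    (hgE : ∀ i, g (Sum.elim (fun k => E i (γ k)) 0) = 0)
    (hgW : ∀ I ∈ expo (Fin n) d,
      g (Sum.elim (fun k => W I (γ k)) fun t => algebraMap κ M (η I t)) = - mon γ I)
    (hind : LinearIndependent M (Fin.cons γ (Fin.cons (fun k => D (γ k)) fun i k => E i (γ k)) :
      Fin (m + 2) → Fin n → M))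
    {T : Submodule M (Fin n → M)} (hT : finrank M T ≤ r + 1) (hγT : γ ∈ T)
    (hDT : (fun k => D (γ k)) ∈ T) (hET : ∀ i, (fun k => E i (γ k)) ∈ T)
    (hWT : ∀ I ∈ expo (Fin n) d, (fun k => W I (γ k)) ∈ T) :
    ((d : ℤ) + m + 3) * height κ γ ≤
      (2 * (r + 1) + Fintype.card θ) * height κ γ + ramDeg κ M (RatFunc κ) := by
  classical
  set A : Fin (m + 2) → Fin n → M :=
    Fin.cons γ (Fin.cons (fun k => D (γ k)) fun i k => E i (γ k)) with hA
  have hγ : γ ≠ 0 := hind.ne_zero 0
  have hvγ : ∀ w : Place κ M, vmax w.1 γ ≠ 0 := fun w h => hγ ((vmax_eq_zero_iff w.1).mp h)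
  obtain ⟨l, hl⟩ : ∃ l, γ l ≠ 0 := by
    by_contra hcon
    push Not at hcon
    exact hγ (funext hcon)
  -- the vectors
  let lft : (Fin n → M) →ₗ[M] (Fin n ⊕ θ → M) :=
    { toFun := fun v => Sum.elim v 0
      map_add' := fun a b => by
        funext k
        rcases k with k | k
        · rfl
        · simp only [Sum.elim_inr, Pi.add_apply, Pi.zero_apply, add_zero]
      map_smul' := fun c a => by
        funext k
        rcases k with k | k
        · rfl
        · simp only [Sum.elim_inr, Pi.smul_apply, Pi.zero_apply, smul_zero] }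
  have hlft : Function.Injective lft := by
    intro a b h
    funext k
    exact congrFun h (Sum.inl k)
  set u : Fin (m + 2) → Fin n ⊕ θ → M := fun i => Sum.elim (A i) 0 with hu
  have hui : LinearIndependent M u := hind.map' lft (LinearMap.ker_eq_bot.2 hlft)
  have hu0 : u 0 = Sum.elim γ 0 := rfl
  have hu1 : u 1 = Sum.elim (fun k => D (γ k)) 0 := rfl
  have hu2 : ∀ i : Fin m, u i.succ.succ = Sum.elim (fun k => E i (γ k)) 0 := fun i => rfl
  have hgu : ∀ i, g (u i) = 0 := by
    intro i
    refine Fin.cases hgγ (fun i => Fin.cases hgD (fun i => hgE i) i) i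
  set wv : (Fin n →₀ ℕ) → Fin n ⊕ θ → M := fun I =>
    Sum.elim (fun k => W I (γ k)) fun t => algebraMap κ M (η I t) with hwv
  let Φ : ((Fin n →₀ ℕ) → M) →ₗ[M] (Fin n ⊕ θ → M) :=
    { toFun := fun c => ∑ I ∈ expo (Fin n) d, c I • wv I
      map_add' := fun a b => by
        simp only [Pi.add_apply, add_smul, Finset.sum_add_distrib]
      map_smul' := fun c a => by
        simp only [Pi.smul_apply, smul_eq_mul, RingHom.id_apply, Finset.smul_sum, mul_smul] }
  have hΦ : ∀ c, Φ c = ∑ I ∈ expo (Fin n) d, c I • wv I := fun c => rfl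
  set T' : Submodule M (Fin n ⊕ θ → M) :=
    Submodule.span M (Set.range u) ⊔ LinearMap.range Φ with hT'
  have huT' : ∀ i, u i ∈ T' := fun i =>
    Submodule.mem_sup_left (Submodule.subset_span ⟨i, rfl⟩)
  have hwT' : ∀ I ∈ expo (Fin n) d, wv I ∈ T' := by
    intro I hI
    refine Submodule.mem_sup_right ⟨Pi.single I 1, ?_⟩
    rw [hΦ, Finset.sum_eq_single I]
    · rw [Pi.single_eq_same, one_smul]
    · intro J _ hJ
      rw [Pi.single_eq_of_ne hJ, zero_smul]
    · intro h
      exact absurd hI h
  -- the dimension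
  have hAT : ∀ i, A i ∈ T := by
    intro i
    refine Fin.cases ?_ (fun i => ?_) i
    · exact hγT
    · refine Fin.cases ?_ (fun i => ?_) i
      · exact hDT
      · exact hET i
  have hT'T : ∀ x ∈ T', (fun k => x (Sum.inl k)) ∈ T := by
    have h1 : T' ≤ Submodule.comap (LinearMap.funLeft M M (Sum.inl : Fin n → Fin n ⊕ θ)) T := by
      rw [hT', sup_le_iff]
      refine ⟨?_, ?_⟩
      · rw [Submodule.span_le]
        rintro _ ⟨i, rfl⟩
        exact hAT i
      · rintro _ ⟨c, rfl⟩
        rw [hΦ]
        refine Submodule.sum_mem _ fun I hI => Submodule.smul_mem _ _ ?_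
        exact hWT I hI
    intro x hx
    exact h1 hx
  have hfT' : finrank M T' ≤ finrank M T + Fintype.card θ := finrank_le_of_left hT'T
  -- the generators of the kernel
  set S : Set (Fin n ⊕ θ → M) := {x | ∃ (P : Fin n →₀ ℕ) (p : Fin n),
      P.degree + 1 = d ∧ x = γ l • wv (P + Finsupp.single p 1) -
        γ p • wv (P + Finsupp.single l 1)} with hS
  have hexp : ∀ (P : Fin n →₀ ℕ) (p : Fin n), P.degree + 1 = d →
      P + Finsupp.single p 1 ∈ expo (Fin n) d := by
    intro P p hP
    rw [mem_expo, map_add, Finsupp.degree_single]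
    exact hP
  have hadd : ∀ (P : Fin n →₀ ℕ) (p : Fin n), mon γ (P + Finsupp.single p 1) = mon γ P * γ p := by
    intro P p
    unfold mon
    simp only [Finsupp.add_apply, pow_add, Finset.prod_mul_distrib]
    congr 1
    rw [Finset.prod_eq_single p]
    · rw [Finsupp.single_eq_same, pow_one]
    · intro b _ hb
      rw [Finsupp.single_eq_of_ne hb, pow_zero]
    · intro h
      exact absurd (Finset.mem_univ _) h
  have hST : ∀ x ∈ S, x ∈ T' := by
    rintro x ⟨P, p, hP, rfl⟩
    exact T'.sub_mem (T'.smul_mem _ (hwT' _ (hexp P p hP))) (T'.smul_mem _ (hwT' _ (hexp P l hP)))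
  have hgS : ∀ x ∈ S, g x = 0 := by
    rintro x ⟨P, p, hP, rfl⟩
    rw [map_sub, map_smul, map_smul, hgW _ (hexp P p hP), hgW _ (hexp P l hP), hadd, hadd,
      smul_eq_mul, smul_eq_mul]
    ring
  have hker : ∀ x ∈ T', g x = 0 → x ∈ Submodule.span M (Set.range u ∪ S) := by
    intro x hx hgx
    obtain ⟨a, ha, b, ⟨c, rfl⟩, rfl⟩ := Submodule.mem_sup.1 hx
    have hga : g a = 0 := by
      have h1 : Submodule.span M (Set.range u) ≤ LinearMap.ker g := by
        rw [Submodule.span_le]
        rintro _ ⟨i, rfl⟩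
        exact hgu i
      exact h1 ha
    rw [map_add, hga, zero_add, hΦ, map_sum] at hgx
    have h2 : ∑ I ∈ expo (Fin n) d, c I * mon γ I = 0 := by
      rw [← neg_eq_zero, ← hgx, ← Finset.sum_neg_distrib]
      refine Finset.sum_congr rfl fun I hI => ?_
      rw [map_smul, hgW I hI, smul_eq_mul]
      ring
    rw [Submodule.span_union]
    refine Submodule.add_mem _ (Submodule.mem_sup_left ha) (Submodule.mem_sup_right ?_)
    rw [hΦ]
    exact mem_span_of_eval_zero hl wv c h2
  set I₀ : Fin n →₀ ℕ := Finsupp.single l d with hI₀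
  have hmonS : ∀ k : Fin n, mon γ (Finsupp.single k d) = γ k ^ d := by
    intro k
    unfold mon
    rw [Finset.prod_eq_single k]
    · rw [Finsupp.single_eq_same]
    · intro b _ hb
      rw [Finsupp.single_eq_of_ne hb, pow_zero]
    · intro h
      exact absurd (Finset.mem_univ _) h
  have hsing : ∀ k : Fin n, Finsupp.single k d ∈ expo (Fin n) d := fun k => by
    rw [mem_expo, Finsupp.degree_single]
  have hgw0 : g (wv I₀) ≠ 0 := by
    rw [hgW I₀ (hsing l), hmonS]
    exact neg_ne_zero.2 (pow_ne_zero _ hl)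
  obtain ⟨j, s, hsS, hsli, hTs, hj⟩ := exists_ext_basis hui huT' hST hgu hgS hker
    (hwT' I₀ (hsing l)) hgw0
  have hgus : ∀ i, g (Sum.elim u s i) = 0 := by
    rintro (i | i)
    · exact hgu i
    · exact hgS _ (hsS i)
  obtain ⟨J, lam, hlam0, hlam⟩ := exists_minorG hsli hgus hgw0 hTs
  set Lc : ℕ := (Finset.univ.filter fun k => (J k).isLeft = true).card with hLc
  have hLcr : Lc ≤ r + 1 := by
    refine le_trans (card_left_le (R := fun o : Option (Fin (m + 2) ⊕ Fin j) =>
      (o.elim (wv I₀) (Sum.elim u s) : Fin n ⊕ θ → M)) (J := J) ?_ (T := T) ?_) hT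
    · rw [hlam _ (hwT' I₀ (hsing l))]
      exact mul_ne_zero hlam0 hgw0
    · rintro (_ | (i | i))
      · exact hWT _ (hsing l)
      · exact hAT i
      · exact hT'T _ (hST _ (hsS i))
  -- the local estimate
  have hloc : ∀ w : Place κ M, log (w.1 lam) + (d : ℤ) * log (vmax w.1 γ) ≤
      ((j : ℤ) + Lc) * log (vmax w.1 γ) + ((ramIdx (RatFunc κ) w.1 - 1 : ℕ) : ℤ) := by
    intro w
    obtain ⟨π, hπ⟩ := w.2.1 (exp (-1 : ℤ))
    obtain ⟨l', hl'0, hl'v, hl'max⟩ := exists_vmax w.1 hγ
    have hint : ∀ k, w.1 (γ k / γ l') ≤ 1 := by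
      intro k
      rw [map_div₀]
      exact div_le_one_of_le₀ (hl'max k) zero_le
    have h1 := wedge_placeX (θ := θ) w D hκ hX hπ hl'0 hl'max
      (R := fun o : Option (Fin (m + 2) ⊕ Fin j) =>
        (o.elim (wv (Finsupp.single l' d)) (Sum.elim u s) : Fin n ⊕ θ → M))
      (iγ := some (Sum.inl 0)) (iD := some (Sum.inl 1)) (by
        intro h
        have h2 := Sum.inl_injective (Option.some_injective _ h)
        exact absurd h2 (by simp)) hu0 hu1
      (c := fun o => o.elim 0 (Sum.elim (fun _ => 0) fun _ => 1)) (by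
        rintro (_ | (i | i)) hi1 hi2
        · refine ⟨W (Finsupp.single l' d), fun t => algebraMap κ M (η (Finsupp.single l' d) t),
            ?_, fun y hy => der_corr w D hκ hX hπ _ (hWκ _) (hWX _) hy,
            fun t => place_const_le w _⟩
          funext k
          simp only [Option.elim_none, pow_zero, one_mul, hwv]
        · revert hi1 hi2
          refine Fin.cases (fun h2 _ => absurd rfl h2) (fun i => ?_) i
          refine Fin.cases (fun _ h2 => absurd rfl h2) (fun i _ _ => ?_) i
          refine ⟨E i, 0, ?_, fun y hy => der_corr w D hκ hX hπ _ (hEκ i) (hEX i) hy,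
            fun t => by rw [Pi.zero_apply, map_zero]; exact zero_le⟩
          funext k
          simp only [Option.elim_some, Sum.elim_inl, pow_zero, one_mul]
          exact congrFun (hu2 i) k
        · obtain ⟨P, p, hP, hsi⟩ := hsS i
          refine ⟨(γ l / γ l') • W (P + Finsupp.single p 1) -
            (γ p / γ l') • W (P + Finsupp.single l 1),
            fun t => (γ l / γ l') * algebraMap κ M (η (P + Finsupp.single p 1) t) -
              (γ p / γ l') * algebraMap κ M (η (P + Finsupp.single l 1) t), ?_, ?_, ?_⟩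
          · show s i = _
            rw [hsi]
            funext k
            simp only [Option.elim_some, Sum.elim_inr, pow_one, hwv, Pi.sub_apply, Pi.smul_apply,
              smul_eq_mul]
            rcases k with k | k
            · simp only [Sum.elim_inl, Derivation.sub_apply, Derivation.smul_apply, smul_eq_mul]
              field_simp
            · simp only [Sum.elim_inr]
              field_simp
          · intro y hy
            have h2 := der_corr w D hκ hX hπ _ (hWκ (P + Finsupp.single p 1))
              (hWX (P + Finsupp.single p 1)) hy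
            have h3 := der_corr w D hκ hX hπ _ (hWκ (P + Finsupp.single l 1))
              (hWX (P + Finsupp.single l 1)) hy
            have h4 : ((γ l / γ l') • W (P + Finsupp.single p 1) -
                (γ p / γ l') • W (P + Finsupp.single l 1) : Derivation ℤ M M) y -
                ((γ l / γ l') • W (P + Finsupp.single p 1) -
                  (γ p / γ l') • W (P + Finsupp.single l 1) : Derivation ℤ M M) π / D π * D y =
                (γ l / γ l') * (W (P + Finsupp.single p 1) y -
                  W (P + Finsupp.single p 1) π / D π * D y) -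
                (γ p / γ l') * (W (P + Finsupp.single l 1) y -
                  W (P + Finsupp.single l 1) π / D π * D y) := by
              simp only [Derivation.sub_apply, Derivation.smul_apply, smul_eq_mul]
              ring
            rw [h4]
            refine (w.1.map_sub _ _).trans (max_le ?_ ?_)
            · rw [map_mul]
              exact _root_.mul_le_one' (hint l) h2
            · rw [map_mul]
              exact _root_.mul_le_one' (hint p) h3
          · intro t
            refine (w.1.map_sub _ _).trans (max_le ?_ ?_)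
            · rw [map_mul]
              exact _root_.mul_le_one' (hint l) (place_const_le w _)
            · rw [map_mul]
              exact _root_.mul_le_one' (hint p) (place_const_le w _)) rfl rfl J
    have h2 := hlam _ (hwT' _ (hsing l'))
    rw [hgW _ (hsing l'), hmonS] at h2
    rw [h2, map_mul, Valuation.map_neg, map_pow, ← hl'v] at h1
    have hcs : ∑ i : Option (Fin (m + 2) ⊕ Fin j),
        ((i.elim 0 (Sum.elim (fun _ => 0) fun _ => 1) : ℕ)) = j := by
      rw [Fintype.sum_option, Fintype.sum_sum_type]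
      simp only [Option.elim_none, Option.elim_some, Sum.elim_inl, Sum.elim_inr,
        Finset.sum_const_zero, Finset.sum_const, Finset.card_univ, Fintype.card_fin, smul_eq_mul,
        mul_one, zero_add]
    rw [hcs] at h1
    have hlw : w.1 lam ≠ 0 := (Valuation.ne_zero_iff w.1).mpr hlam0
    have h3 := (log_le_log (mul_ne_zero hlw (pow_ne_zero _ (hvγ w)))
      (mul_ne_zero (pow_ne_zero _ (hvγ w)) exp_ne_zero)).mpr h1
    rw [log_mul hlw (pow_ne_zero _ (hvγ w)), log_mul (pow_ne_zero _ (hvγ w)) exp_ne_zero,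
      log_pow, log_pow, log_exp, nsmul_eq_mul, nsmul_eq_mul] at h3
    push_cast at h3 ⊢
    exact h3
  -- summation
  have htow : IsScalarTower κ (RatFunc κ) M := by
    refine IsScalarTower.of_algebraMap_eq fun c => ?_
    rw [IsScalarTower.algebraMap_apply κ κ[X] M, IsScalarTower.algebraMap_apply κ[X] (RatFunc κ) M,
      ← IsScalarTower.algebraMap_apply κ κ[X] (RatFunc κ)]
  let P : Finset (Place κ M) := (vmax_finite hγ).toFinset ∪ (place_finite hlam0).toFinset ∪
    (ramIdx_finite (κ := κ) (K := RatFunc κ) (L := M)).toFinset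
  have hP : ∀ v ∉ P, vmax v.1 γ = 1 ∧ v.1 lam = 1 ∧ ramIdx (RatFunc κ) v.1 = 1 := by
    intro v hv
    simp only [P, Finset.mem_union, Set.Finite.mem_toFinset, not_or, Set.mem_ofPred_eq,
      not_not] at hv
    exact ⟨hv.1.1, hv.1.2, hv.2⟩
  have hsum := Finset.sum_le_sum fun v (_ : v ∈ P) => hloc v
  simp only [Finset.sum_add_distrib, ← Finset.mul_sum] at hsum
  have e1 : ∑ v ∈ P, log (v.1 lam) = 0 := by
    rw [← product_formula (κ := κ) hlam0]
    symm
    refine finsum_eq_sum_of_support_subset _ fun v hv => ?_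
    by_contra hvP
    apply hv
    simp only
    rw [(hP v hvP).2.1, log_one]
  have e2 : ∑ v ∈ P, log (vmax v.1 γ) = height κ γ := by
    symm
    refine finsum_eq_sum_of_support_subset _ fun v hv => ?_
    by_contra hvP
    apply hv
    simp only
    rw [(hP v hvP).1, log_one]
  have e4 : ∑ v ∈ P, ((ramIdx (RatFunc κ) v.1 - 1 : ℕ) : ℤ) = (ramDeg κ M (RatFunc κ) : ℤ) := by
    rw [← Nat.cast_sum]
    congr 1
    symm
    refine finsum_eq_sum_of_support_subset _ fun v hv => ?_
    by_contra hvP
    apply hv
    simp only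
    rw [(hP v hvP).2.2, Nat.sub_self]
  rw [e1, e2, e4, zero_add] at hsum
  have hM : IsFF κ M := by
    exact (sp5b_isFF κ).of_finite
  have hpos : 0 ≤ height κ γ := hM.height_nonneg hγ
  have hcount : ((j : ℤ) + Lc) + (m + 3) ≤ 2 * (r + 1) + Fintype.card θ := by
    have h1 : m + 2 + j + 1 ≤ r + 1 + Fintype.card θ := by omega
    have h2 : (Lc : ℤ) ≤ r + 1 := by exact_mod_cast hLcr
    have h3 : ((m + 2 + j + 1 : ℕ) : ℤ) ≤ ((r + 1 + Fintype.card θ : ℕ) : ℤ) := by exact_mod_cast h1
    push_cast at h3
    linarith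
  have h5 := mul_le_mul_of_nonneg_right hcount hpos
  linarith

end

end Pool.Agent.Lib.MP_44a246_ntD
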