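import Mathlib
import Pool.Agent.Lib.MP_44a246_ntD.D08
import Pool.Agent.Lib.MP_44a246_ntD.D18

/-!
Step E for points which need not be generic: the points of a section `t = H (x)` of a weighted
projective variety on plane curves of small degree move in few directions.
-/

namespace Pool.Agent.Lib.MP_44a246_ntD

open Pool.Agent.Lib.MP_44a246_ntQ

open Pool.Agent.Lib.MP_e52354_nt
open Pool.Agent.Lib.MP_44a246_nt
open Pool.Agent.Lib.MP_44a246_ntL
open Pool.Agent.Lib.MP_44a246_ntS
open Pool.Agent.Lib.MP_44a246_ntG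
open Pool.Agent.Lib.MP_44a246_ntU
open WithZero Polynomial Module

universe u

/-- the point and the derivative along the curve are independent -/
theorem indep_pair {κ : Type*} [Field κ] {n : ℕ} {A : κ[X][X]} {Bv : Fin n → κ[X][X]}
    {ξ₀ ξ₁ : Fin n → κ} {y₁ y : κ} (hA : A.evalEval y₁ y = 0)
    (hAY : (derivative A).evalEval y₁ y ≠ 0)
    (h0 : A ∣ ∑ j, C (C (ξ₀ j)) * Bv j - derivative A)
    (h1 : A ∣ ∑ j, C (C (ξ₁ j)) * Bv j - C X * derivative A) :
    LinearIndependent κ ![fun j => (Bv j).evalEval y₁ y,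
      fun j => (vf A (cX κ) (Bv j)).evalEval y₁ y] := by
  classical
  set α := (derivative A).evalEval y₁ y with hα
  set v₀ : Fin n → κ := fun j => (Bv j).evalEval y₁ y with hv₀
  set v₁ : Fin n → κ := fun j => (vf A (cX κ) (Bv j)).evalEval y₁ y with hv₁
  have key : ∀ ξ : Fin n → κ, ∀ V : Derivation ℤ κ[X][X] κ[X][X],
      V (∑ j, C (C (ξ j)) * Bv j) = ∑ j, (C (C (ξ j)) * V (Bv j) + Bv j * V (C (C (ξ j)))) := by
    intro ξ V
    rw [map_sum]
    refine Finset.sum_congr rfl fun j _ => ?_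
    rw [Derivation.leibniz, smul_eq_mul, smul_eq_mul]
  have hVC : ∀ c : κ, vf A (cX κ) (C (C c)) = 0 := by
    intro c
    rw [vf_apply, cX_C_C, derivative_C]
    ring
  have hev : ∀ ξ : Fin n → κ,
      (vf A (cX κ) (∑ j, C (C (ξ j)) * Bv j)).evalEval y₁ y = ∑ j, ξ j * v₁ j := by
    intro ξ
    rw [key, evalEval_finsetSum]
    refine Finset.sum_congr rfl fun j _ => ?_
    rw [hVC, mul_zero, add_zero, evalEval_mul, evalEval_C, eval_C]
  have hev0 : ∀ ξ : Fin n → κ,
      (∑ j, C (C (ξ j)) * Bv j).evalEval y₁ y = ∑ j, ξ j * v₀ j := by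
    intro ξ
    rw [evalEval_finsetSum]
    refine Finset.sum_congr rfl fun j _ => ?_
    rw [evalEval_mul, evalEval_C, eval_C]
  obtain ⟨q₀, hq₀⟩ := h0
  obtain ⟨q₁, hq₁⟩ := h1
  have hq₀' : ∑ j, C (C (ξ₀ j)) * Bv j = derivative A + A * q₀ := by rw [← hq₀]; ring
  have hq₁' : ∑ j, C (C (ξ₁ j)) * Bv j = C X * derivative A + A * q₁ := by rw [← hq₁]; ring
  set c₀ := (vf A (cX κ) (derivative A)).evalEval y₁ y with hc₀
  have e00 : ∑ j, ξ₀ j * v₀ j = α := by
    rw [← hev0, hq₀', evalEval_add, evalEval_mul, hA, zero_mul, add_zero]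
  have e10 : ∑ j, ξ₁ j * v₀ j = y₁ * α := by
    rw [← hev0, hq₁', evalEval_add, evalEval_mul, evalEval_mul, hA, zero_mul, add_zero,
      evalEval_C, eval_X]
  have e01 : ∑ j, ξ₀ j * v₁ j = c₀ := by
    rw [← hev, hq₀', map_add, vf_mul, evalEval_add, evalEval_mul, hA, zero_mul, add_zero]
  have e11 : ∑ j, ξ₁ j * v₁ j = y₁ * c₀ + α * α := by
    rw [← hev, hq₁', map_add, vf_mul, evalEval_add, evalEval_mul, hA, zero_mul, add_zero,
      Derivation.leibniz, smul_eq_mul, smul_eq_mul, evalEval_add, evalEval_mul, evalEval_mul,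
      evalEval_C, eval_X]
    have h3 : vf A (cX κ) (C X) = derivative A := by
      rw [vf_apply, cX_C_X, derivative_C]
      ring
    rw [h3]
  rw [LinearIndependent.pair_iff]
  intro s t hst
  have f0 : s * α + t * c₀ = 0 := by
    have := congrArg (fun u : Fin n → κ => ∑ j, ξ₀ j * u j) hst
    simp only [Pi.add_apply, Pi.smul_apply, smul_eq_mul, Pi.zero_apply, mul_zero,
      Finset.sum_const_zero, mul_add, Finset.sum_add_distrib] at this
    rw [← e00, ← e01, Finset.mul_sum, Finset.mul_sum, ← this]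
    congr 1 <;> exact Finset.sum_congr rfl fun j _ => by ring
  have f1 : s * (y₁ * α) + t * (y₁ * c₀ + α * α) = 0 := by
    have := congrArg (fun u : Fin n → κ => ∑ j, ξ₁ j * u j) hst
    simp only [Pi.add_apply, Pi.smul_apply, smul_eq_mul, Pi.zero_apply, mul_zero,
      Finset.sum_const_zero, mul_add, Finset.sum_add_distrib] at this
    rw [← e10, ← e11, Finset.mul_sum, Finset.mul_sum, ← this]
    congr 1 <;> exact Finset.sum_congr rfl fun j _ => by ring
  have ht : t * (α * α) = 0 := by linear_combination f1 - y₁ * f0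
  have ht0 : t = 0 := (mul_eq_zero.mp ht).resolve_right (mul_ne_zero hAY hAY)
  refine ⟨?_, ht0⟩
  rw [ht0, zero_mul, add_zero] at f0
  exact (mul_eq_zero.mp f0).resolve_right hAY

/-- The derivatives at a point of the curve are independent, if at most one of the given
derivations is omitted. -/
theorem exists_dirs {κ : Type*} [Field κ] {m' n : ℕ} {A : κ[X][X]} {Bv : Fin n → κ[X][X]}
    {ξ₀ ξ₁ x : Fin n → κ} {y₁ y β : κ} (hA : A.evalEval y₁ y = 0)
    (hAY : (derivative A).evalEval y₁ y ≠ 0)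
    (hβ : β ≠ 0) (hB : ∀ j, β * x j = (Bv j).evalEval y₁ y)
    (h0 : A ∣ ∑ j, C (C (ξ₀ j)) * Bv j - derivative A)
    (h1 : A ∣ ∑ j, C (C (ξ₁ j)) * Bv j - C X * derivative A)
    (e : Fin m' → Derivation ℤ κ κ)
    (hx : LinearIndependent κ (Fin.cons x (fun i k => e i (x k)) : Fin (m' + 1) → Fin n → κ)) :
    ∃ (m : ℕ) (i₀ : Fin m → Fin m'), m' ≤ m + 1 ∧ LinearIndependent κ
      (Fin.cons (fun j => (Bv j).evalEval y₁ y)
        (Fin.cons (fun j => (vf A (cX κ) (Bv j)).evalEval y₁ y)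
          fun i j => (vf A (cE (e (i₀ i))) (Bv j)).evalEval y₁ y) :
        Fin (m + 2) → Fin n → κ) := by
  rcases m' with _ | m
  · refine ⟨0, Fin.elim0, by omega, ?_⟩
    convert indep_pair hA hAY h0 h1 using 1
    funext i
    fin_cases i <;> rfl
  · obtain ⟨i₀, hi₀⟩ := indep_atV hA hAY hβ hB h0 h1 e hx
    exact ⟨m, i₀.succAbove, le_rfl, hi₀⟩

/-- **Step E**, for points which need not be generic. -/
theorem no_certE_der {κ : Type u} [Field κ] [IsAlgClosed κ] [CharZero κ] {k : Type*} [Field k]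
    [CharZero k] [Algebra k κ] {n m' r d b s : ℕ} (hd : 2 * r + 2 * b + s ≤ d + m' + 1)
    {ι : Type*} {e : ι → ℕ} {f : ι → MvPolynomial (Fin (n + 2)) k}
    (hf : ∀ i, (f i).IsWeightedHomogeneous (wt (n + 1) d) (e i))
    (hdim : ringKrullDim (MvPolynomial (Fin (n + 2)) k ⧸ Ideal.span (Set.range f)) ≤
      ((r + 1 : ℕ) : ℕ))
    {a : (Fin (n + 1) →₀ ℕ) → κ} (δ : Fin m' → Derivation ℤ κ κ)
    (hδk : ∀ i, ∀ u : k, δ i (algebraMap k κ u) = 0)
    (hδa : ∀ i, ∀ I ∈ expo (Fin (n + 1)) d, δ i (a I) = 0)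
    {P : Finset (Fin (n + 1) →₀ ℕ)} (hP : P.card ≤ s)
    (W : (Fin (n + 1) →₀ ℕ) → Derivation ℤ κ κ)
    (hWk : ∀ I, ∀ u : k, W I (algebraMap k κ u) = 0)
    (hWa : ∀ I ∈ expo (Fin (n + 1)) d, ∀ J ∈ expo (Fin (n + 1)) d, J ∉ P →
      W I (a J) = if I = J then 1 else 0)
    {x : Fin (n + 1) → κ}
    (hx : LinearIndependent κ
      (Fin.cons x (fun i k => δ i (x k)) : Fin (m' + 1) → Fin (n + 1) → κ))
    (hne : ∃ i, ∃ τ : κ, MvPolynomial.aeval (Fin.cons τ x : Fin (n + 2) → κ) (f i) ≠ 0) :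
    ¬ CertV e (aW d a f) b x := by
  classical
  rintro ⟨A, Bv, ξ₀, ξ₁, ξ₂, c, y₁, y, hboxA, -, hc, hξ₀, hξ₁, hξ₂, hA, hAY, hB, hF, h0, h1, h2⟩
  set α := (derivative A).evalEval y₁ y with hα
  obtain ⟨m, i₀, hm', hind⟩ := exists_dirs (β := α * c) hA hAY (mul_ne_zero hAY hc)
    (fun j => by rw [mul_assoc]; exact hB j) h0 h1 δ hx
  obtain ⟨g, hirr, hf0, hfdeg, hfA, hfz⟩ := exists_factor hA hAY
  refine with_curve hirr hf0 ?_
  intro M _ _ _ _ _ _ _ _ _ Y hY hgen hfin ht halg
  set φ := algebraMap κ M with hφ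
  set X' : M := algebraMap κ[X] M X with hX'
  -- specialisation
  have hspec : ∀ G : κ[X][X], evalEvalRingHom y₁ y G ≠ 0 → ev φ X' Y G ≠ 0 := by
    intro G hG h3
    rw [hX', ev_aeval, hY] at h3
    obtain ⟨q, rfl⟩ := h3
    apply hG
    rw [map_mul]
    have h4 : evalEvalRingHom y₁ y g = 0 := hfz
    rw [h4, zero_mul]
  have hevA : ∀ G : κ[X][X], A ∣ G → ev φ X' Y G = 0 := by
    intro G hG
    rw [hX', ev_aeval, hY]
    exact hfA.trans hG
  have hAP : ev φ X' Y A = 0 := hevA A dvd_rfl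
  have hAYP : ev φ X' Y (derivative A) ≠ 0 := hspec _ hAY
  set ω := ev φ X' Y (derivative A) with hω
  set γ : Fin (n + 1) → M := fun j => ev φ X' Y (Bv j) with hγdef
  -- the derivations
  obtain ⟨D, hDκ, hDX⟩ := exists_der_ext ht halg (0 : Derivation ℤ κ κ) 1
  choose E hEκ hEX using fun i : Fin m' => exists_der_ext ht halg (δ i) 0
  have hDκ' : ∀ u : κ, D (algebraMap κ M u) = 0 := fun u => by
    rw [hDκ]
    simp
  have hD : ∀ G, ω * D (ev φ X' Y G) = ev φ X' Y (vf A (cX κ) G) := by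
    intro G
    rw [ev_vf φ 0 D hDκ hAP G, hX', hDX, one_mul, vf_apply, cE_zero, cE_zero]
    simp
  have hE : ∀ i G, ω * E i (ev φ X' Y G) = ev φ X' Y (vf A (cE (δ i)) G) := by
    intro i G
    rw [ev_vf φ (δ i) (E i) (hEκ i) hAP G, hX', hEX, zero_mul, add_zero]
  -- the relations between `γ` and the projection
  have hsum : ∀ ξ : Fin (n + 1) → κ, ev φ X' Y (∑ j, C (C (ξ j)) * Bv j) = ∑ j, φ (ξ j) * γ j := by
    intro ξ
    rw [map_sum]
    refine Finset.sum_congr rfl fun j _ => ?_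
    rw [map_mul, ev_C_C]
  have r0 : ∑ j, φ (ξ₀ j) * γ j = ω := by
    rw [← hsum, ← sub_eq_zero, hω, ← map_sub]
    exact hevA _ h0
  have r1 : ∑ j, φ (ξ₁ j) * γ j = X' * ω := by
    rw [← hsum, ← sub_eq_zero, hω]
    have h4 : X' * ev φ X' Y (derivative A) = ev φ X' Y (C X * derivative A) := by
      rw [map_mul, ev_C_X]
    rw [h4, ← map_sub]
    exact hevA _ h1
  have r2 : ∑ j, φ (ξ₂ j) * γ j = Y * ω := by
    rw [← hsum, ← sub_eq_zero, hω]
    have h4 : Y * ev φ X' Y (derivative A) = ev φ X' Y (X * derivative A) := by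
      rw [map_mul, ev_X]
    rw [h4, ← map_sub]
    exact hevA _ h2
  have hγ : γ ≠ 0 := by
    intro h3
    apply hAYP
    rw [← r0, h3]
    simp
  -- the structure of an algebra over `k`
  let _ : Algebra k M := ((algebraMap κ M).comp (algebraMap k κ)).toAlgebra
  have hkM : ∀ u : k, algebraMap k M u = algebraMap κ M (algebraMap k κ u) := fun u => rfl
  have tkM : IsScalarTower k κ M := IsScalarTower.of_algebraMap_eq hkM
  -- `γ` is a zero of all the forms
  have hFo : ∀ o : ι, Fval (e o) (fun I => algebraMap κ M (aW d a f o I)) γ = 0 := by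
    intro o
    have h3 := hevA _ (hF o)
    rw [← h3]
    unfold FB Fval mon
    rw [map_sum]
    refine Finset.sum_congr rfl fun I _ => ?_
    rw [map_mul, ev_C_C, map_prod]
    congr 1
    refine Finset.prod_congr rfl fun j _ => ?_
    rw [map_pow]
  set η : M := Fval d (fun I => algebraMap κ M (a I)) γ with hη
  have hfγ : ∀ i, MvPolynomial.aeval (Fin.cons η γ : Fin (n + 2) → M) (f i) = 0 := by
    intro i
    rw [hη, ← Fval_aW hf a γ i]
    exact hFo i
  -- the relation between the derivatives of the value of the form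
  have hne' : ∃ i, ∃ τ : M, MvPolynomial.aeval (Fin.cons τ γ : Fin (n + 2) → M) (f i) ≠ 0 := by
    obtain ⟨i, τ, hτ⟩ := hne
    set β := α * c with hβ
    have hβ0 : β ≠ 0 := mul_ne_zero hAY hc
    set G : κ[X][X] := MvPolynomial.aeval (Fin.cons (C (C (β ^ d * τ))) Bv :
      Fin (n + 2) → κ[X][X]) (f i) with hG
    have h3 : ∀ (S : Type u) [Field S] [Algebra k S] (ψ : κ[X][X] →+* S)
        (_ : ∀ u : k, ψ (algebraMap k κ[X][X] u) = algebraMap k S u),
        ψ G = MvPolynomial.aeval (Fin.cons (ψ (C (C (β ^ d * τ)))) (fun j => ψ (Bv j)) :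
          Fin (n + 2) → S) (f i) := by
      intro S _ _ ψ hψ
      rw [hG, MvPolynomial.aeval_def, MvPolynomial.hom_eval₂, MvPolynomial.aeval_def]
      congr 1
      · exact RingHom.ext hψ
      · funext t
        refine Fin.cases rfl (fun t => rfl) t
    have h4 : evalEvalRingHom y₁ y G ≠ 0 := by
      rw [h3 κ (evalEvalRingHom y₁ y) (fun u => by
        rw [IsScalarTower.algebraMap_apply k κ κ[X][X]]
        show evalEval y₁ y (C (C (algebraMap k κ u))) = _
        rw [evalEval_C, eval_C])]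
      have h5 : (Fin.cons (evalEvalRingHom y₁ y (C (C (β ^ d * τ))))
          (fun j => evalEvalRingHom y₁ y (Bv j)) : Fin (n + 2) → κ) =
          Fin.cons (β ^ d * τ) fun j => β * x j := by
        funext t
        refine Fin.cases ?_ (fun t => ?_) t
        · show evalEval y₁ y (C (C (β ^ d * τ))) = β ^ d * τ
          rw [evalEval_C, eval_C]
        · show evalEval y₁ y (Bv t) = β * x t
          rw [← hB t, hβ, mul_assoc]
      rw [h5, aeval_scaleW (hf i)]
      exact mul_ne_zero (pow_ne_zero _ hβ0) hτ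
    have h6 := hspec G h4
    rw [h3 M (ev φ X' Y) (fun u => by
      rw [IsScalarTower.algebraMap_apply k κ κ[X][X], hkM]
      show ev φ X' Y (C (C (algebraMap k κ u))) = _
      rw [ev_C_C])] at h6
    exact ⟨i, _, h6⟩
  obtain ⟨i₁, hi₁⟩ := hne'
  obtain ⟨cr, hcr, hcrγ⟩ := exists_rel (hf i₁) (hfγ i₁) hi₁
  -- independence
  have hindM : LinearIndependent M (Fin.cons γ (Fin.cons (fun k => D (γ k))
      fun i k => E (i₀ i) (γ k)) : Fin (m + 2) → Fin (n + 1) → M) := by
    have h3 := indep_of_spec (evalEvalRingHom y₁ y) (ev φ X' Y) hspec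
      (N := Fin.cons Bv (Fin.cons (fun j => vf A (cX κ) (Bv j))
        fun i j => vf A (cE (δ (i₀ i))) (Bv j))) (by
        convert hind using 1
        funext i
        refine Fin.cases rfl (fun i => ?_) i
        exact Fin.cases rfl (fun i => rfl) i)
    have hω0 : ω ≠ 0 := hAYP
    have h4 := h3.units_smul (Fin.cons 1 fun _ => (Units.mk0 ω hω0)⁻¹)
    convert h4 using 1
    funext i
    refine Fin.cases ?_ (fun i => ?_) i
    · funext j
      simp only [Fin.cons_zero, Pi.smul_apply', one_smul]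
      rfl
    · refine Fin.cases ?_ (fun i => ?_) i
      · funext j
        show D (γ j) = (ω⁻¹ : M) * ev φ X' Y (vf A (cX κ) (Bv j))
        rw [← hD, inv_mul_cancel_left₀ hω0]
      · funext j
        show E (i₀ i) (γ j) =
          (ω⁻¹ : M) * ev φ X' Y (vf A (cE (δ (i₀ i))) (Bv j))
        rw [← hE, inv_mul_cancel_left₀ hω0]
  -- the tangent space
  obtain ⟨l, hl⟩ : ∃ l, γ l ≠ 0 := by
    by_contra hcon
    push Not at hcon
    exact hγ (funext hcon)
  obtain ⟨T, hT, hγT, hDT⟩ := exists_tangent (k := k) (r := r) hl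
    (fun p j hj => card_le_of_dimW hf hdim hfγ hl hj)
  -- the functional
  set aM : (Fin (n + 1) →₀ ℕ) → M := fun I => algebraMap κ M (a I) with haM
  have hsplit : ∀ v : Fin (n + 1) → M, ∑ k, (grad d aM γ k - cr k) * v k =
      ∑ k, grad d aM γ k * v k - ∑ k, cr k * v k := by
    intro v
    rw [← Finset.sum_sub_distrib]
    exact Finset.sum_congr rfl fun k _ => sub_mul _ _ _
  have hg0 : ∑ k, (grad d aM γ k - cr k) * γ k = 0 := by
    rw [hsplit, grad_euler, hcrγ, hη, sub_self]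
  have hgder : ∀ F : Derivation ℤ M M, (∀ u : k, F (algebraMap k M u) = 0) →
      ∑ k, (grad d aM γ k - cr k) * F (γ k) = - ∑ I ∈ expo (Fin (n + 1)) d, F (aM I) * mon γ I := by
    intro F hFk
    rw [hsplit, ← hcr F hFk, hη, D_Fval d aM F γ]
    ring
  have hgD : ∑ k, (grad d aM γ k - cr k) * D (γ k) = 0 := by
    rw [hgder D fun u => by rw [hkM, hDκ'], Finset.sum_eq_zero, neg_zero]
    intro I _
    rw [haM]
    simp only
    rw [hDκ', zero_mul]
  have hgE : ∀ i, ∑ k, (grad d aM γ k - cr k) * E i (γ k) = 0 := by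
    intro i
    rw [hgder (E i) fun u => by rw [hkM, hEκ, hδk, map_zero], Finset.sum_eq_zero, neg_zero]
    intro I hI
    rw [haM]
    simp only
    rw [hEκ, hδa _ I hI, map_zero, zero_mul]
  have hMff : IsFF κ M := by
    have t : IsScalarTower κ (RatFunc κ) M := by
      refine IsScalarTower.of_algebraMap_eq fun u => ?_
      rw [IsScalarTower.algebraMap_apply κ κ[X] M,
        IsScalarTower.algebraMap_apply κ κ[X] (RatFunc κ),
        ← IsScalarTower.algebraMap_apply κ[X] (RatFunc κ) M]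
    exact (sp5b_isFF κ).of_finite
  have hpos : 0 < height κ γ := height_pos hγ (ξ₀ := ξ₀) (ξ₁ := ξ₁) (by rw [← hφ, r0]; exact hAYP)
    (by rw [← hφ, r0, r1])
  -- the coefficients which need not be independent
  set P' : Finset (Fin (n + 1) →₀ ℕ) := (expo (Fin (n + 1)) d).filter (fun I => I ∈ P) with hP'
  have hP'c : Fintype.card ↥P' ≤ s := by
    rw [Fintype.card_coe]
    refine (Finset.card_le_card ?_).trans hP
    intro I hI
    exact (Finset.mem_filter.1 hI).2
  choose W' hWκ' hWX' using fun I => exists_der_ext ht halg (W I) 0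
  set cr' : Fin (n + 1) → M := fun k => grad d aM γ k - cr k with hcr'
  let gl : (Fin (n + 1) ⊕ ↥P' → M) →ₗ[M] M :=
    (∑ k, (cr' k) • LinearMap.proj (Sum.inl k)) +
      ∑ t : ↥P', (mon γ t.1) • LinearMap.proj (Sum.inr t)
  have hgl : ∀ v : Fin (n + 1) ⊕ ↥P' → M,
      gl v = ∑ k, cr' k * v (Sum.inl k) + ∑ t : ↥P', mon γ t.1 * v (Sum.inr t) := by
    intro v
    simp only [gl, LinearMap.add_apply, LinearMap.sum_apply, LinearMap.smul_apply,
      LinearMap.proj_apply, smul_eq_mul]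
  have hgl0 : ∀ v : Fin (n + 1) → M, gl (Sum.elim v 0) = ∑ k, cr' k * v k := by
    intro v
    rw [hgl]
    simp only [Sum.elim_inl, Sum.elim_inr, Pi.zero_apply, mul_zero, Finset.sum_const_zero, add_zero]
  -- the inequalities
  have hglob := wedge_globalE (n := n + 1) (d := d) (r := r) D hDκ' hDX (fun i => E (i₀ i))
    (fun i u => ⟨_, hEκ _ u⟩) (fun i => ⟨0, by rw [hEX, map_zero]⟩) W'
    (fun I u => ⟨_, hWκ' _ u⟩) (fun I => ⟨0, by rw [hWX', map_zero]⟩)
    (fun I t => W I (a t.1) - if I = t.1 then 1 else 0) gl (by rw [hgl0]; exact hg0)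
    (by rw [hgl0]; exact hgD) (fun i => by rw [hgl0]; exact hgE _) (fun I hI => by
      rw [hgl]
      simp only [Sum.elim_inl, Sum.elim_inr]
      have h3 : ∑ k, cr' k * W' I (γ k) =
          - ∑ J ∈ expo (Fin (n + 1)) d, W' I (aM J) * mon γ J :=
        hgder (W' I) fun u => by rw [hkM, hWκ', hWk, map_zero]
      rw [h3]
      have h4 : ∑ J ∈ expo (Fin (n + 1)) d, W' I (aM J) * mon γ J =
          ∑ J ∈ P', (algebraMap κ M (W I (a J))) * mon γ J +
            ∑ J ∈ (expo (Fin (n + 1)) d).filter (fun I => I ∉ P),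
              algebraMap κ M (if I = J then 1 else 0) * mon γ J := by
        rw [hP', ← Finset.sum_filter_add_sum_filter_not (expo (Fin (n + 1)) d) (fun I => I ∈ P)]
        refine congrArg₂ (fun z w => z + w) (Finset.sum_congr rfl fun J _ => ?_)
          (Finset.sum_congr rfl fun J hJ => ?_)
        · rw [haM]
          simp only
          rw [hWκ']
        · rw [Finset.mem_filter] at hJ
          rw [haM]
          simp only
          rw [hWκ', hWa I hI J hJ.1 hJ.2]
      have h5 : ∑ t : ↥P', mon γ t.1 * algebraMap κ M (W I (a t.1) - if I = t.1 then 1 else 0) =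
          ∑ J ∈ P', (algebraMap κ M (W I (a J))) * mon γ J -
            ∑ J ∈ P', algebraMap κ M (if I = J then 1 else 0) * mon γ J := by
        rw [← Finset.sum_sub_distrib, ← Finset.sum_coe_sort P']
        refine Finset.sum_congr rfl fun t _ => ?_
        rw [map_sub]
        ring
      have h6 : ∑ J ∈ P', algebraMap κ M (if I = J then 1 else 0) * mon γ J +
          ∑ J ∈ (expo (Fin (n + 1)) d).filter (fun I => I ∉ P),
            algebraMap κ M (if I = J then 1 else 0) * mon γ J = mon γ I := by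
        rw [hP', Finset.sum_filter_add_sum_filter_not, Finset.sum_eq_single I]
        · rw [if_pos rfl, map_one, one_mul]
        · intro J _ hJ
          rw [if_neg (Ne.symm hJ), map_zero, zero_mul]
        · intro h
          exact absurd hI h
      rw [h4, h5, ← h6]
      ring) hindM hT hγT
    (hDT D fun u => by rw [hkM, hDκ'])
    (fun i => hDT _ fun u => by rw [hkM, hEκ, hδk, map_zero])
    (fun I _ => hDT _ fun u => by rw [hkM, hWκ', hWk, map_zero])
  have hgen' : pointField (RatFunc κ) γ = ⊤ := by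
    rw [eq_top_iff, ← hgen, IntermediateField.adjoin_le_iff, Set.singleton_subset_iff]
    have hmem : ∀ ξ : Fin (n + 1) → κ, (∑ j, φ (ξ j) * γ j) / γ l ∈ pointField (RatFunc κ) γ := by
      intro ξ
      rw [Finset.sum_div]
      refine sum_mem fun j _ => ?_
      rw [mul_div_assoc]
      refine mul_mem ?_ (IntermediateField.subset_adjoin _ _ ⟨j, l, rfl⟩)
      have h5 : φ (ξ j) = algebraMap (RatFunc κ) M (algebraMap κ[X] (RatFunc κ) (C (ξ j))) := by
        rw [← IsScalarTower.algebraMap_apply κ[X] (RatFunc κ) M, hφ,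
          IsScalarTower.algebraMap_apply κ κ[X] M]
        rfl
      rw [h5]
      exact (pointField (RatFunc κ) γ).algebraMap_mem _
    have h6 : Y = ((∑ j, φ (ξ₂ j) * γ j) / γ l) / ((∑ j, φ (ξ₀ j) * γ j) / γ l) := by
      rw [r0, r2]
      field_simp
    rw [h6]
    exact div_mem (hmem ξ₂) (hmem ξ₀)
  have hram := ram_le hγ hgen'
  have hfin' : (Module.finrank (RatFunc κ) M : ℤ) ≤ b := by
    rw [hfin]
    exact_mod_cast hfdeg.trans hboxA.1
  have h8 : 2 * ((Module.finrank (RatFunc κ) M : ℤ) - 1) * height κ γ ≤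
      2 * ((b : ℤ) - 1) * height κ γ := by
    apply mul_le_mul_of_nonneg_right _ hpos.le
    linarith
  have h9 : (Fintype.card ↥P' : ℤ) * height κ γ ≤ (s : ℤ) * height κ γ :=
    mul_le_mul_of_nonneg_right (by exact_mod_cast hP'c) hpos.le
  have h10 : ((d : ℤ) + m + 3) * height κ γ ≤ (2 * (r + 1) + s + 2 * (b - 1)) * height κ γ := by
    linarith
  have h11 := le_of_mul_le_mul_right h10 hpos
  have h12 : (2 * (r : ℤ) + 2 * b + s) ≤ d + m' + 1 := by exact_mod_cast hd
  have h13 : (m' : ℤ) ≤ m + 1 := by exact_mod_cast hm'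
  linarith

end Pool.Agent.Lib.MP_44a246_ntD
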