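import Mathlib
import Pool.Agent.Lib.MP_44a246_ntU.U13
import Pool.Agent.Lib.MP_44a246_ntD.D19

/-!
Step E for a point of a section `t = H (x)` with `m` algebraically independent coordinates over an
algebraically closed field, if all but `s` of the coefficients of `H` are algebraically independent.
-/

namespace Pool.Agent.Lib.MP_44a246_ntD

open Pool.Agent.Lib.MP_44a246_ntQ
open Pool.Agent.Lib.MP_e52354_nt
open Pool.Agent.Lib.MP_44a246_nt
open Pool.Agent.Lib.MP_44a246_ntL
open Pool.Agent.Lib.MP_44a246_ntS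
open Pool.Agent.Lib.MP_44a246_ntG
open Pool.Agent.Lib.MP_44a246_ntU
open Module

universe u

/-- the derivatives of a point are independent -/
theorem indep_pointE {κ : Type*} [Field κ] {m n : ℕ} {x : Fin n → κ} {l : Fin n} (hl : x l ≠ 0)
    {j : Fin m → Fin n} (e : Fin m → Derivation ℤ κ κ)
    (he : ∀ i i', e i (x (j i') / x l) = if i = i' then 1 else 0) :
    LinearIndependent κ
      (Fin.cons x (fun i k => e i (x k)) : Fin (m + 1) → Fin n → κ) := by
  rcases m with _ | m
  · have hx : x ≠ 0 := fun h => hl (congrFun h l)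
    rw [linearIndependent_finCons]
    refine ⟨linearIndependent_empty_type, fun h => hx ?_⟩
    rw [Set.range_eq_empty, Submodule.span_empty, Submodule.mem_bot] at h
    exact h
  · exact indep_pointV hl e he

/-- **Step E** over an algebraically closed field -/
theorem no_certE_closed {κ : Type u} [Field κ] [IsAlgClosed κ] [CharZero κ] {k : Type*} [Field k]
    [CharZero k] [Algebra k κ] {n m r d b s : ℕ} (hd : 2 * r + 2 * b + s ≤ d + m + 1)
    {ι : Type*} {e : ι → ℕ}
    {f : ι → MvPolynomial (Fin (n + 2)) k}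
    (hf : ∀ i, (f i).IsWeightedHomogeneous (wt (n + 1) d) (e i))
    (hdim : ringKrullDim (MvPolynomial (Fin (n + 2)) k ⧸ Ideal.span (Set.range f)) ≤
      ((r + 1 : ℕ) : ℕ))
    {a : (Fin (n + 1) →₀ ℕ) → κ} {P : Finset (Fin (n + 1) →₀ ℕ)} (hP : P.card ≤ s)
    (ha : AlgebraicIndependent k (fun I : {I // I ∈ expo (Fin (n + 1)) d ∧ I ∉ P} => a I.1))
    {k₂ : Type*} [Field k₂] [CharZero k₂] [Algebra k k₂] [Algebra k₂ κ] [IsScalarTower k k₂ κ]
    {a₂ : (Fin (n + 1) →₀ ℕ) → k₂} (ha₂ : ∀ I ∈ expo (Fin (n + 1)) d, algebraMap k₂ κ (a₂ I) = a I)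
    {x : Fin (n + 1) → κ} {l : Fin (n + 1)} (hl : x l ≠ 0) {j : Fin m → Fin (n + 1)}
    (hind : AlgebraicIndependent k₂ (fun i : Fin m => x (j i) / x l))
    (hne : ∃ i, ∃ τ : κ, MvPolynomial.aeval (Fin.cons τ x : Fin (n + 2) → κ) (f i) ≠ 0) :
    ¬ CertV e (aW d a f) b x := by
  classical
  choose δ hδ using fun i : Fin m => exists_der_indepV hind (fun i' => if i = i' then 1 else 0)
  choose W hW using fun I : Fin (n + 1) →₀ ℕ => exists_der_indepV ha
    (fun J => if I = J.1 then (1 : κ) else 0)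
  refine no_certE_der hd hf hdim δ (fun i u => ?_) (fun i I hI => ?_) hP W (fun I u => (hW I).1 u)
    (fun I _ J hJ hJP => (hW I).2 ⟨J, hJ, hJP⟩) (indep_pointE (j := j) hl δ fun i i' => ?_) hne
  · rw [IsScalarTower.algebraMap_apply k k₂ κ]
    exact (hδ i).1 _
  · rw [← ha₂ I hI]
    exact (hδ i).1 _
  · exact (hδ i).2 i'

end Pool.Agent.Lib.MP_44a246_ntD
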