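import Mathlib
import Pool.Agent.Lib.MP_44a246_ntU.U14
import Pool.Agent.Lib.MP_44a246_ntU.U15
import Pool.Agent.Lib.MP_44a246_ntQ.Q10
import Pool.Agent.Lib.MP_44a246_ntQ.Q11
import Pool.Agent.Lib.MP_44a246_ntD.D10
import Pool.Agent.Lib.MP_44a246_ntD.D20

/-!
Compactness, for points with `m` algebraically independent coordinates.
-/

namespace Pool.Agent.Lib.MP_44a246_ntD

open Pool.Agent.Lib.MP_44a246_ntQ
open Pool.Agent.Lib.MP_e52354_nt
open Pool.Agent.Lib.MP_44a246_nt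
open Pool.Agent.Lib.MP_44a246_ntL
open Pool.Agent.Lib.MP_44a246_ntS
open Pool.Agent.Lib.MP_44a246_ntG
open Pool.Agent.Lib.MP_44a246_ntU

/-- The contradiction in an algebraically closed extension of the ultrapower. -/
private theorem excE_aux {k k₂ L : Type*} [Field k] [CharZero k] [Field k₂] [CharZero k₂]
    [Field L] [CharZero L] [Algebra k k₂] [Algebra k₂ L] [Algebra k L] [IsScalarTower k k₂ L]
    {Ω : Type*} [Field Ω] [IsAlgClosed Ω] [CharZero Ω] [Algebra k₂ Ω] [Algebra k Ω]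
    [IsScalarTower k k₂ Ω]
    (ψ : UP L →+* Ω) (hψ : ∀ u : k₂, ψ (constHom (algebraMap k₂ L u)) = algebraMap k₂ Ω u)
    {n m r d b s : ℕ} (hd : 2 * r + 2 * b + s ≤ d + m + 1) {ι : Type*} [Finite ι] {e : ι → ℕ}
    {f : ι → MvPolynomial (Fin (n + 2)) k}
    (hf : ∀ i, (f i).IsWeightedHomogeneous (wt (n + 1) d) (e i))
    (hdim : ringKrullDim (MvPolynomial (Fin (n + 2)) k ⧸ Ideal.span (Set.range f)) ≤
      ((r + 1 : ℕ) : ℕ))
    {a : (Fin (n + 1) →₀ ℕ) → k₂} {P : Finset (Fin (n + 1) →₀ ℕ)} (hP : P.card ≤ s)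
    (ha : AlgebraicIndependent k (fun I : {I // I ∈ expo (Fin (n + 1)) d ∧ I ∉ P} => a I.1))
    {l : Fin (n + 1)} {j : Fin m → Fin (n + 1)}
    {z : ℕ → Fin m → L} {x : ℕ → Fin (n + 1) → L}
    (hz : ∀ H : MvPolynomial (Fin m) k₂, H ≠ 0 →
      ∃ N₀, ∀ N ≥ N₀, MvPolynomial.aeval (z N) H ≠ 0)
    (hx1 : ∀ N, CertV e (aW d (fun I => algebraMap k₂ L (a I)) f) b (x N))
    (hxn : ∀ N, NDeg f (x N)) (hx2 : ∀ N, x N l = 1)
    (hx3 : ∀ N i, z N i = x N (j i)) : False := by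
  have hψk : ∀ u : k, ψ (constHom (algebraMap k L u)) = algebraMap k Ω u := by
    intro u
    rw [IsScalarTower.algebraMap_apply k k₂ L, hψ, ← IsScalarTower.algebraMap_apply k k₂ Ω]
  have hcg := certV_map ψ (certV_germ hx1)
  have hx0 : germHom (fun N => x N l) = 1 := by
    have : (fun N => x N l) = 1 := funext fun N => hx2 N
    rw [this, map_one]
  have hA : (fun (i : ι) (I : Fin (n + 1) →₀ ℕ) =>
      ψ (constHom (aW d (fun I => algebraMap k₂ L (a I)) f i I))) =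
      aW d (fun I => algebraMap k₂ Ω (a I)) f := by
    funext i I
    refine (map_aW d (fun I => algebraMap k₂ L (a I)) (ψ.comp constHom) hψk f i I).trans ?_
    refine congrFun (congrFun (aW_congr (fun I _ => ?_) f) i) I
    exact hψ _
  rw [hA] at hcg
  refine no_certE_closed hd hf hdim (l := l) (j := j) hP ?_ (k₂ := k₂) (a₂ := a)
    (fun I _ => rfl) ?_ ?_ (NDeg.germ ψ hψk hxn) hcg
  · have h1 := ha.map' (f := IsScalarTower.toAlgHom k k₂ Ω) (algebraMap k₂ Ω).injective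
    exact h1
  · show ψ (germHom (fun N => x N l)) ≠ 0
    rw [hx0, map_one]
    exact one_ne_zero
  · have h1 := algIndep_germV ψ hψ (z := z) hz
    convert h1 using 1
    funext i
    show ψ (germHom (fun N => x N (j i))) / ψ (germHom (fun N => x N l)) =
      ψ (germHom (fun N => z N i))
    rw [hx0, map_one, div_one]
    congr 2
    funext N
    exact (hx3 N i).symm

private theorem excE_aux2 {k k₂ L : Type*} [Field k] [CharZero k] [Field k₂] [CharZero k₂]
    [Field L] [CharZero L] [Algebra k k₂] [Algebra k₂ L] [Algebra k L] [IsScalarTower k k₂ L]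
    {Ω : Type*} [Field Ω] [IsAlgClosed Ω] [CharZero Ω]
    (ψ : UP L →+* Ω)
    {n m r d b s : ℕ} (hd : 2 * r + 2 * b + s ≤ d + m + 1) {ι : Type*} [Finite ι] {e : ι → ℕ}
    {f : ι → MvPolynomial (Fin (n + 2)) k}
    (hf : ∀ i, (f i).IsWeightedHomogeneous (wt (n + 1) d) (e i))
    (hdim : ringKrullDim (MvPolynomial (Fin (n + 2)) k ⧸ Ideal.span (Set.range f)) ≤
      ((r + 1 : ℕ) : ℕ))
    {a : (Fin (n + 1) →₀ ℕ) → k₂} {P : Finset (Fin (n + 1) →₀ ℕ)} (hP : P.card ≤ s)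
    (ha : AlgebraicIndependent k (fun I : {I // I ∈ expo (Fin (n + 1)) d ∧ I ∉ P} => a I.1))
    {l : Fin (n + 1)} {j : Fin m → Fin (n + 1)}
    {z : ℕ → Fin m → L} {x : ℕ → Fin (n + 1) → L}
    (hz : ∀ H : MvPolynomial (Fin m) k₂, H ≠ 0 →
      ∃ N₀, ∀ N ≥ N₀, MvPolynomial.aeval (z N) H ≠ 0)
    (hx1 : ∀ N, CertV e (aW d (fun I => algebraMap k₂ L (a I)) f) b (x N))
    (hxn : ∀ N, NDeg f (x N)) (hx2 : ∀ N, x N l = 1)
    (hx3 : ∀ N i, z N i = x N (j i)) : False := by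
  let _ : Algebra k₂ Ω := (ψ.comp (constHom.comp (algebraMap k₂ L))).toAlgebra
  let _ : Algebra k Ω := ((algebraMap k₂ Ω).comp (algebraMap k k₂)).toAlgebra
  have t : IsScalarTower k k₂ Ω := IsScalarTower.of_algebraMap_eq fun u => rfl
  exact excE_aux ψ (fun u => rfl) hd hf hdim hP ha hz hx1 hxn hx2 hx3

/-- **Compactness.** -/
theorem exists_excE {k K L : Type*} [Field k] [CharZero k] [Countable k] [Field K] [CharZero K]
    [Field L] [CharZero L] [Algebra k K] [Algebra K L] [Algebra k L] [IsScalarTower k K L]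
    {n m r d b s : ℕ} (hd : 2 * r + 2 * b + s ≤ d + m + 1) {ι : Type*} [Finite ι] {e : ι → ℕ}
    {f : ι → MvPolynomial (Fin (n + 2)) k}
    (hf : ∀ i, (f i).IsWeightedHomogeneous (wt (n + 1) d) (e i))
    (hdim : ringKrullDim (MvPolynomial (Fin (n + 2)) k ⧸ Ideal.span (Set.range f)) ≤
      ((r + 1 : ℕ) : ℕ))
    {a : (Fin (n + 1) →₀ ℕ) → K} {P : Finset (Fin (n + 1) →₀ ℕ)} (hP : P.card ≤ s)
    (ha : AlgebraicIndependent k (fun I : {I // I ∈ expo (Fin (n + 1)) d ∧ I ∉ P} => a I.1))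
    (l : Fin (n + 1)) (j : Fin m → Fin (n + 1)) :
    ∃ g : MvPolynomial (Fin m) K, g ≠ 0 ∧ ∀ x : Fin (n + 1) → L,
      CertV e (aW d (fun I => algebraMap K L (a I)) f) b x → NDeg f x → x l ≠ 0 →
        MvPolynomial.aeval (fun i => x (j i) / x l) g = 0 := by
  classical
  -- the field of the coefficients
  set k₂ : IntermediateField k K := IntermediateField.adjoin k
    (Set.range fun I : {I // I ∈ expo (Fin (n + 1)) d} => a I.1) with hk₂
  have hc2 : Countable k₂ := countable_adjoin _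
  obtain ⟨a₂, ha₂⟩ : ∃ a₂ : (Fin (n + 1) →₀ ℕ) → k₂, ∀ I ∈ expo (Fin (n + 1)) d,
      (a₂ I : K) = a I :=
    ⟨fun I => if hI : I ∈ expo (Fin (n + 1)) d then ⟨a I,
      IntermediateField.subset_adjoin k _ ⟨⟨I, hI⟩, rfl⟩⟩ else 0, fun I hI => by
      simp only [dif_pos hI]⟩
  have ha' : AlgebraicIndependent k
      (fun I : {I // I ∈ expo (Fin (n + 1)) d ∧ I ∉ P} => a₂ I.1) := by
    refine AlgebraicIndependent.of_comp k₂.val ?_
    have h1 : (k₂.val ∘ fun I : {I // I ∈ expo (Fin (n + 1)) d ∧ I ∉ P} => a₂ I.1) =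
        fun I : {I // I ∈ expo (Fin (n + 1)) d ∧ I ∉ P} => a I.1 := by
      funext I
      exact ha₂ I.1 I.2.1
    rw [h1]
    exact ha
  set S : Set (Fin m → L) := {z | ∃ x : Fin (n + 1) → L,
    CertV e (aW d (fun I => algebraMap K L (a I)) f) b x ∧ NDeg f x ∧ x l = 1 ∧
      ∀ i : Fin m, z i = x (j i)} with hS
  have key : ∃ g : MvPolynomial (Fin m) K, g ≠ 0 ∧ ∀ z ∈ S, MvPolynomial.aeval z g = 0 := by
    by_contra hcon
    push Not at hcon
    obtain ⟨z, hzS, hz⟩ := exists_generic_seqC (k := k₂) (L := L) (S := S) fun g hg => by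
      obtain ⟨z, hz1, hz2⟩ := hcon g hg
      exact ⟨z, hz1, hz2⟩
    choose x hx1 hxn hx2 hx3 using hzS
    have hcU : CharZero (UP L) := charZero_of_injective_ringHom (constHom (L := L)).injective
    have hcΩ : CharZero (AlgebraicClosure (UP L)) :=
      charZero_of_injective_ringHom (algebraMap (UP L) (AlgebraicClosure (UP L))).injective
    have hA : aW d (fun I => algebraMap K L (a I)) f = aW d (fun I => algebraMap k₂ L (a₂ I)) f := by
      refine aW_congr (fun I hI => ?_) f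
      rw [← ha₂ I hI]
      rfl
    rw [hA] at hx1
    exact excE_aux2 (a := a₂) (l := l) (j := j) (z := z) (x := x)
      (algebraMap (UP L) (AlgebraicClosure (UP L))) hd hf hdim hP ha' hz hx1 hxn hx2 hx3
  obtain ⟨g, hg0, hg⟩ := key
  refine ⟨g, hg0, fun x hx hxn hx0 => ?_⟩
  exact hg _ ⟨fun k => (x l)⁻¹ * x k, (certV_smul (inv_ne_zero hx0)).2 hx,
    hxn.smul hf (inv_ne_zero hx0), inv_mul_cancel₀ hx0,
    fun i => div_eq_inv_mul _ _⟩

end Pool.Agent.Lib.MP_44a246_ntD
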