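import Mathlib
import Pool.Agent.Lib.MP_44a246_ntU.U17
import Pool.Agent.Lib.MP_44a246_ntQ.Q10
import Pool.Agent.Lib.MP_44a246_ntQ.Q11
import Pool.Agent.Lib.MP_44a246_ntD.D21

/-!
The exceptional set, with the bound `m - 1` for its dimension (`m` is arbitrary; for `m = 0` it is
empty).
-/

namespace Pool.Agent.Lib.MP_44a246_ntD

open Pool.Agent.Lib.MP_44a246_ntQ
open Pool.Agent.Lib.MP_e52354_nt
open Pool.Agent.Lib.MP_44a246_nt
open Pool.Agent.Lib.MP_44a246_ntL
open Pool.Agent.Lib.MP_44a246_ntS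
open Pool.Agent.Lib.MP_44a246_ntG
open Pool.Agent.Lib.MP_44a246_ntU
open MvPolynomial

universe v w

/-- **The dimension of the exceptional set.** -/
theorem dim_excE {K : Type v} [Field K] {n m : ℕ}
    {g : Fin (n + 1) → (Fin m → Fin (n + 1)) → MvPolynomial (Fin m) K}
    (hg : ∀ l j, g l j ≠ 0) {E : Fin (n + 1) → (Fin m → Fin (n + 1)) → ℕ}
    {G : Fin (n + 1) → (Fin m → Fin (n + 1)) → MvPolynomial (Fin (n + 1)) K}
    (hG : ∀ l j, ∀ {L : Type v} [Field L] [Algebra K L] (x : Fin (n + 1) → L), x l ≠ 0 →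
      aeval x (G l j) = x l ^ E l j * aeval (fun i => x (j i) / x l) (g l j))
    {I : Ideal (MvPolynomial (Fin (n + 1)) K)} (hI : ∀ l j, G l j ∈ I) :
    ringKrullDim (MvPolynomial (Fin (n + 1)) K ⧸ I) ≤ ((m : ℕ) : ℕ) := by
  refine dim_le_of_card (s := m) ?_
  intro M _ _ γ hγ p j hj
  by_contra hp
  have hp' : m + 1 ≤ p := by omega
  have h1 : AlgebraicIndependent K (fun i : Fin (m + 1) => γ (j (Fin.castLE hp' i))) :=
    hj.comp _ (Fin.castLE_injective hp')
  have h2 := indep_ratio h1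
  have h3 : γ (j (Fin.castLE hp' 0)) ≠ 0 := h1.ne_zero 0
  have h4 := hG (j (Fin.castLE hp' 0)) (fun i => j (Fin.castLE hp' i.succ)) γ h3
  rw [hγ _ (hI _ _)] at h4
  have h5 := (mul_eq_zero.1 h4.symm).resolve_left (pow_ne_zero _ h3)
  exact hg _ _ ((algebraicIndependent_iff.1 h2) _ h5)

/-- **The exceptional set**, for the points over algebraic extensions: it is given by finitely many
forms and its (affine) dimension is at most `m`. -/
theorem exists_excFormsE {k : Type*} {K : Type v} [Field k] [CharZero k] [Countable k] [Field K]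
    [CharZero K] [Algebra k K] {n m r d b s : ℕ} (hd : 2 * r + 2 * b + s ≤ d + m + 1) {ι : Type*} [Finite ι]
    {e : ι → ℕ} {f : ι → MvPolynomial (Fin (n + 2)) k}
    (hf : ∀ i, (f i).IsWeightedHomogeneous (wt (n + 1) d) (e i))
    (hdim : ringKrullDim (MvPolynomial (Fin (n + 2)) k ⧸ Ideal.span (Set.range f)) ≤
      ((r + 1 : ℕ) : ℕ))
    {a : (Fin (n + 1) →₀ ℕ) → K} {P : Finset (Fin (n + 1) →₀ ℕ)} (hP : P.card ≤ s)
    (ha : AlgebraicIndependent k (fun I : {I // I ∈ expo (Fin (n + 1)) d ∧ I ∉ P} => a I.1)) :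
    ∃ (s' : ℕ) (G : Fin s' → MvPolynomial (Fin (n + 1)) K), (∀ i, ∃ E, (G i).IsHomogeneous E) ∧
      ringKrullDim (MvPolynomial (Fin (n + 1)) K ⧸ Ideal.span (Set.range G)) ≤ ((m : ℕ) : ℕ) ∧
      ∀ (L : Type w) [Field L] [Algebra K L] [Algebra.IsAlgebraic K L] [Algebra k L]
        [IsScalarTower k K L] (x : Fin (n + 1) → L),
        CertV e (aW d (fun I => algebraMap K L (a I)) f) b x → NDeg f x → ∀ i, aeval x (G i) = 0 := by
  have hex : ∀ (l : Fin (n + 1)) (j : Fin m → Fin (n + 1)),
      ∃ g : MvPolynomial (Fin m) K, g ≠ 0 ∧ ∀ x : Fin (n + 1) → AlgebraicClosure K,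
        CertV e (aW d (fun I => algebraMap K (AlgebraicClosure K) (a I)) f) b x → NDeg f x → x l ≠ 0 →
          MvPolynomial.aeval (fun i => x (j i) / x l) g = 0 :=
    fun l j => exists_excE hd hf hdim hP ha l j
  choose g hg0 hg using hex
  have hex2 : ∀ (l : Fin (n + 1)) (j : Fin m → Fin (n + 1)),
      ∃ (E : ℕ) (G : MvPolynomial (Fin (n + 1)) K), G.IsHomogeneous E ∧
        ∀ {L : Type v} [Field L] [Algebra K L] (x : Fin (n + 1) → L),
          (x l = 0 → aeval x G = 0) ∧
            (x l ≠ 0 → aeval x G = x l ^ E * aeval (fun i => x (j i) / x l) (g l j)) :=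
    fun l j => exists_homogV (g l j) l j
  choose E G hGh hG using hex2
  let eq := Fintype.equivFin (Fin (n + 1) × (Fin m → Fin (n + 1)))
  refine ⟨_, fun i => G (eq.symm i).1 (eq.symm i).2, fun i => ⟨_, hGh _ _⟩, ?_, ?_⟩
  · refine dim_excE hg0 (E := E) (G := G) (fun l j L _ _ x hx => (hG l j x).2 hx) ?_
    intro l j
    refine Ideal.subset_span ⟨eq (l, j), ?_⟩
    simp only [Equiv.symm_apply_apply]
  · intro L _ _ _ _ _ x hx hxn i
    let φ : L →ₐ[K] AlgebraicClosure K := IsAlgClosed.lift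
    have hφk : ∀ u : k, φ.toRingHom (algebraMap k L u) = algebraMap k (AlgebraicClosure K) u := by
      intro u
      show φ (algebraMap k L u) = _
      rw [IsScalarTower.algebraMap_apply k K L, φ.commutes,
        ← IsScalarTower.algebraMap_apply k K (AlgebraicClosure K)]
    have h1 := certV_map φ.toRingHom hx
    have h2 : (fun i I => φ.toRingHom (aW d (fun I => algebraMap K L (a I)) f i I)) =
        aW d (fun I => algebraMap K (AlgebraicClosure K) (a I)) f := by
      funext o I
      rw [map_aW d _ φ.toRingHom hφk f o I]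
      exact congrFun (congrFun (aW_congr (fun I _ => φ.commutes _) f) o) I
    rw [h2] at h1
    have : Infinite L := Infinite.of_injective (algebraMap K L) (algebraMap K L).injective
    have h1n := (nDeg_map φ.toRingHom hφk (x := x)).2 hxn
    have h3 : ∀ l j, aeval x (G l j) = 0 := by
      intro l j
      have h4 : aeval (fun j => φ.toRingHom (x j)) (G l j) = φ (aeval x (G l j)) := by
        have h5 := congrArg (fun g => g (G l j)) (MvPolynomial.comp_aeval (R := K) (f := x) φ)
        exact h5.symm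
      have h6 : aeval (fun j => φ.toRingHom (x j)) (G l j) = 0 := by
        by_cases hl : φ.toRingHom (x l) = 0
        · exact (hG l j (fun j => φ.toRingHom (x j))).1 hl
        · rw [(hG l j (fun j => φ.toRingHom (x j))).2 hl, hg l j _ h1 h1n hl, mul_zero]
      rw [h4] at h6
      exact (map_eq_zero φ).1 h6
    exact h3 _ _

end Pool.Agent.Lib.MP_44a246_ntD
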