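import Mathlib
import Pool.Agent.Lib.MP_44a246_ntD.D15
import Pool.Agent.Lib.MP_44a246_ntD.D22
import Pool.Agent.Lib.MP_44a246_ntD.D13
import Pool.Agent.Lib.MP_44a246_ntU.U25
import Pool.Agent.Lib.MP_44a246_ntX.XV

/-!
The theorem for generic hypersurface sections of subvarieties of `P (d, 1, ..., 1)` over a function
field, with a sharper bound for the dimension of the exceptional set.
-/

namespace Pool.Agent.Lib.MP_44a246_ntD

open Pool.Agent.Lib.MP_44a246_ntQ
open Pool.Agent.Lib.MP_44a246_nt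
open Pool.Agent.Lib.MP_e52354_ntK
open Pool.Agent.Lib.MP_44a246_ntL
open Pool.Agent.Lib.MP_44a246_ntS
open Pool.Agent.Lib.MP_44a246_ntX
open Pool.Agent.Lib.MP_44a246_ntG
open Pool.Agent.Lib.MP_44a246_ntU
open Pool.Agent.Lib.MP_e52354_nt
open MvPolynomial Module

universe u v w

/-- **The slope theorem for sections of weighted projective varieties**, with the dimension of the
exceptional set. -/
theorem slope_mainE {κ : Type u} {K : Type v} [Field κ] [IsAlgClosed κ] [CharZero κ] [Field K]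
    [CharZero K] [Algebra κ K] (htr : Cardinal.aleph0 ≤ Algebra.trdeg ℚ κ)
    {t : K} (ht : Transcendental κ t) [FiniteDimensional (IntermediateField.adjoin κ {t}) K]
    {k : Type*} [Field k] [CharZero k] [Algebra k K] (hk : Algebra.trdeg ℚ k < Cardinal.aleph0)
    {n r c s d T M m : ℕ} {ι : Type*} [Finite ι] {e : ι → ℕ}
    {f : ι → MvPolynomial (Fin (n + 2)) k}
    (hf : ∀ i, (f i).IsWeightedHomogeneous (Fin.cons d fun _ => 1) (e i))
    (hdim : ringKrullDim (MvPolynomial (Fin (n + 2)) k ⧸ Ideal.span (Set.range f)) ≤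
      ((r + 1 : ℕ) : WithBot ℕ∞))
    (hT : 1 ≤ T) (hT2 : 2000 * T ^ 2 ≤ d) (hr' : 2500 * (T * (s + 3)) ≤ d)
    (hN : 2 * (r + c) + 8500 * T ^ 2 + T * (r + c + 2 + s) ≤ T * d)
    (he : ∀ i, 2000 * ((s + 3) * (T * e i)) ≤ d ^ 2 ∨ e i ≤ M)
    (hm : 2 * r + 4 * T + c ≤ d + m + 1)
    (H : MvPolynomial (Fin (n + 1)) K) (hH : H.IsHomogeneous d)
    (hgen : (Nat.card {I : Fin (n + 1) →₀ ℕ // I.degree = d} : Cardinal) ≤
      Algebra.trdeg k (IntermediateField.adjoin k
        (Set.range fun I : {I : Fin (n + 1) →₀ ℕ // I.degree = d} => H.coeff I.1)) + c) :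
    ∃ (l : ℕ) (G : Fin l → MvPolynomial (Fin (n + 1)) K), (∀ i, ∃ E, (G i).IsHomogeneous E) ∧
      ringKrullDim (MvPolynomial (Fin (n + 1)) K ⧸ Ideal.span (Set.range G)) ≤
        (m : WithBot ℕ∞) ∧
      ∃ C : ℕ, ∀ (L : Type w) [Field L] [Algebra K L] [FiniteDimensional K L] [Algebra κ L]
        [IsScalarTower κ K L] [Algebra k L] [IsScalarTower k K L] (x : Fin (n + 1) → L), x ≠ 0 →
        (∀ i, aeval (Fin.cons (aeval x H) x : Fin (n + 2) → L) (f i) = 0) → NDeg f x →
        ((s * height κ x ≤ ramDeg κ L K ∨ (d : ℤ) ^ 2 * height κ x ≤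
            C * finrank K L + 18 * T * M * ramDeg κ L K) ∧
          (pointField K x = ⊤ → 2 * finrank K L ≤ s + 1 →
            36 * T * M * (finrank K L - 1) < d ^ 2 →
            height κ x ≤ C * finrank K L)) ∨
          (∀ i, aeval x (G i) = 0) ∧
            CertV e (aW d (fun I => algebraMap K L (H.coeff I)) f) (2 * T) x := by
  have hd2 : 2 * r + 2 * (2 * T) + c ≤ d + m + 1 := by omega
  obtain ⟨P, hP, ha⟩ := exists_few (fun I => H.coeff I) hgen
  have hf' : ∀ i, (f i).IsWeightedHomogeneous (wt (n + 1) d) (e i) := hf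
  have hK : IsFF κ K := ⟨t, ht, inferInstance⟩
  have hkc : Countable k := countable_of_trdeg hk
  obtain ⟨l, G, hG1, hG2, hG3⟩ := exists_excFormsE.{v, w} hd2 hf' hdim hP ha
  obtain ⟨C, hC⟩ := heightC_base.{u, v, w} (κ := κ) (K := K) hK htr hk hT hT2 hr' hN
    (e := e) (M := M) he hf' hdim (a := fun I => H.coeff I)
    (P := P) (by omega : r + P.card ≤ r + c) ha
  refine ⟨l, G, hG1, by exact_mod_cast hG2, C, ?_⟩
  intro L _ _ _ _ _ _ _ x hx hfx hne
  have hfx' : ∀ i, Fval (e i) (aW d (fun I => algebraMap K L (H.coeff I)) f i) x = 0 := by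
    intro i
    have h1 := hfx i
    rw [Pool.Agent.Lib.MP_44a246_ntU.aeval_eq_Fval hH] at h1
    rw [Fval_aW' hf']
    exact h1
  have hL : IsFF κ L := hK.of_finite
  have hHt : 0 ≤ height κ x := hL.height_nonneg hx
  have hRam : (0 : ℤ) ≤ ramDeg κ L K := Int.natCast_nonneg _
  have hfr : 1 ≤ finrank K L := Module.finrank_pos
  have hd1 : (1 : ℤ) ≤ d := by
    have : 1 ≤ d := by
      have h1 : 1 ≤ T ^ 2 := Nat.one_le_pow _ _ hT
      omega
    exact_mod_cast this
  have key := hC L x hx hfx' hne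
  rcases key with h | h | h
  · left
    refine ⟨Or.inl h, fun hgx h2 _ => ?_⟩
    have h3 : (ramDeg κ L K : ℤ) ≤ 2 * ((Module.finrank K L : ℤ) - 1) * height κ x := by
      refine hK.ind ?_
      intro _ _ _ _ _ _ _ _ _
      exact (ram_point (κ := κ) (K := K) x hx hgx).1
    have h4 : 2 * (Module.finrank K L : ℤ) ≤ s + 1 := by exact_mod_cast h2
    have h5 : height κ x ≤ 0 := by nlinarith
    exact h5.trans (by positivity)
  · left
    refine ⟨Or.inr h, fun hgx h2 h8 => ?_⟩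
    have h3 : (ramDeg κ L K : ℤ) ≤ 2 * ((Module.finrank K L : ℤ) - 1) * height κ x := by
      refine hK.ind ?_
      intro _ _ _ _ _ _ _ _ _
      exact (ram_point (κ := κ) (K := K) x hx hgx).1
    have h9 : 36 * (T : ℤ) * M * ((finrank K L : ℤ) - 1) + 1 ≤ (d : ℤ) ^ 2 := by
      have h10 : 36 * T * M * (finrank K L - 1) + 1 ≤ d ^ 2 := h8
      have h11 : ((finrank K L - 1 : ℕ) : ℤ) = (finrank K L : ℤ) - 1 := by
        rw [Nat.cast_sub hfr, Nat.cast_one]
      rw [← h11]
      exact_mod_cast h10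
    have hc : (0 : ℤ) ≤ 18 * T * M := by positivity
    have h12 := mul_le_mul_of_nonneg_left h3 hc
    have h13 := mul_le_mul_of_nonneg_right h9 hHt
    nlinarith
  · right
    exact ⟨hG3 L x h hne, h⟩

end Pool.Agent.Lib.MP_44a246_ntD
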